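import Pool.Agent.K9h65.SM6.REAL

/-!
# SM6: `S_A` from `S_REAL` and `S_FOU`
-/

set_option autoImplicit false

open Finset

namespace Pool.Agent.K9h65.SM6

lemma Good.mono {K K' : ℝ} {ψ : ℤ → ℤ} {g : ℤ → ℝ} {A B : ℤ} (h : Good K ψ g A B) (hK : K ≤ K') :
    Good K' ψ g A B where
  a1 := fun x y h1 h2 h3 h4 => (h.a1 x y h1 h2 h3 h4).trans
    (mul_le_mul_of_nonneg_right hK (by positivity))
  a2 := fun x x' y d h1 h2 h3 h4 h5 h6 h7 h8 => (h.a2 x x' y d h1 h2 h3 h4 h5 h6 h7 h8).trans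
    (mul_le_mul_of_nonneg_right hK (by positivity))

theorem sA (h : S_FOU) : S_A := by
  intro K ε hε
  set K' : ℝ := max K 1 with hK'
  have hK1 : 1 ≤ K' := le_max_right _ _
  obtain ⟨C, hC, hR⟩ := sREAL (9 * K' ^ 2) ε (by nlinarith) hε
  refine ⟨C, hC, ?_⟩
  intro ψ g A B hAB hG
  obtain ⟨M, hS, hc⟩ := h K' ψ g A B hK1 hAB (hG.mono (le_max_left _ _))
  refine hc.trans ?_
  have hAB' : (A : ℝ) ≤ B := by exact_mod_cast hAB
  apply hR (Icc A B) M hS (Icc A B) (Subset.refl _) ((B : ℝ) - A + 1) (by linarith)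
  intro x hx y hy
  rw [mem_Icc] at hx hy
  have h1 : (x : ℝ) ≤ B := by exact_mod_cast hx.2
  have h2 : (A : ℝ) ≤ y := by exact_mod_cast hy.1
  linarith

end Pool.Agent.K9h65.SM6
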