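import Pool.Agent.K9h65.SM6.REAL2
import Pool.Agent.K9h65.SM6.A

/-!
# SM6: `S_A2` from `S_REAL2` and `S_FOU2`
-/

set_option autoImplicit false

open Finset

namespace Pool.Agent.K9h65.SM6

theorem sA2 (h : S_FOU2) : S_A2 := by
  intro K ε hε
  set K' : ℝ := max K 1 with hK'
  have hK1 : 1 ≤ K' := le_max_right _ _
  obtain ⟨C, hC, hR⟩ := sREAL2 (9 * K' ^ 2) ε (by nlinarith) hε
  refine ⟨C, hC, ?_⟩
  intro ψ g A B hAB hG X hX
  obtain ⟨M, hS, hc⟩ := h K' ψ g A B hK1 hAB (hG.mono (le_max_left _ _))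
  refine (hc X hX).trans ?_
  have hAB' : (A : ℝ) ≤ B := by exact_mod_cast hAB
  apply hR (Icc A B) M hS X hX ((B : ℝ) - A + 1) (by linarith)
  intro x hx y hy
  have hx := hX hx
  have hy := hX hy
  rw [mem_Icc] at hx hy
  have h1 : (x : ℝ) ≤ B := by exact_mod_cast hx.2
  have h2 : (A : ℝ) ≤ y := by exact_mod_cast hy.1
  linarith

end Pool.Agent.K9h65.SM6
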