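import Pool.Agent.K9h65.SM6.Stm

/-! # Leaf B: products of three integers of a short progression -/

set_option autoImplicit false

open Finset

namespace Pool.Agent.K9h65.SM6

namespace LB

/-! ### real analysis -/

lemma lg_le {u v : ℝ} (hu : 0 ≤ u) (hv : 0 ≤ v) :
    Real.log (1 + v) - Real.log (1 + u) ≤ (v - u) / (1 + u) := by
  have h1 : 0 < 1 + u := by linarith
  have h2 : 0 < 1 + v := by linarith
  rw [← Real.log_div h2.ne' h1.ne']
  refine (Real.log_le_sub_one_of_pos (by positivity)).trans (le_of_eq ?_)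
  field_simp
  ring

lemma lg_ge {u v : ℝ} (hu : 0 ≤ u) (hv : 0 ≤ v) :
    (v - u) / (1 + v) ≤ Real.log (1 + v) - Real.log (1 + u) := by
  have h := lg_le hv hu
  have : (v - u) / (1 + v) = -((u - v) / (1 + v)) := by ring
  rw [this]
  linarith

lemma lg1 {u v : ℝ} (hu : 0 ≤ u) (hv : 0 ≤ v) :
    0 ≤ (v - u) / (1 + u) - (Real.log (1 + v) - Real.log (1 + u)) ∧
    (v - u) / (1 + u) - (Real.log (1 + v) - Real.log (1 + u)) ≤ (v - u) ^ 2 := by
  have h1 : 0 < 1 + u := by linarith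
  have h2 : 0 < 1 + v := by linarith
  refine ⟨by linarith [lg_le hu hv], ?_⟩
  have h3 := lg_ge hu hv
  have h4 : (v - u) / (1 + u) - (v - u) / (1 + v) = (v - u) ^ 2 / ((1 + u) * (1 + v)) := by
    field_simp
    ring
  have h5 : (v - u) ^ 2 / ((1 + u) * (1 + v)) ≤ (v - u) ^ 2 := by
    apply div_le_self (sq_nonneg _)
    nlinarith
  linarith

lemma lg2 {u u' c : ℝ} (hc : 0 ≤ c) (hc1 : c ≤ 1) (hu' : c ≤ u') (hu'1 : u' ≤ 1) (huu : u' ≤ u) :
    (u - u') * (u' - c) / 4 ≤ (u - u') / (1 + c) - (Real.log (1 + u) - Real.log (1 + u')) := by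
  have h0 : 0 ≤ u' := by linarith
  have h1 : 0 < 1 + c := by linarith
  have h2 : 0 < 1 + u' := by linarith
  have h3 := lg_le h0 (by linarith : 0 ≤ u)
  have h4 : (u - u') / (1 + c) - (u - u') / (1 + u') =
      (u - u') * (u' - c) / ((1 + c) * (1 + u')) := by
    field_simp
    ring
  have h5 : (u - u') * (u' - c) / 4 ≤ (u - u') * (u' - c) / ((1 + c) * (1 + u')) := by
    apply div_le_div_of_nonneg_left _ (by positivity) _
    · exact mul_nonneg (by linarith) (by linarith)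
    · nlinarith
  linarith

lemma lg3 {u u' c : ℝ} (hc1 : c ≤ 1) (hu' : 0 ≤ u') (hu : u ≤ c) (huu : u' ≤ u) :
    (u - u') * (c - u) / 4 ≤ (Real.log (1 + u) - Real.log (1 + u')) - (u - u') / (1 + c) := by
  have h0 : 0 ≤ u := by linarith
  have hc : 0 ≤ c := by linarith
  have h1 : 0 < 1 + c := by linarith
  have h2 : 0 < 1 + u := by linarith
  have h3 := lg_ge hu' h0
  have h4 : (u - u') / (1 + u) - (u - u') / (1 + c) =
      (u - u') * (c - u) / ((1 + u) * (1 + c)) := by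
    field_simp
    ring
  have h5 : (u - u') * (c - u) / 4 ≤ (u - u') * (c - u) / ((1 + u) * (1 + c)) := by
    apply div_le_div_of_nonneg_left _ (by positivity) _
    · exact mul_nonneg (by linarith) (by linarith)
    · nlinarith
  linarith

/-- `φ` -/
noncomputable def ph (M y : ℝ) : ℝ := M ^ 2 * (y / M - Real.log (1 + y / M))

/-- `g` -/
noncomputable def gg (M x : ℝ) : ℝ := M * ((x / M) / (1 + x / M))

lemma ph_diff {M : ℝ} (hM : 0 < M) (x y c : ℝ) (hc : 0 ≤ c) :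
    ph M y - ph M x - gg M c * (y - x) =
      M ^ 2 * ((y / M - x / M) / (1 + c / M) - (Real.log (1 + y / M) - Real.log (1 + x / M))) := by
  have h1 : 0 < 1 + c / M := by positivity
  have h2 : y - x = M * (y / M - x / M) := by field_simp
  unfold ph gg
  rw [h2]
  have h3 : (y / M - x / M) / (1 + c / M) =
      (y / M - x / M) - (c / M) / (1 + c / M) * (y / M - x / M) := by
    field_simp
    ring
  rw [h3]
  ring

lemma ph1 {M : ℝ} (hM : 0 < M) {x y : ℝ} (hx : 0 ≤ x) (hy : 0 ≤ y) :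
    0 ≤ ph M y - ph M x - gg M x * (y - x) ∧ ph M y - ph M x - gg M x * (y - x) ≤ (y - x) ^ 2 := by
  rw [ph_diff hM x y x hx]
  obtain ⟨h1, h2⟩ := lg1 (u := x / M) (v := y / M) (by positivity) (by positivity)
  refine ⟨mul_nonneg (by positivity) h1, ?_⟩
  refine (mul_le_mul_of_nonneg_left h2 (by positivity)).trans (le_of_eq ?_)
  field_simp

lemma ph2 {M : ℝ} (hM : 0 < M) {x x' c δ : ℝ} (hc : 0 ≤ c) (hcM : c ≤ M) (hδ : 0 ≤ δ)
    (h' : c + δ ≤ x') (hx'M : x' ≤ M) (hxx : x' ≤ x) :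
    δ * (x - x') / 4 ≤ ph M x - ph M x' - gg M c * (x - x') := by
  rw [ph_diff hM x' x c hc]
  have h1 := lg2 (u := x / M) (u' := x' / M) (c := c / M) (by positivity)
    ((div_le_one hM).mpr hcM) (by gcongr; linarith) ((div_le_one hM).mpr hx'M) (by gcongr)
  refine le_trans ?_ (mul_le_mul_of_nonneg_left h1 (by positivity))
  have h2 : M ^ 2 * ((x / M - x' / M) * (x' / M - c / M) / 4) = (x - x') * (x' - c) / 4 := by
    field_simp
  rw [h2]
  nlinarith

lemma ph3 {M : ℝ} (hM : 0 < M) {x x' c δ : ℝ} (hc : 0 ≤ c) (hcM : c ≤ M) (hδ : 0 ≤ δ)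
    (h0 : 0 ≤ x') (h' : x ≤ c - δ) (hxx : x' ≤ x) :
    δ * (x - x') / 4 ≤ -(ph M x - ph M x' - gg M c * (x - x')) := by
  rw [ph_diff hM x' x c hc]
  have h1 := lg3 (u := x / M) (u' := x' / M) (c := c / M) ((div_le_one hM).mpr hcM)
    (by positivity) (by gcongr; linarith) (by gcongr)
  have h3 := mul_le_mul_of_nonneg_left h1 (by positivity : 0 ≤ M ^ 2)
  have h2 : M ^ 2 * ((x / M - x' / M) * (c / M - x / M) / 4) = (x - x') * (c - x) / 4 := by
    field_simp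
  rw [h2] at h3
  have h4 : δ * (x - x') / 4 ≤ (x - x') * (c - x) / 4 := by nlinarith
  linarith

/-- `ψ` -/
noncomputable def ps (M : ℝ) (x : ℤ) : ℤ := ⌊ph M x⌋

lemma ps_le (M : ℝ) (x : ℤ) : (ps M x : ℝ) ≤ ph M x := Int.floor_le _

lemma lt_ps (M : ℝ) (x : ℤ) : ph M x < ps M x + 1 := Int.lt_floor_add_one _

lemma good {M : ℝ} (hM : 0 < M) {H : ℤ} (hH : (H : ℝ) ≤ M) :
    Good 8 (ps M) (fun x => gg M x) 0 H := by
  have hr : ∀ x : ℤ, 0 ≤ x → x ≤ H → (0 : ℝ) ≤ x ∧ (x : ℝ) ≤ M := by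
    intro x h0 h1
    exact ⟨by exact_mod_cast h0, (by exact_mod_cast h1 : (x : ℝ) ≤ H).trans hH⟩
  refine ⟨?_, ?_⟩
  · intro x y hx0 hx1 hy0 hy1
    obtain ⟨hx, hx'⟩ := hr x hx0 hx1
    obtain ⟨hy, hy'⟩ := hr y hy0 hy1
    obtain ⟨h1, h2⟩ := ph1 hM hx hy
    have a1 := ps_le M x
    have a2 := lt_ps M x
    have b1 := ps_le M y
    have b2 := lt_ps M y
    have hsq : (0 : ℝ) ≤ ((y : ℝ) - x) ^ 2 := sq_nonneg _
    rw [abs_le]
    constructor <;> nlinarith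
  · have key : ∀ (x x' y : ℤ) (d : ℝ), 0 ≤ x → x ≤ H → 0 ≤ x' → x' ≤ H → 0 ≤ y → y ≤ H → 0 ≤ d →
        (((y : ℝ) + d ≤ x ∧ (y : ℝ) + d ≤ x') ∨ ((x : ℝ) ≤ y - d ∧ (x' : ℝ) ≤ y - d)) → x' ≤ x →
        d * ((x : ℝ) - x') ≤ 8 * (|(ps M x : ℝ) - ps M x' - gg M y * ((x : ℝ) - x')| + 1) := by
      intro x x' y d hx0 hx1 hx'0 hx'1 hy0 hy1 hd hcase hxx
      obtain ⟨hx, hxM⟩ := hr x hx0 hx1
      obtain ⟨hx', hx'M⟩ := hr x' hx'0 hx'1
      obtain ⟨hy, hyM⟩ := hr y hy0 hy1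
      have hxxr : (x' : ℝ) ≤ x := by exact_mod_cast hxx
      have a1 := ps_le M x
      have a2 := lt_ps M x
      have b1 := ps_le M x'
      have b2 := lt_ps M x'
      rcases hcase with ⟨h1, h2⟩ | ⟨h1, h2⟩
      · have h3 := ph2 hM hy hyM hd h2 hx'M hxxr
        have h4 := le_abs_self ((ps M x : ℝ) - ps M x' - gg M y * ((x : ℝ) - x'))
        have h5 := abs_nonneg ((ps M x : ℝ) - ps M x' - gg M y * ((x : ℝ) - x'))
        nlinarith
      · have h3 := ph3 hM hy hyM hd hx' h1 hxxr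
        have h4 := neg_le_abs ((ps M x : ℝ) - ps M x' - gg M y * ((x : ℝ) - x'))
        have h5 := abs_nonneg ((ps M x : ℝ) - ps M x' - gg M y * ((x : ℝ) - x'))
        nlinarith
    intro x x' y d hx0 hx1 hx'0 hx'1 hy0 hy1 hd hcase
    rcases le_total x' x with hxx | hxx
    · rw [abs_of_nonneg (by
        have : (x' : ℝ) ≤ x := by exact_mod_cast hxx
        linarith)]
      exact key x x' y d hx0 hx1 hx'0 hx'1 hy0 hy1 hd hcase hxx
    · have h1 := key x' x y d hx'0 hx'1 hx0 hx1 hy0 hy1 hd (by tauto) hxx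
      rw [abs_sub_comm, abs_of_nonneg (by
        have : (x : ℝ) ≤ x' := by exact_mod_cast hxx
        linarith)]
      refine h1.trans (le_of_eq ?_)
      congr 2
      rw [← abs_neg]
      congr 1
      ring

/-! ### the shift lemma -/

lemma shift_le {α G : Type} [AddCommGroup G] [DecidableEq G] (Z : Finset α) (f : α → G) (e : G) :
    ((Z ×ˢ Z).filter fun p : α × α => f p.1 = f p.2 + e).card ≤
      ((Z ×ˢ Z).filter fun p : α × α => f p.1 = f p.2).card := by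
  classical
  obtain ⟨Ω, hΩ⟩ : ∃ Ω, Ω = Z.image f := ⟨_, rfl⟩
  obtain ⟨r, hr⟩ : ∃ r : G → ℝ, r = fun c => ∑ v ∈ Z, if f v = c then (1 : ℝ) else 0 := ⟨_, rfl⟩
  have hcount : ∀ P : α × α → Prop, ∀ _ : DecidablePred P,
      (((Z ×ˢ Z).filter P).card : ℝ) = ∑ v ∈ Z, ∑ w ∈ Z, if P (v, w) then (1 : ℝ) else 0 := by
    intro P _
    rw [Finset.card_filter, ← Finset.sum_product']
    push_cast
    rfl
  have swap : ∀ F : G → α → α → ℝ, ∑ c ∈ Ω, ∑ v ∈ Z, ∑ w ∈ Z, F c v w =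
      ∑ v ∈ Z, ∑ w ∈ Z, ∑ c ∈ Ω, F c v w := by
    intro F
    rw [Finset.sum_comm]
    exact Finset.sum_congr rfl fun v _ => Finset.sum_comm
  have hrr : ∀ c c' : G, r c * r c' = ∑ v ∈ Z, ∑ w ∈ Z,
        (if f v = c then (1 : ℝ) else 0) * (if f w = c' then (1 : ℝ) else 0) := by
    intro c c'
    rw [hr, Finset.sum_mul_sum]
  have h0 : (((Z ×ˢ Z).filter fun p : α × α => f p.1 = f p.2).card : ℝ) = ∑ c ∈ Ω, r c * r c := by
    have e1 : ∑ c ∈ Ω, r c * r c = ∑ v ∈ Z, ∑ w ∈ Z, ∑ c ∈ Ω,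
        (if f v = c then (1 : ℝ) else 0) * (if f w = c then (1 : ℝ) else 0) := by
      rw [← swap]
      exact Finset.sum_congr rfl (fun c _ => hrr c c)
    rw [hcount, e1]
    refine Finset.sum_congr rfl fun v hv => Finset.sum_congr rfl fun w hw => ?_
    rw [Finset.sum_eq_single (f v)]
    · simp only [if_true, one_mul]
      exact if_congr eq_comm rfl rfl
    · intro c _ hc
      rw [if_neg (Ne.symm hc), zero_mul]
    · intro h
      exact absurd (hΩ ▸ Finset.mem_image_of_mem f hv) h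
  have h1 : (((Z ×ˢ Z).filter fun p : α × α => f p.1 = f p.2 + e).card : ℝ) =
      ∑ c ∈ Ω, r (c + e) * r c := by
    have e1 : ∑ c ∈ Ω, r (c + e) * r c = ∑ v ∈ Z, ∑ w ∈ Z, ∑ c ∈ Ω,
        (if f v = c + e then (1 : ℝ) else 0) * (if f w = c then (1 : ℝ) else 0) := by
      rw [← swap]
      exact Finset.sum_congr rfl (fun c _ => hrr (c + e) c)
    rw [hcount, e1]
    refine Finset.sum_congr rfl fun v hv => Finset.sum_congr rfl fun w hw => ?_
    rw [Finset.sum_eq_single (f w)]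
    · simp only [if_true, mul_one]
    · intro c _ hc
      rw [if_neg (Ne.symm hc), mul_zero]
    · intro h
      exact absurd (hΩ ▸ Finset.mem_image_of_mem f hw) h
  have h2 : ∑ c ∈ Ω, r (c + e) * r (c + e) ≤
      (((Z ×ˢ Z).filter fun p : α × α => f p.1 = f p.2).card : ℝ) := by
    have e1 : ∑ c ∈ Ω, r (c + e) * r (c + e) = ∑ v ∈ Z, ∑ w ∈ Z, ∑ c ∈ Ω,
        (if f v = c + e then (1 : ℝ) else 0) * (if f w = c + e then (1 : ℝ) else 0) := by
      rw [← swap]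
      exact Finset.sum_congr rfl (fun c _ => hrr (c + e) (c + e))
    rw [hcount, e1]
    refine Finset.sum_le_sum fun v hv => Finset.sum_le_sum fun w hw => ?_
    by_cases hvw : f v = f w
    · rw [if_pos hvw]
      by_cases hm : f v - e ∈ Ω
      · rw [Finset.sum_eq_single (f v - e)]
        · simp [← hvw]
        · intro c _ hc
          rw [if_neg (fun h => hc (by rw [h]; abel)), zero_mul]
        · intro h
          exact absurd hm h
      · rw [Finset.sum_eq_zero]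
        · exact zero_le_one
        · intro c hc
          rw [if_neg (fun h => hm (by rw [h, add_sub_cancel_right]; exact hc)), zero_mul]
    · rw [if_neg hvw, Finset.sum_eq_zero]
      intro c _
      by_cases h3 : f v = c + e
      · rw [if_neg (fun h4 : f w = c + e => hvw (h3.trans h4.symm)), mul_zero]
      · rw [if_neg h3, zero_mul]
  have h3 : ∑ c ∈ Ω, r (c + e) * r c ≤
      ∑ c ∈ Ω, (r (c + e) * r (c + e) + r c * r c) / 2 := by
    refine Finset.sum_le_sum fun c _ => ?_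
    nlinarith [sq_nonneg (r (c + e) - r c)]
  rw [← Finset.sum_div, Finset.sum_add_distrib, ← h0] at h3
  have h4 : (((Z ×ˢ Z).filter fun p : α × α => f p.1 = f p.2 + e).card : ℝ) ≤
      (((Z ×ˢ Z).filter fun p : α × α => f p.1 = f p.2).card : ℝ) := by
    rw [h1]
    linarith
  exact_mod_cast h4

/-! ### the frequencies -/

lemma fr_eq {m d : ℕ} (hm : 1 ≤ m) (hd : 1 ≤ d) (h : ℕ) :
    Real.log ((m : ℝ) + d * h) = Real.log m + ((h : ℝ) / ((m : ℝ) / d) -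
      ph ((m : ℝ) / d) h / ((m : ℝ) / d) ^ 2) := by
  have hm0 : (0 : ℝ) < m := by exact_mod_cast hm
  have hd0 : (0 : ℝ) < d := by exact_mod_cast hd
  have hM : 0 < (m : ℝ) / d := by positivity
  have h1 : ph ((m : ℝ) / d) h / ((m : ℝ) / d) ^ 2 =
      (h : ℝ) / ((m : ℝ) / d) - Real.log (1 + (h : ℝ) / ((m : ℝ) / d)) := by
    unfold ph
    field_simp
  rw [h1]
  have h2 : (m : ℝ) + d * h = m * (1 + (h : ℝ) / ((m : ℝ) / d)) := by
    field_simp
  rw [h2, Real.log_mul hm0.ne' (by positivity)]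
  ring

lemma ph_bd {M : ℝ} (hM : 0 < M) {h : ℝ} (hh : 0 ≤ h) : 0 ≤ ph M h ∧ ph M h ≤ h ^ 2 := by
  have h1 := ph1 hM (x := 0) (y := h) le_rfl hh
  have h2 : ph M 0 = 0 := by unfold ph; simp
  have h3 : gg M 0 = 0 := by unfold gg; simp
  rw [h2, h3] at h1
  simpa using h1

end LB

open LB in
/-- Leaf B. -/
theorem sB (hA : S_A) : S_B := by
  classical
  intro ε hε
  obtain ⟨C, hC, hcnt⟩ := hA 8 ε hε
  refine ⟨126 * C, by positivity, ?_⟩
  intro m d H T hm hd hH hdH hT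
  have hm0 : (0 : ℝ) < m := by exact_mod_cast hm
  have hd0 : (0 : ℝ) < d := by exact_mod_cast hd
  have hH0 : (1 : ℝ) ≤ H := by exact_mod_cast hH
  obtain ⟨M, hMdef⟩ : ∃ M : ℝ, M = (m : ℝ) / d := ⟨_, rfl⟩
  have hM : 0 < M := by rw [hMdef]; positivity
  rw [← hMdef] at hT
  have hT0 : 0 < T := lt_of_lt_of_le (by positivity) hT
  -- the box
  obtain ⟨B, hB⟩ : ∃ B : ℤ, B = (H : ℤ) - 1 := ⟨_, rfl⟩
  have hB0 : 0 ≤ B := by omega
  have hBM : (B : ℝ) ≤ M := by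
    rw [hMdef, le_div_iff₀ hd0, hB]
    have h1 : ((d * (H - 1) : ℕ) : ℝ) ≤ m := by exact_mod_cast hdH
    rw [Nat.cast_mul, Nat.cast_sub hH] at h1
    push_cast at h1 ⊢
    linarith
  have hgood := good hM hBM
  have hc := hcnt (ps M) (fun x => gg M x) 0 B hB0 hgood
  have hBr : (B : ℝ) - ((0 : ℤ) : ℝ) + 1 = H := by
    rw [hB]; push_cast; ring
  rw [hBr] at hc
  obtain ⟨Z, hZ⟩ : ∃ Z : Finset (ℤ × ℤ × ℤ), Z = Icc 0 B ×ˢ Icc 0 B ×ˢ Icc 0 B := ⟨_, rfl⟩
  obtain ⟨f, hf⟩ : ∃ f : ℤ × ℤ × ℤ → ℤ × ℤ, f = fun w =>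
    (w.1 + w.2.1 + w.2.2, ps M w.1 + ps M w.2.1 + ps M w.2.2) := ⟨_, rfl⟩
  have hcnt6 : ((Z ×ˢ Z).filter fun p : (ℤ × ℤ × ℤ) × (ℤ × ℤ × ℤ) => f p.1 = f p.2).card =
      cnt6 (Icc 0 B) (ps M) := by
    unfold cnt6
    rw [hZ, hf]
    congr 1
    refine Finset.filter_congr fun p _ => ?_
    simp only [Prod.mk.injEq]
  -- the map to the integers
  obtain ⟨tr, htr⟩ : ∃ tr : ℕ × ℕ × ℕ → ℤ × ℤ × ℤ, tr = fun v => ((v.1 : ℤ), (v.2.1 : ℤ), (v.2.2 : ℤ)) :=
    ⟨_, rfl⟩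
  have htrZ : ∀ v ∈ tri H, tr v ∈ Z := by
    intro v hv
    unfold tri at hv
    rw [hZ, htr]
    simp only [Finset.mem_product, Finset.mem_range, Finset.mem_Icc] at hv ⊢
    omega
  have htrinj : Function.Injective tr := by
    intro v w h
    rw [htr] at h
    simp only [Prod.mk.injEq, Nat.cast_inj] at h
    exact Prod.ext h.1 (Prod.ext h.2.1 h.2.2)
  -- the set of differences
  obtain ⟨Kn, hKn⟩ : ∃ Kn : ℕ, Kn = ⌊7 * (d : ℝ) * H ^ 2 / m⌋₊ := ⟨_, rfl⟩
  obtain ⟨E, hE⟩ : ∃ E : Finset (ℤ × ℤ), E = (Icc (-(Kn : ℤ)) Kn ×ˢ Icc (-4 : ℤ) 4).image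
    (fun c => (c.1, ⌊M * c.1⌋ + c.2)) := ⟨_, rfl⟩
  have hEcard : (E.card : ℝ) ≤ 126 * (1 + d * (H : ℝ) ^ 2 / m) := by
    have h1 : E.card ≤ (2 * Kn + 1) * 9 := by
      rw [hE]
      refine Finset.card_image_le.trans (le_of_eq ?_)
      rw [Finset.card_product, Int.card_Icc, Int.card_Icc]
      congr 1
      omega
    have h2 : (Kn : ℝ) ≤ 7 * (d : ℝ) * H ^ 2 / m := by
      rw [hKn]
      exact Nat.floor_le (by positivity)
    have h3 : (E.card : ℝ) ≤ (2 * Kn + 1) * 9 := by exact_mod_cast h1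
    have h4 : 7 * (d : ℝ) * H ^ 2 / m = 7 * (d * (H : ℝ) ^ 2 / m) := by ring
    rw [h4] at h2
    have h5 : (0 : ℝ) ≤ d * (H : ℝ) ^ 2 / m := by positivity
    linarith
  -- fibres
  obtain ⟨P, hP⟩ : ∃ P, P = ((tri H ×ˢ tri H).filter fun p : (ℕ × ℕ × ℕ) × (ℕ × ℕ × ℕ) =>
    |fr m d p.1 - fr m d p.2| ≤ 1 / T) := ⟨_, rfl⟩
  have hmaps : ∀ p ∈ P, (f (tr p.1) - f (tr p.2)) ∈ E := by
    rintro ⟨v, w⟩ hp
    rw [hP, Finset.mem_filter, Finset.mem_product] at hp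
    obtain ⟨⟨hv, hw⟩, hfr⟩ := hp
    simp only at hv hw hfr
    obtain ⟨v1, v2, v3⟩ := v
    obtain ⟨w1, w2, w3⟩ := w
    simp only [tri, Finset.mem_product, Finset.mem_range] at hv hw
    obtain ⟨hv1, hv2, hv3⟩ := hv
    obtain ⟨hw1, hw2, hw3⟩ := hw
    -- `k` and `e`
    obtain ⟨k, hk⟩ : ∃ k : ℤ, k = ((v1 : ℤ) + v2 + v3) - (w1 + w2 + w3) := ⟨_, rfl⟩
    obtain ⟨e, he⟩ : ∃ e : ℤ, e = (ps M v1 + ps M v2 + ps M v3) -
      (ps M w1 + ps M w2 + ps M w3) := ⟨_, rfl⟩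
    have hfe : f (tr (v1, v2, v3)) - f (tr (w1, w2, w3)) = (k, e) := by
      rw [hf, htr, hk, he]
      rfl
    have hbd : ∀ a : ℕ, a < H → 0 ≤ ph M a ∧ ph M a ≤ (H : ℝ) ^ 2 := by
      intro a ha
      have h1 := ph_bd hM (h := a) (Nat.cast_nonneg a)
      refine ⟨h1.1, h1.2.trans ?_⟩
      have h2 : (a : ℝ) ≤ H := by exact_mod_cast ha.le
      exact pow_le_pow_left₀ (Nat.cast_nonneg a) h2 2
    have b1 := hbd v1 hv1
    have b2 := hbd v2 hv2
    have b3 := hbd v3 hv3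
    have b4 := hbd w1 hw1
    have b5 := hbd w2 hw2
    have b6 := hbd w3 hw3
    obtain ⟨Φ, hΦ⟩ : ∃ Φ : ℝ, Φ = (ph M v1 + ph M v2 + ph M v3) -
      (ph M w1 + ph M w2 + ph M w3) := ⟨_, rfl⟩
    have hΦb : |Φ| ≤ 3 * (H : ℝ) ^ 2 := by
      rw [abs_le, hΦ]
      constructor <;> linarith [b1.1, b1.2, b2.1, b2.2, b3.1, b3.2, b4.1, b4.2, b5.1, b5.2, b6.1, b6.2]
    have hkr : (k : ℝ) = ((v1 : ℝ) + v2 + v3) - (w1 + w2 + w3) := by
      rw [hk]; push_cast; ring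
    have hfreq : fr m d (v1, v2, v3) - fr m d (w1, w2, w3) = (M * k - Φ) / M ^ 2 := by
      unfold fr
      simp only
      rw [fr_eq hm hd, fr_eq hm hd, fr_eq hm hd, fr_eq hm hd, fr_eq hm hd, fr_eq hm hd, ← hMdef, hkr,
        hΦ]
      field_simp
      ring
    have hmain : |M * k - Φ| ≤ 1 := by
      rw [hfreq, abs_div, abs_of_pos (by positivity : (0 : ℝ) < M ^ 2), div_le_iff₀ (by positivity)]
        at hfr
      refine hfr.trans ?_
      rw [one_div, inv_mul_le_iff₀ hT0, mul_one]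
      exact hT
    have hmain' := abs_le.mp hmain
    have hΦ' := abs_le.mp hΦb
    have hH2 : (1 : ℝ) ≤ (H : ℝ) ^ 2 := one_le_pow₀ hH0
    have hkb : |(k : ℝ)| ≤ 7 * (d : ℝ) * H ^ 2 / m := by
      have h1 : |M * (k : ℝ)| ≤ 7 * (H : ℝ) ^ 2 := by
        rw [abs_le]
        constructor <;> linarith
      rw [abs_mul, abs_of_pos hM, hMdef] at h1
      rw [le_div_iff₀ hm0]
      have h2 : (m : ℝ) / d * |(k : ℝ)| * d = |(k : ℝ)| * m := by
        field_simp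
      rw [← h2]
      calc (m : ℝ) / d * |(k : ℝ)| * d ≤ 7 * (H : ℝ) ^ 2 * d :=
            mul_le_mul_of_nonneg_right h1 hd0.le
        _ = _ := by ring
    have hkn : |k| ≤ (Kn : ℤ) := by
      have h1 : (|k|.toNat : ℝ) ≤ 7 * (d : ℝ) * H ^ 2 / m := by
        have h2 : ((|k|.toNat : ℤ) : ℝ) = |(k : ℝ)| := by
          rw [Int.toNat_of_nonneg (abs_nonneg k), Int.cast_abs]
        have h3 : (|k|.toNat : ℝ) = ((|k|.toNat : ℤ) : ℝ) := by push_cast; rfl
        rw [h3, h2]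
        exact hkb
      have h2 : |k|.toNat ≤ Kn := by
        rw [hKn]
        exact Nat.le_floor h1
      omega
    have heb : |(e : ℝ) - Φ| < 3 := by
      rw [he, hΦ]
      push_cast
      have := fun x => ps_le M x
      have := fun x => lt_ps M x
      have c1 := ps_le M v1
      have c2 := ps_le M v2
      have c3 := ps_le M v3
      have c4 := ps_le M w1
      have c5 := ps_le M w2
      have c6 := ps_le M w3
      have d1 := lt_ps M v1
      have d2 := lt_ps M v2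
      have d3 := lt_ps M v3
      have d4 := lt_ps M w1
      have d5 := lt_ps M w2
      have d6 := lt_ps M w3
      push_cast at c1 c2 c3 c4 c5 c6 d1 d2 d3 d4 d5 d6
      rw [abs_lt]
      constructor <;> linarith
    have heb' := abs_lt.mp heb
    show f (tr (v1, v2, v3)) - f (tr (w1, w2, w3)) ∈ E
    rw [hfe, hE, Finset.mem_image]
    refine ⟨(k, e - ⌊M * k⌋), ?_, ?_⟩
    · rw [Finset.mem_product, Finset.mem_Icc, Finset.mem_Icc]
      have h1 := Int.floor_le (M * (k : ℝ))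
      have h2 := Int.lt_floor_add_one (M * (k : ℝ))
      refine ⟨abs_le.mp hkn, ?_, ?_⟩
      · have h3 : ((-4 : ℤ) : ℝ) < ((e - ⌊M * (k : ℝ)⌋ : ℤ) : ℝ) := by
          push_cast
          linarith
        have h4 : (-4 : ℤ) < e - ⌊M * (k : ℝ)⌋ := by exact_mod_cast h3
        exact h4.le
      · have h3 : ((e - ⌊M * (k : ℝ)⌋ : ℤ) : ℝ) < ((5 : ℤ) : ℝ) := by
          push_cast
          linarith
        have h4 : e - ⌊M * (k : ℝ)⌋ < 5 := by exact_mod_cast h3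
        show e - ⌊M * (k : ℝ)⌋ ≤ 4
        omega
    · simp
  have hfib : ∀ c ∈ E, (P.filter fun p => f (tr p.1) - f (tr p.2) = c).card ≤
      cnt6 (Icc 0 B) (ps M) := by
    intro c _
    rw [← hcnt6]
    refine le_trans ?_ (shift_le Z f c)
    refine Finset.card_le_card_of_injOn (fun p => (tr p.1, tr p.2)) ?_ ?_
    · intro p hp
      rw [Finset.mem_coe, Finset.mem_filter, hP, Finset.mem_filter, Finset.mem_product] at hp
      rw [Finset.mem_coe, Finset.mem_filter, Finset.mem_product]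
      refine ⟨⟨htrZ _ hp.1.1.1, htrZ _ hp.1.1.2⟩, ?_⟩
      show f (tr p.1) = f (tr p.2) + c
      rw [← hp.2]
      abel
    · intro p _ p' _ h
      simp only [Prod.mk.injEq] at h
      exact Prod.ext (htrinj h.1) (htrinj h.2)
  have hfinal := Finset.card_le_mul_card_image_of_maps_to hmaps _ hfib
  have hfinal' : (P.card : ℝ) ≤ cnt6 (Icc 0 B) (ps M) * E.card := by exact_mod_cast hfinal
  have hpairs : (pairs (tri H) (fr m d) (1 / T) : ℝ) = P.card := by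
    rw [hP]
    rfl
  rw [hpairs]
  have hHp : (0 : ℝ) ≤ (H : ℝ) ^ (3 + ε) := by positivity
  calc (P.card : ℝ) ≤ cnt6 (Icc 0 B) (ps M) * E.card := hfinal'
    _ ≤ (C * (H : ℝ) ^ (3 + ε)) * (126 * (1 + d * (H : ℝ) ^ 2 / m)) :=
        mul_le_mul hc hEcard (Nat.cast_nonneg _) (by positivity)
    _ = _ := by ring

end Pool.Agent.K9h65.SM6
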