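import Mathlib

/-!
# Project SM6: large values of Dirichlet polynomials supported on `N^(3/5)` consecutive integers. Statements
-/

set_option autoImplicit false

open Finset

namespace Pool.Agent.K9h65.SM6

/-- `ψ : ℤ → ℤ` is convex like `x²` on `[A, B]`, with derivative `g`, up to bounded errors. -/
structure Good (K : ℝ) (ψ : ℤ → ℤ) (g : ℤ → ℝ) (A B : ℤ) : Prop where
  a1 : ∀ x y : ℤ, A ≤ x → x ≤ B → A ≤ y → y ≤ B →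
    |(ψ y : ℝ) - ψ x - g x * ((y : ℝ) - x)| ≤ K * (((y : ℝ) - x) ^ 2 + 1)
  a2 : ∀ (x x' y : ℤ) (d : ℝ), A ≤ x → x ≤ B → A ≤ x' → x' ≤ B → A ≤ y → y ≤ B → 0 ≤ d →
    (((y : ℝ) + d ≤ x ∧ (y : ℝ) + d ≤ x') ∨ ((x : ℝ) ≤ y - d ∧ (x' : ℝ) ≤ y - d)) →
    d * |(x : ℝ) - x'| ≤ K * (|(ψ x : ℝ) - ψ x' - g y * ((x : ℝ) - x')| + 1)

/-- the number of the solutions of `x₁ + x₂ + x₃ = x₄ + x₅ + x₆`, `ψ x₁ + ψ x₂ + ψ x₃ = ψ x₄ + ψ x₅ + ψ x₆` -/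
def cnt6 (X : Finset ℤ) (ψ : ℤ → ℤ) : ℕ :=
  (((X ×ˢ X ×ˢ X) ×ˢ (X ×ˢ X ×ˢ X)).filter fun v : (ℤ × ℤ × ℤ) × (ℤ × ℤ × ℤ) =>
    v.1.1 + v.1.2.1 + v.1.2.2 = v.2.1 + v.2.2.1 + v.2.2.2 ∧
    ψ v.1.1 + ψ v.1.2.1 + ψ v.1.2.2 = ψ v.2.1 + ψ v.2.2.1 + ψ v.2.2.2).card

/-- Sixth moment: efficient congruencing (from `S_REAL` and `S_FOU` below, helper65). -/
def S_A : Prop := ∀ K ε : ℝ, 0 < ε → ∃ C : ℝ, 0 < C ∧ ∀ (ψ : ℤ → ℤ) (g : ℤ → ℝ) (A B : ℤ), A ≤ B →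
  Good K ψ g A B → (cnt6 (Icc A B) ψ : ℝ) ≤ C * ((B : ℝ) - A + 1) ^ (3 + ε)

/-- diameter at most `l` -/
def Di (X : Finset ℤ) (l : ℝ) : Prop := ∀ x ∈ X, ∀ y ∈ X, (x : ℝ) - y ≤ l

/-- `X` lies on one side of `Y`, at distance at least `d` -/
def Se (X Y : Finset ℤ) (d : ℝ) : Prop :=
  (∀ x ∈ X, ∀ y ∈ Y, (y : ℝ) + d ≤ x) ∨ (∀ x ∈ X, ∀ y ∈ Y, (x : ℝ) ≤ y - d)

/-- the properties of `M X Y = ∑_p ‖F_X(p)‖² ‖F_Y(p)‖⁴` used in the induction -/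
structure Sys (κ : ℝ) (U : Finset ℤ) (M : Finset ℤ → Finset ℤ → ℝ) : Prop where
  nonneg : ∀ X Y, 0 ≤ M X Y
  triv : ∀ X ⊆ U, ∀ Y ⊆ U, ∀ l : ℝ, 1 ≤ l → Di X l → Di Y l → M X Y ≤ (2 * l) ^ 6
  cs : ∀ X ⊆ U, ∀ Y ⊆ U, M X Y ^ 2 ≤ M Y X * M Y Y
  hold : ∀ X ⊆ U, ∀ Y ⊆ U, M X Y ^ 3 ≤ M X X * M Y Y ^ 2
  cong : ∀ X ⊆ U, ∀ Y ⊆ U, ∀ d l lam m β : ℝ, 0 < d → 0 ≤ l → 0 < lam → 1 ≤ m → κ * m ^ 2 / d ≤ lam →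
    Se X Y d → Di X l → Di Y m → (∀ X' ⊆ X, Di X' lam → M X' Y ≤ β) → M X Y ≤ 3 * (l / lam + 1) * β
  split : ∀ X ⊆ U, ∀ Y ⊆ U, ∀ d q β : ℝ, 0 < d → 1 ≤ q → Di Y d → (∀ Y' ⊆ Y, Di Y' (d / q) → M X Y' ≤ β) →
    M X Y ≤ (2 * q) ^ 4 * β
  bn : ∀ X ⊆ U, ∀ l β₁ β₂ : ℝ, 0 < l → Di X l → (∀ X' ⊆ X, Di X' (l / 127) → M X' X' ≤ β₁) →
    (∀ X' ⊆ X, ∀ X'' ⊆ X, Di X' (l / 127) → Di X'' (l / 127) → Se X' X'' (l / 127) → M X' X'' ≤ β₂) →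
    M X X ≤ 4 ^ 6 * 128 * β₁ + 128 ^ 10 * β₂

/-- Leaf REAL (pure real analysis). Proof. Fix `κ ≥ 1`. Say `Hyp η A0`: for all `X ⊆ U`, `l ≥ 1`, `Di X l`:
`M X X ≤ A0 l^(3+η)` (`A0 ≥ 1`, `0 ≤ η ≤ 3`).

(1) Claim `C_n`: there is `Γ = Γ(n, κ) ≥ 1` such that for every system with `Hyp η A0` and all reals `q ≥ κ`, `d`, `l`
with `q^(2^n) ≤ d`, `1 ≤ l ≤ d` and all `X, Y` with `Se X Y d`, `Di Y (d/q)`, `Di X l`: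
`M X Y ≤ Γ A0 (l + κ d/q²) (d/q)² d^η q^(-nη/2)`.
`n = 0`: `lam = max (κ d/q²) 1 ≤ d`, `cong` with `m = d/q`, and for the pieces `hold`:
`M X' Y ≤ A0 lam^(1+η/3) (d/q)^(2+2η/3)`; `(l/lam + 1) lam ≤ l + lam ≤ 2l + κ d/q²`; `lam^(η/3) (d/q)^(2η/3) ≤ d^η`.
Step `n → n+1` (`q^(2^(n+1)) ≤ d`): `lam = κ d/q²` (`≥ κ ≥ 1` as `q² ≤ d`), `cong` with `m = d/q`; for a piece `X'` use `cs`: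
`M X' Y² ≤ M Y X' · M Y Y`, `M Y Y ≤ A0 (d/q)^(3+η)` and `C_n` for `M Y X'` with `q' = q²/κ ≥ κ` (as `lam = d/q'`;
`q'^(2^n) ≤ q^(2^(n+1)) ≤ d`) and `l' = d/q`: `M Y X' ≤ Γ A0 (d/q + κ d/q'²)(d/q')² d^η q'^(-nη/2)`, where
`κ d/q'² = κ³ d/q⁴ ≤ d/q`. So `M X' Y ≤ (2 Γ κ^(nη/2))^(1/2) A0 (d/q)² lam d^η q^(-(n+1)η/2)`, and `(l/lam+1) lam = l + lam`.

(2) If `nη/2 ≥ 4`, `δ = 2^(1-n)`: `M X Y ≤ C A0 d^(3+η-δ)` for all `d ≥ 1`, `Se X Y d`, `Di X d`, `Di Y d`: for `d ≥ κ^(2^n)`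
use `split` with `q = d^(2^(-n))` and (1) (`(2q)^4 · 2 d · (d/q)² d^η q^(-4)`), else `triv`.

(3) (2) and `bn` (pieces `l/127`): `j(l) ≤ 4^6·128·j(l/127) + 128^10 C A0 (l/127)^(3+η-δ)` for `l ≥ 127`, and
`4^6·128 ≤ 0.26·127³`: by induction on `k` for `l < 127^k` one gets `j(l) ≤ A1 l^(3+η-δ)` (if `η - δ ≥ 0`; small `l` by `triv`).

(4) start with `η = 3` (`triv`), `n = ⌈8/ε⌉`, and iterate (3) until `η ≤ ε`. -/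
def S_REAL : Prop := ∀ κ ε : ℝ, 1 ≤ κ → 0 < ε → ∃ C : ℝ, 0 < C ∧ ∀ (U : Finset ℤ) (M : Finset ℤ → Finset ℤ → ℝ),
  Sys κ U M → ∀ X ⊆ U, ∀ l : ℝ, 1 ≤ l → Di X l → M X X ≤ C * l ^ (3 + ε)

/-- Leaf FOU. Proof: `M X Y = Q⁻² ∑_{p ∈ (ℤ/Q)²} ‖F_X(p)‖² ‖F_Y(p)‖⁴` with
`F_X(p) = ∑_{x ∈ X} e((p₁ x + p₂ ψ x)/Q)` and `Q` large, so that `M X Y` counts the solutions. -/
def S_FOU : Prop := ∀ (K : ℝ) (ψ : ℤ → ℤ) (g : ℤ → ℝ) (A B : ℤ), 1 ≤ K → A ≤ B → Good K ψ g A B →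
  ∃ M : Finset ℤ → Finset ℤ → ℝ, Sys (9 * K ^ 2) (Icc A B) M ∧ (cnt6 (Icc A B) ψ : ℝ) ≤ M (Icc A B) (Icc A B)

/-- the frequency of a triple: `log ((m + d h₁) (m + d h₂) (m + d h₃))` -/
noncomputable def fr (m d : ℕ) (v : ℕ × ℕ × ℕ) : ℝ :=
  Real.log (m + d * v.1) + Real.log (m + d * v.2.1) + Real.log (m + d * v.2.2)

/-- the triples -/
def tri (H : ℕ) : Finset (ℕ × ℕ × ℕ) := range H ×ˢ range H ×ˢ range H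

/-- the number of the pairs with frequencies at distance at most `δ` -/
noncomputable def pairs {ι : Type} (S : Finset ι) (lam : ι → ℝ) (δ : ℝ) : ℕ :=
  ((S ×ˢ S).filter fun p : ι × ι => |lam p.1 - lam p.2| ≤ δ).card

/-- Leaf B: from `S_A` to products of three integers of a short progression. Prove `theorem sB : S_A → S_B`.
Proof. `φ(h) = (m/d)² (u - log(1+u))`, `u = d h/m ∈ [0,1]`, `ψ h = ⌊φ h⌋` (`h ∈ [0, H-1]` as an integer),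
`g h = (m/d) u/(1+u)`, `K = 8`. `Good 8 ψ g 0 (H-1)`: with `w = (v-u)/(1+u)` (`v = d y/m`, `u = d x/m`)
`φ y - φ x - g x (y-x) = (m/d)² (w - log(1+w)) ∈ [0, (m/d)² w²/(1+w)] ⊂ [0, 2 (y-x)²]` (from `log(1+w) ≥ w/(1+w)`),
which gives a1; a2: for `u ≥ u'` both `≥ u_y + δ`: `(u-u')/(1+u_y) - (log(1+u) - log(1+u')) ≥
(u-u')(1/(1+u_y) - 1/(1+u')) ≥ (u-u') δ/4`, and for both `≤ u_y - δ`: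
`(log(1+u) - log(1+u')) - (u-u')/(1+u_y) ≥ (u-u')(1/(1+u) - 1/(1+u_y)) ≥ (u-u') δ/4`.
Counting: `log(1+u) = u - (d/m)² φ(h)`; a pair `(v, v')` of triples with `|fr - fr'| ≤ 1/T ≤ (d/m)²` has
`|(m/d) k - (∑φ - ∑φ')| ≤ 1` with `k = ∑h - ∑h'`; as `0 ≤ φ h ≤ h²/2` this gives `|k| ≤ (d/m)(1 + 3H²/2)`, and
`e = ∑ψ - ∑ψ'` lies within `4` of `(m/d) k`: at most `9` values for each `k`. For each `(k, e)` the number of the pairs is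
at most `cnt6` (representation numbers: `∑ r(s+k,t+e) r(s,t) ≤ ∑ r²`, by `2xy ≤ x²+y²`, or by Cauchy-Schwarz/injection). -/
def S_B : Prop := ∀ ε : ℝ, 0 < ε → ∃ C : ℝ, 0 < C ∧ ∀ (m d H : ℕ) (T : ℝ), 1 ≤ m → 1 ≤ d → 1 ≤ H →
  d * (H - 1) ≤ m → ((m : ℝ) / d) ^ 2 ≤ T →
  (pairs (tri H) (fr m d) (1 / T) : ℝ) ≤ C * (1 + d * (H : ℝ) ^ 2 / m) * (H : ℝ) ^ (3 + ε)

/-- Leaf C: mean values of exponential sums with arbitrary frequencies at `1`-separated points.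
Proof. Subtract `lam₀ = min lam` (the norm does not change), so `0 ≤ lam i ≤ 3`. Put `b i = ⌊T lam i⌋ ∈ [0, 3T]`,
`θ i = T lam i - b i ∈ [0,1)`. `exp(-i t lam) = e^{-i t b/T} ∑_r (-i t/T)^r θ^r / r!`, `|t/T| ≤ 1`, so
`|D(t)| ≤ ∑_r |D_r(t)|/r!`, `D_r(t) = ∑_b a_{b,r} e^{-i t b/T}`, `a_{b,r} = ∑_{i in bin b} c_i θ_i^r`, `|a_{b,r}| ≤ n_b`
(number of `i` in bin `b`); by Cauchy-Schwarz `|D|² ≤ e ∑_r |D_r|²/r!` (or use any other way, e.g. an integral over `s ∈ [0,1]`: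
`e^{-iθτ} = 1 - iτ ∫_0^1 1_{s<θ} e^{-isτ} ds`). Large sieve `Pool.Agent.Helper112.ls_general`
(`Pool/Agent/Helper112/LS.lean`) with `ξ_t = - t/(2πT)` (separation mod 1 at least `1/(2πT)`, `K = ⌈2πT⌉ ≤ 8T`; `|ξ| ≤ 1/6`):
`∑_t |D_r(t)|² ≤ 6 (3T + 2 + K) ∑ n_b²` and `∑ n_b² ≤ pairs (1/T)`. -/
def S_C : Prop := ∃ C : ℝ, 0 < C ∧ ∀ (ι : Type) (S : Finset ι) (lam : ι → ℝ) (c : ι → ℂ) (T : ℝ) (W : Finset ℝ),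
  (∀ i ∈ S, ‖c i‖ ≤ 1) → (∀ i ∈ S, ∀ j ∈ S, |lam i - lam j| ≤ 3) → 1 ≤ T →
  (∀ t ∈ W, 0 ≤ t ∧ t ≤ T) → (∀ t ∈ W, ∀ u ∈ W, t ≠ u → 1 ≤ |t - u|) →
  ∑ t ∈ W, ‖∑ i ∈ S, c i * Complex.exp (-(Complex.I * (t : ℂ) * (lam i : ℂ)))‖ ^ 2 ≤
    C * T * pairs S lam (1 / T)

/-- `D(it) = ∑_{n ≤ N} a_n n^{-it}` -/
noncomputable def D (N : ℕ) (a : ℕ → ℂ) (t : ℝ) : ℂ :=
  ∑ n ∈ Icc 1 N, a n * Complex.exp (-(Complex.I * (t : ℂ) * (Real.log (n : ℝ) : ℂ)))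

/-- Final statement. Leaf D: prove `theorem sD : S_B → S_C → S_Final`.
Proof. Support: `m + d h`, `h < H` (replace `H` by the number of the terms `≤ N`: hypothesis `m + d (H-1) ≤ N` is assumed).
`D(t)³ = ∑_{v ∈ tri H} c_v e^{-it fr(v)}`, `c_v = a_{m+dh₁} a_{m+dh₂} a_{m+dh₃}`; frequencies within `3 log 2 ≤ 3`.
`S_C` with `T' = max T N²`: `R V⁶ ≤ C T' pairs(1/T')`, and `S_B` (with `ε₁ = ε/4`, say; `(m/d)² ≤ N² ≤ T'`,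
`d (H-1) ≤ N - m ≤ m`): `R V⁶ ≤ C T' (1 + d H²/m) H^(3+ε₁)`. If `R ≥ 1` then `V ≤ |D| ≤ H` (so `H² ≥ N T^ε ≥ N`), hence
`1 + dH²/m ≤ 1 + 2dH²/N ≤ 3 d H²/N` and `R V⁶ ≤ 3C T' d H^(5+ε₁)/N ≤ 3C N⁴ H^ε₁` by `d H⁵ T' ≤ N⁵`; `V⁴ ≥ N²` gives
`R ≤ 3C N² V⁻² H^ε₁`. Finally `H^ε₁ ≤ N^ε₁`: if `T ≥ N^(1/4)` then `N^ε₁ ≤ T^ε`; if `T < N^(1/4)` then
`R ≤ T + 1 ≤ 2 N^(1/4) ≤ 2 N²/V² ` since `V² ≤ H² ≤ N^(6/5)` (as `d H⁵ N² ≤ N⁵`). -/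
def S_Final : Prop := ∀ ε : ℝ, 0 < ε → ∃ C : ℝ, ∀ (N m d H : ℕ) (T V : ℝ) (a : ℕ → ℂ), 1 ≤ N → N ≤ 2 * m →
  1 ≤ d → 1 ≤ H → m + d * (H - 1) ≤ N → (d : ℝ) * (H : ℝ) ^ 5 * max T ((N : ℝ) ^ 2) ≤ (N : ℝ) ^ 5 → 1 ≤ T →
  0 < V → N * T ^ ε ≤ V ^ 2 → (∀ n, ‖a n‖ ≤ 1) → (∀ n ∈ Icc 1 N, a n ≠ 0 → ∃ h < H, n = m + d * h) →
  ∀ S : Finset ℝ, (∀ t ∈ S, 0 ≤ t ∧ t ≤ T) → (∀ t ∈ S, ∀ u ∈ S, t ≠ u → 1 ≤ |t - u|) →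
    (∀ t ∈ S, V ≤ ‖D N a t‖) → (S.card : ℝ) ≤ C * ((N : ℝ) ^ 2 / V ^ 2 * T ^ ε)

end Pool.Agent.K9h65.SM6
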