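import Mathlib
import Pool.Agent.K9h65.SM6.Stm
import Pool.Agent.Helper112.LS

/-!
# Project SM6, leaf C (helper64): mean values at separated points, arbitrary frequencies
-/

set_option autoImplicit false

open Finset

namespace Pool.Agent.K9h65.SM6

open Pool.Agent.Helper112 (ee lsSep ls_general)

lemma sC_K (T : ℝ) (hT : 1 ≤ T) : 6 * T ≤ 2 * Real.pi * T ∧ 2 * Real.pi * T ≤ (⌈2 * Real.pi * T⌉₊ : ℝ) ∧
    (⌈2 * Real.pi * T⌉₊ : ℝ) ≤ 8 * T ∧ 1 ≤ ⌈2 * Real.pi * T⌉₊ := by
  have hp := Real.pi_gt_three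
  have hp4 := Real.pi_lt_d2
  have h0 : 0 ≤ 2 * Real.pi * T := by positivity
  refine ⟨by nlinarith, Nat.le_ceil _, ?_, ?_⟩
  · have h1 := Nat.ceil_lt_add_one h0
    nlinarith
  · exact Nat.one_le_ceil_iff.mpr (by positivity)

lemma sC_sep (T : ℝ) (hT : 1 ≤ T) (t u : ℝ) (ht : 0 ≤ t ∧ t ≤ T) (hu : 0 ≤ u ∧ u ≤ T) (h : 1 ≤ |t - u|) :
    lsSep ⌈2 * Real.pi * T⌉₊ (-(u / (2 * Real.pi * T)) - -(t / (2 * Real.pi * T))) := by
  obtain ⟨h1, h2, h3, h4⟩ := sC_K T hT
  set K := ⌈2 * Real.pi * T⌉₊ with hK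
  have hp := Real.pi_gt_three
  have hQ : 0 < 2 * Real.pi * T := by positivity
  have hK0 : (0:ℝ) < K := by linarith
  have e : -(u / (2 * Real.pi * T)) - -(t / (2 * Real.pi * T)) = (t - u) / (2 * Real.pi * T) := by ring
  rw [e]
  have i1 : 1 / (K:ℝ) ≤ 1 / (2 * Real.pi * T) := one_div_le_one_div_of_le hQ h2
  have i2 : 1 / (K:ℝ) ≤ 1 / 6 := by
    refine one_div_le_one_div_of_le (by norm_num) ?_
    nlinarith
  have i3 : |t - u| / (2 * Real.pi * T) ≤ 1 / 6 := by
    rw [div_le_iff₀ hQ]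
    have : |t - u| ≤ T := by rw [abs_le]; constructor <;> linarith [ht.1, ht.2, hu.1, hu.2]
    nlinarith
  have i4 : 1 / (2 * Real.pi * T) ≤ |t - u| / (2 * Real.pi * T) := div_le_div_of_nonneg_right h hQ.le
  rcases lt_or_ge (t - u) 0 with hn | hn
  · rw [abs_of_neg hn] at i3 i4
    have hneg : -(t - u) / (2 * Real.pi * T) = - ((t - u) / (2 * Real.pi * T)) := by ring
    rw [hneg] at i3 i4
    have hpos : 0 < 1 / (2 * Real.pi * T) := by positivity
    have hf : Int.fract ((t - u) / (2 * Real.pi * T)) = (t - u) / (2 * Real.pi * T) + 1 := by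
      rw [Int.fract_eq_iff]
      exact ⟨by linarith, by linarith, ⟨-1, by push_cast; ring⟩⟩
    unfold lsSep
    rw [hf]
    constructor <;> linarith
  · rw [abs_of_nonneg hn] at i3 i4
    have hpos : 0 < 1 / (2 * Real.pi * T) := by positivity
    have hf : Int.fract ((t - u) / (2 * Real.pi * T)) = (t - u) / (2 * Real.pi * T) := by
      rw [Int.fract_eq_self]
      exact ⟨by linarith, by linarith⟩
    unfold lsSep
    rw [hf]
    constructor <;> linarith

/-- the large sieve for integer frequencies with multiplicities -/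
lemma sC_core {ι : Type} (S : Finset ι) (b : ι → ℕ) (N : ℕ) (hb : ∀ i ∈ S, 1 ≤ b i ∧ b i ≤ N)
    (w : ι → ℂ) (hw : ∀ i ∈ S, ‖w i‖ ≤ 1) (T : ℝ) (hT : 1 ≤ T) (hN : (N:ℝ) ≤ 7 * T) (W : Finset ℝ)
    (hW : ∀ t ∈ W, 0 ≤ t ∧ t ≤ T) (hW1 : ∀ t ∈ W, ∀ u ∈ W, t ≠ u → 1 ≤ |t - u|) :
    ∑ t ∈ W, ‖∑ i ∈ S, w i * ee (b i * (-(t / (2 * Real.pi * T))))‖ ^ 2 ≤
      90 * T * (((S ×ˢ S).filter fun p : ι × ι => b p.1 = b p.2).card : ℝ) := by
  classical
  obtain ⟨h1, h2, h3, h4⟩ := sC_K T hT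
  set K := ⌈2 * Real.pi * T⌉₊ with hK
  have hls := ls_general W (fun t => -(t / (2 * Real.pi * T))) K N h4
    (fun t ht u hu htu => sC_sep T hT t u (hW t ht) (hW u hu) (hW1 t ht u hu htu))
    (fun n => ∑ i ∈ S.filter (fun i => b i = n), w i)
  have e1 : ∀ t : ℝ, ∑ n ∈ Icc 1 N, (∑ i ∈ S.filter (fun i => b i = n), w i) *
      ee (n * (-(t / (2 * Real.pi * T)))) = ∑ i ∈ S, w i * ee (b i * (-(t / (2 * Real.pi * T)))) := by
    intro t
    rw [← Finset.sum_fiberwise_of_maps_to (s := S) (t := Icc 1 N) (g := b)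
      (fun i hi => Finset.mem_Icc.mpr (hb i hi))]
    refine Finset.sum_congr rfl fun n _ => ?_
    rw [Finset.sum_mul]
    refine Finset.sum_congr rfl fun i hi => ?_
    rw [(Finset.mem_filter.mp hi).2]
  simp only [e1] at hls
  refine hls.trans ?_
  have e2 : ∑ n ∈ Icc 1 N, ‖∑ i ∈ S.filter (fun i => b i = n), w i‖ ^ 2 ≤
      (((S ×ˢ S).filter fun p : ι × ι => b p.1 = b p.2).card : ℝ) := by
    rw [Finset.card_eq_sum_card_fiberwise (s := (S ×ˢ S).filter fun p : ι × ι => b p.1 = b p.2)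
      (t := Icc 1 N) (f := fun p => b p.1)
      (fun p hp => by
        have hp' := (Finset.mem_filter.mp (Finset.mem_coe.mp hp)).1
        exact Finset.mem_coe.mpr (Finset.mem_Icc.mpr (hb p.1 (Finset.mem_product.mp hp').1)))]
    push_cast
    refine Finset.sum_le_sum fun n _ => ?_
    have h5 : ‖∑ i ∈ S.filter (fun i => b i = n), w i‖ ≤ ((S.filter (fun i => b i = n)).card : ℝ) := by
      refine (norm_sum_le _ _).trans ?_
      refine (Finset.sum_le_sum (fun i hi => hw i (Finset.mem_filter.mp hi).1)).trans ?_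
      simp
    have h6 : ((S.filter (fun i => b i = n)) ×ˢ (S.filter (fun i => b i = n))).card ≤
        (((S ×ˢ S).filter fun p : ι × ι => b p.1 = b p.2).filter (fun p => b p.1 = n)).card := by
      refine Finset.card_le_card ?_
      intro p hp
      simp only [Finset.mem_product, Finset.mem_filter] at hp ⊢
      obtain ⟨⟨a1, a2⟩, a3, a4⟩ := hp
      exact ⟨⟨⟨a1, a3⟩, a2.trans a4.symm⟩, a2⟩
    rw [Finset.card_product] at h6
    calc ‖∑ i ∈ S.filter (fun i => b i = n), w i‖ ^ 2 ≤ ((S.filter (fun i => b i = n)).card : ℝ) ^ 2 :=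
          pow_le_pow_left₀ (norm_nonneg _) h5 2
      _ = (((S.filter (fun i => b i = n)).card * (S.filter (fun i => b i = n)).card : ℕ) : ℝ) := by
          push_cast; ring
      _ ≤ _ := by exact_mod_cast h6
  calc 6 * ((N:ℝ) + K) * ∑ n ∈ Icc 1 N, ‖∑ i ∈ S.filter (fun i => b i = n), w i‖ ^ 2
      ≤ (90 * T) * ∑ n ∈ Icc 1 N, ‖∑ i ∈ S.filter (fun i => b i = n), w i‖ ^ 2 := by
        refine mul_le_mul_of_nonneg_right ?_ (by positivity)
        linarith
    _ ≤ _ := mul_le_mul_of_nonneg_left e2 (by positivity)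

lemma sC_norm_exp (t : ℝ) (x : ℝ) : ‖Complex.exp (-(Complex.I * (t : ℂ) * (x : ℂ)))‖ = 1 := by
  rw [Complex.norm_exp]
  simp

theorem sC : S_C := by
  refine ⟨90 * Real.exp 1 ^ 2, by positivity, ?_⟩
  intro ι S lam c T W hc hl hT hW hW1
  have hT0 : 0 < T := by linarith
  rcases S.eq_empty_or_nonempty with hS | ⟨i0, hi0⟩
  · subst hS
    simp only [Finset.sum_empty, norm_zero]
    have : (0:ℝ) ≤ 90 * Real.exp 1 ^ 2 * T * (pairs (∅ : Finset ι) lam (1 / T) : ℝ) := by positivity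
    refine le_trans (le_of_eq ?_) this
    simp
  set s0 : ℝ := lam i0 - 3 - 1 / T with hs0
  set mu : ι → ℝ := fun i => lam i - s0 with hmu
  set b : ι → ℕ := fun i => ⌊T * mu i⌋₊ with hb
  set th : ι → ℝ := fun i => T * mu i - b i with hth
  set N : ℕ := ⌊6 * T + 1⌋₊ with hN
  have hTT : T * (1 / T) = 1 := by field_simp
  have hlow : ∀ i ∈ S, 1 ≤ T * mu i := by
    intro i hi
    have h := (abs_le.mp (hl i hi i0 hi0)).1
    have : 1 / T ≤ mu i := by simp only [hmu, hs0]; linarith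
    calc (1:ℝ) = T * (1 / T) := hTT.symm
      _ ≤ T * mu i := mul_le_mul_of_nonneg_left this hT0.le
  have hup : ∀ i ∈ S, T * mu i ≤ 6 * T + 1 := by
    intro i hi
    have h := (abs_le.mp (hl i hi i0 hi0)).2
    have : mu i ≤ 6 + 1 / T := by simp only [hmu, hs0]; linarith
    calc T * mu i ≤ T * (6 + 1 / T) := mul_le_mul_of_nonneg_left this hT0.le
      _ = 6 * T + 1 := by rw [mul_add, hTT]; ring
  have hb1 : ∀ i ∈ S, 1 ≤ b i ∧ b i ≤ N := by
    intro i hi
    refine ⟨Nat.le_floor (by simpa using hlow i hi), Nat.floor_mono (hup i hi)⟩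
  have hth0 : ∀ i ∈ S, 0 ≤ th i ∧ th i ≤ 1 := by
    intro i hi
    have h1 := Nat.floor_le (by linarith [hlow i hi] : 0 ≤ T * mu i)
    have h2 := (Nat.lt_floor_add_one (T * mu i)).le
    simp only [hth, hb]
    constructor <;> linarith
  have hN7 : (N:ℝ) ≤ 7 * T := by
    have := Nat.floor_le (by positivity : (0:ℝ) ≤ 6 * T + 1)
    linarith
  -- the pairs
  have hpairs : (((S ×ˢ S).filter fun p : ι × ι => b p.1 = b p.2).card : ℝ) ≤ pairs S lam (1 / T) := by
    unfold pairs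
    have : ((S ×ˢ S).filter fun p : ι × ι => b p.1 = b p.2).card ≤
        ((S ×ˢ S).filter fun p : ι × ι => |lam p.1 - lam p.2| ≤ 1 / T).card := by
      refine Finset.card_le_card ?_
      intro p hp
      simp only [Finset.mem_filter, Finset.mem_product] at hp ⊢
      obtain ⟨⟨hp1, hp2⟩, hp3⟩ := hp
      refine ⟨⟨hp1, hp2⟩, ?_⟩
      have a1 := hth0 p.1 hp1
      have a2 := hth0 p.2 hp2
      have a3 : T * (lam p.1 - lam p.2) = th p.1 - th p.2 := by
        simp only [hth, hmu]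
        rw [hp3]
        ring
      have a4 : |T * (lam p.1 - lam p.2)| ≤ 1 := by
        rw [a3, abs_le]
        constructor <;> linarith [a1.1, a1.2, a2.1, a2.2]
      rw [abs_mul, abs_of_pos hT0] at a4
      rw [le_div_iff₀ hT0, mul_comm]
      exact a4
    exact_mod_cast this
  set P : ℝ := (pairs S lam (1 / T) : ℝ) with hP
  have hP0 : 0 ≤ P := by rw [hP]; positivity
  -- the reduced sums
  set G : ℝ → ℂ := fun t => ∑ i ∈ S, c i * ee (b i * (-(t / (2 * Real.pi * T)))) *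
    Complex.exp (-(Complex.I * (t / T : ℝ)) * (th i : ℂ)) with hG
  have hGn : ∀ t : ℝ, ‖∑ i ∈ S, c i * Complex.exp (-(Complex.I * (t : ℂ) * (lam i : ℂ)))‖ = ‖G t‖ := by
    intro t
    have : ∑ i ∈ S, c i * Complex.exp (-(Complex.I * (t : ℂ) * (lam i : ℂ))) =
        Complex.exp (-(Complex.I * (t : ℂ) * (s0 : ℂ))) * G t := by
      simp only [hG]
      rw [Finset.mul_sum]
      refine Finset.sum_congr rfl fun i _ => ?_
      have : Complex.exp (-(Complex.I * (t : ℂ) * (lam i : ℂ))) =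
          Complex.exp (-(Complex.I * (t : ℂ) * (s0 : ℂ))) * (ee (b i * (-(t / (2 * Real.pi * T)))) *
          Complex.exp (-(Complex.I * (t / T : ℝ)) * (th i : ℂ))) := by
        unfold ee
        rw [← Complex.exp_add, ← Complex.exp_add]
        congr 1
        have hlam : lam i = s0 + (b i + th i) / T := by
          simp only [hth, hmu]
          field_simp
          ring
        rw [hlam]
        have hpi : (Real.pi : ℂ) ≠ 0 := by exact_mod_cast Real.pi_ne_zero
        have hTc : (T : ℂ) ≠ 0 := by exact_mod_cast hT0.ne'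
        push_cast
        field_simp
        ring
      rw [this]
      ring
    rw [this, norm_mul, sC_norm_exp, one_mul]
  simp only [hGn]
  -- Taylor
  set Dr : ℕ → ℝ → ℂ := fun r t => ∑ i ∈ S, (c i * (th i : ℂ) ^ r) * ee (b i * (-(t / (2 * Real.pi * T)))) with hDr
  have hDrb : ∀ r, ∑ t ∈ W, ‖Dr r t‖ ^ 2 ≤ 90 * T * P := by
    intro r
    refine (sC_core S b N hb1 (fun i => c i * (th i : ℂ) ^ r) ?_ T hT hN7 W hW hW1).trans
      (mul_le_mul_of_nonneg_left hpairs (by positivity))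
    intro i hi
    rw [norm_mul, norm_pow, Complex.norm_real, Real.norm_eq_abs, abs_of_nonneg (hth0 i hi).1]
    exact mul_le_one₀ (hc i hi) (pow_nonneg (hth0 i hi).1 _) (pow_le_one₀ (hth0 i hi).1 (hth0 i hi).2)
  set z : ℝ → ℂ := fun t => -(Complex.I * (t / T : ℝ)) with hz
  have hz1 : ∀ t ∈ W, ‖z t‖ ≤ 1 := by
    intro t ht
    simp only [hz]
    rw [norm_neg, norm_mul, Complex.norm_I, one_mul, Complex.norm_real, Real.norm_eq_abs,
      abs_of_nonneg (div_nonneg (hW t ht).1 hT0.le), div_le_one hT0]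
    exact (hW t ht).2
  have hsumG : ∀ t, HasSum (fun r : ℕ => z t ^ r / (r.factorial : ℂ) * Dr r t) (G t) := by
    intro t
    have h1 : ∀ i ∈ S, HasSum (fun r : ℕ => c i * ee (b i * (-(t / (2 * Real.pi * T)))) *
        ((z t * (th i : ℂ)) ^ r / (r.factorial : ℂ)))
        (c i * ee (b i * (-(t / (2 * Real.pi * T)))) * Complex.exp (z t * (th i : ℂ))) := by
      intro i _
      refine HasSum.mul_left _ ?_
      rw [Complex.exp_eq_exp_ℂ]
      exact NormedSpace.expSeries_div_hasSum_exp _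
    have h2 := hasSum_sum h1
    refine (h2.congr_fun ?_)
    intro r
    simp only [hDr]
    rw [Finset.mul_sum]
    refine Finset.sum_congr rfl fun i _ => ?_
    rw [mul_pow]
    ring
  set X : ℝ := ∑ t ∈ W, ‖G t‖ ^ 2 with hX
  have hX0 : 0 ≤ X := by positivity
  have hsumX : HasSum (fun r : ℕ => ∑ t ∈ W, (starRingEnd ℂ) (G t) * (z t ^ r / (r.factorial : ℂ) * Dr r t))
      (X : ℂ) := by
    have h2 := hasSum_sum (fun t (_ : t ∈ W) => (hsumG t).mul_left ((starRingEnd ℂ) (G t)))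
    have h3 : (X : ℂ) = ∑ t ∈ W, (starRingEnd ℂ) (G t) * G t := by
      rw [hX]
      push_cast
      refine Finset.sum_congr rfl fun t _ => ?_
      rw [← Complex.conj_mul']
    rw [h3]
    exact h2
  have hexp1 : HasSum (fun r : ℕ => (1:ℝ) ^ r / (r.factorial : ℝ)) (Real.exp 1) := by
    rw [Real.exp_eq_exp_ℝ]
    exact NormedSpace.expSeries_div_hasSum_exp _
  have hbound := hsumX.norm_le_of_bounded (hexp1.mul_right (√X * √(90 * T * P))) (by
    intro r
    have hr : (0:ℝ) < (r.factorial : ℝ) := by exact_mod_cast r.factorial_pos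
    have h1 : ‖∑ t ∈ W, (starRingEnd ℂ) (G t) * (z t ^ r / (r.factorial : ℂ) * Dr r t)‖ ≤
        ∑ t ∈ W, (1 / (r.factorial : ℝ)) * (‖G t‖ * ‖Dr r t‖) := by
      refine (norm_sum_le _ _).trans (Finset.sum_le_sum fun t ht => ?_)
      rw [norm_mul, RCLike.norm_conj, norm_mul, norm_div, norm_pow, Complex.norm_natCast]
      have h2 : ‖z t‖ ^ r / (r.factorial : ℝ) ≤ 1 / (r.factorial : ℝ) :=
        div_le_div_of_nonneg_right (pow_le_one₀ (norm_nonneg _) (hz1 t ht)) hr.le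
      calc ‖G t‖ * (‖z t‖ ^ r / (r.factorial : ℝ) * ‖Dr r t‖) =
            (‖z t‖ ^ r / (r.factorial : ℝ)) * (‖G t‖ * ‖Dr r t‖) := by ring
        _ ≤ _ := mul_le_mul_of_nonneg_right h2 (by positivity)
    refine h1.trans ?_
    rw [← Finset.mul_sum, one_pow]
    refine mul_le_mul_of_nonneg_left ?_ (by positivity)
    refine (Real.sum_mul_le_sqrt_mul_sqrt W _ _).trans ?_
    exact mul_le_mul_of_nonneg_left (Real.sqrt_le_sqrt (hDrb r)) (Real.sqrt_nonneg _))
  rw [Complex.norm_real, Real.norm_eq_abs, abs_of_nonneg hX0] at hbound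
  have hB0 : 0 ≤ 90 * T * P := by positivity
  have hfin : X ≤ Real.exp 1 ^ 2 * (90 * T * P) := by
    rcases hX0.eq_or_lt with h0 | h0
    · rw [← h0]; positivity
    · have hs : 0 < √X := Real.sqrt_pos.mpr h0
      have h3 : √X * √X ≤ √X * (Real.exp 1 * √(90 * T * P)) := by
        rw [Real.mul_self_sqrt hX0]
        calc X ≤ Real.exp 1 * (√X * √(90 * T * P)) := hbound
          _ = _ := by ring
      have h4 : √X ≤ Real.exp 1 * √(90 * T * P) := le_of_mul_le_mul_left h3 hs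
      calc X = √X ^ 2 := (Real.sq_sqrt hX0).symm
        _ ≤ (Real.exp 1 * √(90 * T * P)) ^ 2 := pow_le_pow_left₀ hs.le h4 2
        _ = _ := by rw [mul_pow, Real.sq_sqrt hB0]
  calc X ≤ Real.exp 1 ^ 2 * (90 * T * P) := hfin
    _ = _ := by ring

end Pool.Agent.K9h65.SM6
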