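import Pool.Agent.K9h65.SM6.Stm

/-!
# SM6, leaf D: the final deduction, for unions of progressions
-/

set_option autoImplicit false

open Finset

namespace Pool.Agent.K9h65.SM6

/-- the exponential sum over a progression -/
noncomputable def E1 (m d H : ℕ) (b : ℕ → ℂ) (t : ℝ) : ℂ :=
  ∑ h ∈ range H, b h * Complex.exp (-(Complex.I * (t : ℂ) * (Real.log (m + d * h) : ℂ)))

lemma E1_cube (m d H : ℕ) (b : ℕ → ℂ) (t : ℝ) :
    E1 m d H b t ^ 3 = ∑ v ∈ tri H, (b v.1 * (b v.2.1 * b v.2.2)) *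
      Complex.exp (-(Complex.I * (t : ℂ) * (fr m d v : ℂ))) := by
  have h1 : E1 m d H b t ^ 3 = E1 m d H b t * (E1 m d H b t * E1 m d H b t) := by ring
  rw [h1]
  unfold E1 tri
  rw [Finset.sum_mul_sum (range H) (range H), ← Finset.sum_product', Finset.sum_mul_sum, ← Finset.sum_product']
  refine Finset.sum_congr rfl fun v _ => ?_
  have h2 : Complex.exp (-(Complex.I * (t : ℂ) * (fr m d v : ℂ))) =
      Complex.exp (-(Complex.I * (t : ℂ) * (Real.log (m + d * v.1) : ℂ))) *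
      (Complex.exp (-(Complex.I * (t : ℂ) * (Real.log (m + d * v.2.1) : ℂ))) *
      Complex.exp (-(Complex.I * (t : ℂ) * (Real.log (m + d * v.2.2) : ℂ)))) := by
    rw [← Complex.exp_add, ← Complex.exp_add]
    congr 1
    unfold fr
    push_cast
    ring
  rw [h2]
  ring

lemma log_close {m d H h : ℕ} (hm : 1 ≤ m) (hd : d * (H - 1) ≤ m) (hh : h < H) :
    Real.log m ≤ Real.log (m + d * h) ∧ Real.log (m + d * h) ≤ Real.log m + 1 := by
  have hm0 : (0 : ℝ) < m := by exact_mod_cast hm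
  have h1 : d * h ≤ m := (Nat.mul_le_mul_left d (by omega)).trans hd
  have h2 : (d : ℝ) * h ≤ m := by exact_mod_cast h1
  have h3 : (0 : ℝ) ≤ (d : ℝ) * h := by positivity
  constructor
  · exact Real.log_le_log hm0 (by linarith)
  · have h4 : Real.log (m + d * h) ≤ Real.log (2 * m) := Real.log_le_log (by linarith) (by linarith)
    rw [Real.log_mul (by norm_num) hm0.ne'] at h4
    have := Real.log_two_lt_d9
    linarith

/-- the sixth moment over a progression -/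
theorem sixth (hB : S_B) (hC : S_C) (ε : ℝ) (hε : 0 < ε) : ∃ C : ℝ, 0 < C ∧
    ∀ (N m d H : ℕ) (T : ℝ) (b : ℕ → ℂ) (W : Finset ℝ), 1 ≤ m → 1 ≤ d → 1 ≤ H → d * (H - 1) ≤ m →
      m + d * (H - 1) ≤ N → (N : ℝ) ^ 2 ≤ T → (∀ h, ‖b h‖ ≤ 1) → (∀ t ∈ W, 0 ≤ t ∧ t ≤ T) →
      (∀ t ∈ W, ∀ u ∈ W, t ≠ u → 1 ≤ |t - u|) →
      ∑ t ∈ W, ‖E1 m d H b t‖ ^ 6 ≤ C * T * ((1 + d * (H : ℝ) ^ 2 / m) * (H : ℝ) ^ (3 + ε)) := by
  obtain ⟨CB, hCB, hB⟩ := hB ε hε
  obtain ⟨CC, hCC, hC⟩ := hC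
  refine ⟨CC * CB, by positivity, ?_⟩
  intro N m d H T b W hm hd hH hdH hmN hNT hb hW hsep
  have hN1 : (1 : ℝ) ≤ N := by
    have : 1 ≤ N := by omega
    exact_mod_cast this
  have hm1 : (1 : ℝ) ≤ m := by exact_mod_cast hm
  have hd1 : (1 : ℝ) ≤ d := by exact_mod_cast hd
  have hH1 : (1 : ℝ) ≤ H := by exact_mod_cast hH
  have hmN' : (m : ℝ) ≤ N := by
    have : m ≤ N := by omega
    exact_mod_cast this
  have hT1 : 1 ≤ T := by nlinarith
  have h1 := hC (ℕ × ℕ × ℕ) (tri H) (fr m d) (fun v => b v.1 * (b v.2.1 * b v.2.2)) T W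
    (by
      intro v _
      rw [norm_mul, norm_mul]
      have := hb v.1
      have := hb v.2.1
      have := hb v.2.2
      calc ‖b v.1‖ * (‖b v.2.1‖ * ‖b v.2.2‖) ≤ 1 * (1 * 1) := by gcongr
        _ = 1 := by ring)
    (by
      intro v hv w hw
      simp only [tri, mem_product, mem_range] at hv hw
      obtain ⟨a1, a2⟩ := log_close hm hdH hv.1
      obtain ⟨a3, a4⟩ := log_close hm hdH hv.2.1
      obtain ⟨a5, a6⟩ := log_close hm hdH hv.2.2
      obtain ⟨b1, b2⟩ := log_close hm hdH hw.1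
      obtain ⟨b3, b4⟩ := log_close hm hdH hw.2.1
      obtain ⟨b5, b6⟩ := log_close hm hdH hw.2.2
      unfold fr
      rw [abs_le]
      constructor <;> linarith) hT1 hW hsep
  have h2 : ∑ t ∈ W, ‖E1 m d H b t‖ ^ 6 ≤ CC * T * pairs (tri H) (fr m d) (1 / T) := by
    refine le_trans (le_of_eq ?_) h1
    refine Finset.sum_congr rfl fun t _ => ?_
    rw [← E1_cube, norm_pow]
    ring
  have h3 := hB m d H T hm hd hH hdH (by
    have : (m : ℝ) / d ≤ N := (div_le_self (by linarith) hd1).trans hmN'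
    calc ((m : ℝ) / d) ^ 2 ≤ (N : ℝ) ^ 2 := by gcongr
      _ ≤ T := hNT)
  have hHp : 0 < (H : ℝ) ^ (3 + ε) := Real.rpow_pos_of_pos (by linarith) _
  calc ∑ t ∈ W, ‖E1 m d H b t‖ ^ 6 ≤ CC * T * pairs (tri H) (fr m d) (1 / T) := h2
    _ ≤ CC * T * (CB * (1 + d * (H : ℝ) ^ 2 / m) * (H : ℝ) ^ (3 + ε)) := by gcongr
    _ = _ := by ring

lemma sep_card {T : ℝ} (hT : 0 ≤ T) {S : Finset ℝ} (hS : ∀ t ∈ S, 0 ≤ t ∧ t ≤ T)
    (hsep : ∀ t ∈ S, ∀ u ∈ S, t ≠ u → 1 ≤ |t - u|) : (S.card : ℝ) ≤ T + 1 := by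
  have h1 : S.card ≤ (range (⌊T⌋₊ + 1)).card := by
    apply Finset.card_le_card_of_injOn (fun t => ⌊t⌋₊)
    · intro t ht
      have := hS t ht
      simp only [Finset.coe_range, Set.mem_Iio]
      exact Nat.lt_succ_of_le (Nat.floor_le_floor this.2)
    · intro t ht u hu htu
      by_contra hne
      have h2 := hsep t ht u hu hne
      have h3 := hS t ht
      have h4 := hS u hu
      simp only at htu
      have h5 := Nat.floor_le h3.1
      have h6 := Nat.lt_floor_add_one t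
      have h7 := Nat.floor_le h4.1
      have h8 := Nat.lt_floor_add_one u
      rw [htu] at h5 h6
      have : |t - u| < 1 := by
        rw [abs_lt]
        constructor <;> linarith
      linarith
  rw [card_range] at h1
  have h2 : (S.card : ℝ) ≤ (⌊T⌋₊ : ℝ) + 1 := by exact_mod_cast h1
  have h3 := Nat.floor_le hT
  linarith

/-- splitting the coefficients over the progressions -/
lemma split_coeff (N : ℕ) (m d H : ℕ → ℕ) (J : Finset ℕ)
    (hJ : ∀ j ∈ J, 1 ≤ m j ∧ 1 ≤ d j ∧ m j + d j * (H j - 1) ≤ N) :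
    ∀ a : ℕ → ℂ, (∀ n, ‖a n‖ ≤ 1) → (∀ n ∈ Icc 1 N, a n ≠ 0 → ∃ j ∈ J, ∃ h < H j, n = m j + d j * h) →
      ∃ b : ℕ → ℕ → ℂ, (∀ j h, ‖b j h‖ ≤ 1) ∧ ∀ f : ℕ → ℂ,
        ∑ n ∈ Icc 1 N, a n * f n = ∑ j ∈ J, ∑ h ∈ range (H j), b j h * f (m j + d j * h) := by
  classical
  induction J using Finset.induction_on with
  | empty =>
    intro a ha hs
    refine ⟨fun _ _ => 0, by simp, ?_⟩
    intro f
    rw [Finset.sum_empty]
    refine Finset.sum_eq_zero fun n hn => ?_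
    by_cases h : a n = 0
    · rw [h, zero_mul]
    · obtain ⟨j, hj, _⟩ := hs n hn h
      simp at hj
  | insert j J hj ih =>
    intro a ha hs
    have ih' := ih (fun i hi => hJ i (mem_insert_of_mem hi))
    set P : Finset ℕ := (range (H j)).image (fun h => m j + d j * h) with hP
    obtain ⟨b, hb1, hb2⟩ := ih' (fun n => if n ∈ P then 0 else a n)
      (by
        intro n
        by_cases h : n ∈ P
        · simp [h]
        · simp only [h, if_false]; exact ha n)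
      (by
        intro n hn hne
        by_cases h : n ∈ P
        · simp [h] at hne
        · simp only [h, if_false] at hne
          obtain ⟨i, hi, h0, hh0, hn0⟩ := hs n hn hne
          rcases Finset.mem_insert.1 hi with hi | hi
          · exfalso
            apply h
            subst hi
            rw [hP, Finset.mem_image]
            exact ⟨h0, Finset.mem_range.2 hh0, hn0.symm⟩
          · exact ⟨i, hi, h0, hh0, hn0⟩)
    refine ⟨fun i h => if i = j then a (m j + d j * h) else b i h, ?_, ?_⟩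
    · intro i h
      by_cases hij : i = j
      · simp only [hij, if_true]; exact ha _
      · simp only [hij, if_false]; exact hb1 i h
    · intro f
      rw [Finset.sum_insert hj]
      have h1 : ∑ i ∈ J, ∑ h ∈ range (H i), (if i = j then a (m j + d j * h) else b i h) * f (m i + d i * h) =
          ∑ i ∈ J, ∑ h ∈ range (H i), b i h * f (m i + d i * h) := by
        refine Finset.sum_congr rfl fun i hi => ?_
        have hij : i ≠ j := fun h => hj (h ▸ hi)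
        simp only [hij, if_false]
      rw [h1, ← hb2 f]
      simp only [if_true]
      obtain ⟨hm1, hd1, hmN⟩ := hJ j (mem_insert_self _ _)
      have h2 : ∑ h ∈ range (H j), a (m j + d j * h) * f (m j + d j * h) = ∑ n ∈ P, a n * f n := by
        rw [hP, Finset.sum_image]
        intro x _ y _ hxy
        have : d j * x = d j * y := by simpa using hxy
        exact Nat.eq_of_mul_eq_mul_left (by omega) this
      have hPN : P ⊆ Icc 1 N := by
        intro n hn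
        rw [hP, Finset.mem_image] at hn
        obtain ⟨h, hh, rfl⟩ := hn
        rw [mem_range] at hh
        have : d j * h ≤ d j * (H j - 1) := Nat.mul_le_mul_left _ (by omega)
        rw [mem_Icc]
        omega
      rw [h2]
      have h3 : ∑ n ∈ P, a n * f n = ∑ n ∈ Icc 1 N, if n ∈ P then a n * f n else 0 := by
        rw [← Finset.sum_filter]
        congr 1
        ext n
        simp only [mem_filter]
        exact ⟨fun h => ⟨hPN h, h⟩, fun h => h.2⟩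
      rw [h3, ← Finset.sum_add_distrib]
      refine Finset.sum_congr rfl fun n _ => ?_
      by_cases h : n ∈ P
      · simp [h]
      · simp [h]

lemma inner_pow (J : Finset ℕ) (f : ℕ → ℝ → ℂ) (t : ℝ) :
    (∑ j ∈ J, ‖f j t‖) ^ 6 ≤ (J.card : ℝ) ^ 5 * ∑ j ∈ J, ‖f j t‖ ^ 6 :=
  pow_sum_le_card_mul_sum_pow (fun _ _ => norm_nonneg _) 5

lemma inner_pow3 (J : Finset ℕ) (f : ℕ → ℕ) :
    (∑ j ∈ J, (f j : ℝ)) ^ 3 ≤ (J.card : ℝ) ^ 2 * ∑ j ∈ J, (f j : ℝ) ^ 3 :=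
  pow_sum_le_card_mul_sum_pow (fun _ _ => Nat.cast_nonneg _) 2

/-- the final statement: unions of progressions and `N^(1/2)` further integers -/
def S_Final2 : Prop := ∀ ε L : ℝ, 0 < ε → 1 ≤ L → ∃ C : ℝ, ∀ (N : ℕ) (J : Finset ℕ) (m d H : ℕ → ℕ) (E : Finset ℕ) (T V : ℝ)
  (a : ℕ → ℂ), 1 ≤ N → (∀ j ∈ J, 1 ≤ m j ∧ 1 ≤ d j ∧ 1 ≤ H j ∧ d j * (H j - 1) ≤ m j ∧ m j + d j * (H j - 1) ≤ N) →
  (J.card : ℝ) ^ 5 * max T ((N : ℝ) ^ 2) * ∑ j ∈ J, (1 + d j * (H j : ℝ) ^ 2 / m j) * (H j : ℝ) ^ 3 ≤ L * (N : ℝ) ^ 4 →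
  (E.card : ℝ) ^ 2 ≤ N → 1 ≤ T → 0 < V → N * T ^ ε ≤ V ^ 2 → (∀ n, ‖a n‖ ≤ 1) →
  (∀ n ∈ Icc 1 N, a n ≠ 0 → n ∈ E ∨ ∃ j ∈ J, ∃ h < H j, n = m j + d j * h) →
  ∀ S : Finset ℝ, (∀ t ∈ S, 0 ≤ t ∧ t ≤ T) → (∀ t ∈ S, ∀ u ∈ S, t ≠ u → 1 ≤ |t - u|) →
    (∀ t ∈ S, V ≤ ‖D N a t‖) → (S.card : ℝ) ≤ C * ((N : ℝ) ^ 2 / V ^ 2 * T ^ ε)

lemma norm_e (a b : ℝ) : ‖Complex.exp (-(Complex.I * (a : ℂ) * (b : ℂ)))‖ = 1 := by
  rw [Complex.norm_exp]
  have : (-(Complex.I * (a : ℂ) * (b : ℂ))).re = 0 := by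
    simp [Complex.mul_re, Complex.mul_im]
  rw [this, Real.exp_zero]

lemma D_split (N : ℕ) (m d H : ℕ → ℕ) (J E : Finset ℕ)
    (hJ : ∀ j ∈ J, 1 ≤ m j ∧ 1 ≤ d j ∧ 1 ≤ H j ∧ d j * (H j - 1) ≤ m j ∧ m j + d j * (H j - 1) ≤ N) (a : ℕ → ℂ)
    (ha : ∀ n, ‖a n‖ ≤ 1)
    (hs : ∀ n ∈ Icc 1 N, a n ≠ 0 → n ∈ E ∨ ∃ j ∈ J, ∃ h < H j, n = m j + d j * h) :
    ∃ b : ℕ → ℕ → ℂ, (∀ j h, ‖b j h‖ ≤ 1) ∧ ∀ t : ℝ,
      ‖D N a t‖ ≤ E.card + ∑ j ∈ J, ‖E1 (m j) (d j) (H j) (b j) t‖ := by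
  classical
  obtain ⟨b, hb1, hb2⟩ := split_coeff N m d H J
    (fun j hj => by obtain ⟨h1, h2, _, _, h3⟩ := hJ j hj; exact ⟨h1, h2, h3⟩)
    (fun n => if n ∈ E then 0 else a n)
    (by
      intro n
      by_cases h : n ∈ E
      · simp [h]
      · simp only [h, if_false]; exact ha n)
    (by
      intro n hn hne
      by_cases h : n ∈ E
      · simp [h] at hne
      · simp only [h, if_false] at hne
        exact (hs n hn hne).resolve_left h)
  refine ⟨b, hb1, ?_⟩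
  intro t
  set f : ℕ → ℂ := fun n => Complex.exp (-(Complex.I * (t : ℂ) * (Real.log (n : ℝ) : ℂ))) with hf
  have hfn : ∀ n, ‖f n‖ = 1 := by
    intro n
    exact norm_e t _
  have h1 : D N a t = (∑ n ∈ Icc 1 N, (if n ∈ E then a n * f n else 0)) +
      ∑ n ∈ Icc 1 N, (if n ∈ E then 0 else a n) * f n := by
    unfold D
    rw [← Finset.sum_add_distrib]
    refine Finset.sum_congr rfl fun n _ => ?_
    by_cases h : n ∈ E
    · simp [h, hf]
    · simp [h, hf]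
  have h2 : ‖∑ n ∈ Icc 1 N, (if n ∈ E then a n * f n else 0)‖ ≤ E.card := by
    calc ‖∑ n ∈ Icc 1 N, (if n ∈ E then a n * f n else 0)‖
        ≤ ∑ n ∈ Icc 1 N, ‖(if n ∈ E then a n * f n else 0)‖ := norm_sum_le _ _
      _ ≤ ∑ n ∈ Icc 1 N, (if n ∈ E then (1 : ℝ) else 0) := by
          refine Finset.sum_le_sum fun n _ => ?_
          by_cases h : n ∈ E
          · simp only [h, if_true]
            rw [norm_mul, hfn, mul_one]
            exact ha n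
          · simp [h]
      _ = (((Icc 1 N).filter (fun n => n ∈ E)).card : ℝ) := by
          rw [← Finset.sum_filter, Finset.sum_const, nsmul_eq_mul, mul_one]
      _ ≤ E.card := by
          have : ((Icc 1 N).filter (fun n => n ∈ E)).card ≤ E.card :=
            Finset.card_le_card fun n hn => (Finset.mem_filter.1 hn).2
          exact_mod_cast this
  rw [h1, hb2 f]
  refine (norm_add_le _ _).trans (add_le_add h2 ?_)
  refine (norm_sum_le _ _).trans (le_of_eq ?_)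
  refine Finset.sum_congr rfl fun j _ => ?_
  congr 1
  unfold E1
  refine Finset.sum_congr rfl fun h _ => ?_
  rw [hf]
  simp only
  push_cast
  rfl

lemma E1_le (m d H : ℕ) (b : ℕ → ℂ) (hb : ∀ h, ‖b h‖ ≤ 1) (t : ℝ) : ‖E1 m d H b t‖ ≤ H := by
  unfold E1
  calc ‖∑ h ∈ range H, b h * Complex.exp (-(Complex.I * (t : ℂ) * (Real.log (m + d * h) : ℂ)))‖
      ≤ ∑ h ∈ range H, ‖b h * Complex.exp (-(Complex.I * (t : ℂ) * (Real.log (m + d * h) : ℂ)))‖ :=
        norm_sum_le _ _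
    _ ≤ ∑ h ∈ range H, (1 : ℝ) := by
        refine Finset.sum_le_sum fun h _ => ?_
        rw [norm_mul, norm_e, mul_one]
        exact hb h
    _ = H := by simp

theorem final2 (hB : S_B) (hC : S_C) : S_Final2 := by
  intro ε L hε hL
  obtain ⟨C0, hC0, h6⟩ := sixth hB hC (ε / 4) (by linarith)
  refine ⟨max (max ((4 : ℝ) ^ (1 / ε) + 1) (64 * C0 * L)) (8 * L ^ 2), ?_⟩
  intro N J m d H E T V a hN hJ hcond hE hT hV hVN ha hs S hS hsep hD
  set K : ℝ := max (max ((4 : ℝ) ^ (1 / ε) + 1) (64 * C0 * L)) (8 * L ^ 2) with hK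
  have hK1 : (4 : ℝ) ^ (1 / ε) + 1 ≤ K := (le_max_left _ _).trans (le_max_left _ _)
  have hK2 : 64 * C0 * L ≤ K := (le_max_right _ _).trans (le_max_left _ _)
  have hK3 : 8 * L ^ 2 ≤ K := le_max_right _ _
  have hN1 : (1 : ℝ) ≤ N := by exact_mod_cast hN
  have hN0 : (0 : ℝ) < N := by linarith
  have hTε : 1 ≤ T ^ ε := Real.one_le_rpow hT hε.le
  have hT0 : (0 : ℝ) < T := by linarith
  rcases S.eq_empty_or_nonempty with hSe | ⟨t0, ht0⟩
  · rw [hSe, card_empty, Nat.cast_zero]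
    positivity
  obtain ⟨b, hb1, hb2⟩ := D_split N m d H J E hJ a ha hs
  -- the bound V ≤ N
  have hDN : ‖D N a t0‖ ≤ N := by
    unfold D
    calc ‖∑ n ∈ Icc 1 N, a n * Complex.exp (-(Complex.I * (t0 : ℂ) * (Real.log (n : ℝ) : ℂ)))‖
        ≤ ∑ n ∈ Icc 1 N, ‖a n * Complex.exp (-(Complex.I * (t0 : ℂ) * (Real.log (n : ℝ) : ℂ)))‖ :=
          norm_sum_le _ _
      _ ≤ ∑ n ∈ Icc 1 N, (1 : ℝ) := by
          refine Finset.sum_le_sum fun n _ => ?_
          rw [norm_mul, norm_e, mul_one]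
          exact ha n
      _ = N := by simp
  have hVN' : V ≤ N := (hD t0 ht0).trans hDN
  have hNV : 1 ≤ (N : ℝ) ^ 2 / V ^ 2 := by
    rw [le_div_iff₀ (by positivity)]
    nlinarith
  have hcard := sep_card hT0.le hS hsep
  rcases lt_or_ge (T ^ ε) 4 with hc | hc
  · have h1 : T ≤ (4 : ℝ) ^ (1 / ε) := by
      have h2 : T = (T ^ ε) ^ (1 / ε) := by
        rw [← Real.rpow_mul hT0.le, mul_one_div_cancel hε.ne', Real.rpow_one]
      rw [h2]
      exact Real.rpow_le_rpow (by positivity) hc.le (by positivity)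
    calc (S.card : ℝ) ≤ K * (1 * 1) := by linarith
      _ ≤ K * ((N : ℝ) ^ 2 / V ^ 2 * T ^ ε) := by gcongr
  -- the sum over the progressions is at least V/2
  have hV4 : 4 * (N : ℝ) ≤ V ^ 2 := by nlinarith
  have hEV : (E.card : ℝ) ≤ V / 2 := by
    have : (E.card : ℝ) ^ 2 ≤ (V / 2) ^ 2 := by nlinarith
    exact le_of_pow_le_pow_left₀ (by norm_num) (by positivity) this
  have hbig : ∀ t ∈ S, V / 2 ≤ ∑ j ∈ J, ‖E1 (m j) (d j) (H j) (b j) t‖ := by
    intro t ht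
    have := hb2 t
    have := hD t ht
    linarith
  set T' : ℝ := max T ((N : ℝ) ^ 2) with hT'
  have hTT' : T ≤ T' := le_max_left _ _
  have hNT' : (N : ℝ) ^ 2 ≤ T' := le_max_right _ _
  have hT'0 : 0 < T' := by linarith
  -- every H j is at most N
  have hHN : ∀ j ∈ J, (1 : ℝ) ≤ H j ∧ (H j : ℝ) ≤ N := by
    intro j hj
    obtain ⟨h1, h2, h3, h3', h4⟩ := hJ j hj
    have h5 : (1 : ℝ) ≤ H j := by exact_mod_cast h3
    refine ⟨h5, ?_⟩
    have h6 : H j - 1 ≤ d j * (H j - 1) := Nat.le_mul_of_pos_left _ (by omega)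
    have h7 : H j ≤ N := by omega
    exact_mod_cast h7
  -- the sixth moment
  have hmain : (S.card : ℝ) * (V / 2) ^ 6 ≤ C0 * (N : ℝ) ^ (ε / 4) * (L * (N : ℝ) ^ 4) := by
    have hNε : 0 < (N : ℝ) ^ (ε / 4) := Real.rpow_pos_of_pos hN0 _
    calc (S.card : ℝ) * (V / 2) ^ 6 = ∑ t ∈ S, (V / 2) ^ 6 := by simp
      _ ≤ ∑ t ∈ S, (J.card : ℝ) ^ 5 * ∑ j ∈ J, ‖E1 (m j) (d j) (H j) (b j) t‖ ^ 6 := by
          refine Finset.sum_le_sum fun t ht => ?_
          calc (V / 2) ^ 6 ≤ (∑ j ∈ J, ‖E1 (m j) (d j) (H j) (b j) t‖) ^ 6 :=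
                pow_le_pow_left₀ (by positivity) (hbig t ht) 6
            _ ≤ (J.card : ℝ) ^ 5 * ∑ j ∈ J, ‖E1 (m j) (d j) (H j) (b j) t‖ ^ 6 :=
                inner_pow J (fun j t => E1 (m j) (d j) (H j) (b j) t) t
      _ = (J.card : ℝ) ^ 5 * ∑ j ∈ J, ∑ t ∈ S, ‖E1 (m j) (d j) (H j) (b j) t‖ ^ 6 := by
          rw [← Finset.mul_sum, Finset.sum_comm]
      _ ≤ (J.card : ℝ) ^ 5 * ∑ j ∈ J, C0 * T' * ((1 + d j * (H j : ℝ) ^ 2 / m j) *
            ((H j : ℝ) ^ 3 * (N : ℝ) ^ (ε / 4))) := by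
          apply mul_le_mul_of_nonneg_left _ (by positivity)
          refine Finset.sum_le_sum fun j hj => ?_
          obtain ⟨h1, h2, h3, h3', h4⟩ := hJ j hj
          have h5 := h6 N (m j) (d j) (H j) T' (b j) S h1 h2 h3 h3' h4 hNT' (hb1 j)
            (fun t ht => ⟨(hS t ht).1, (hS t ht).2.trans hTT'⟩) hsep
          refine h5.trans ?_
          obtain ⟨h7, h8⟩ := hHN j hj
          have h9 : (H j : ℝ) ^ (3 + ε / 4) ≤ (H j : ℝ) ^ 3 * (N : ℝ) ^ (ε / 4) := by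
            rw [Real.rpow_add (by linarith), show (3 : ℝ) = ((3 : ℕ) : ℝ) by norm_num, Real.rpow_natCast]
            apply mul_le_mul_of_nonneg_left _ (by positivity)
            exact Real.rpow_le_rpow (by linarith) h8 (by linarith)
          gcongr
      _ = C0 * (N : ℝ) ^ (ε / 4) * ((J.card : ℝ) ^ 5 * T' *
            ∑ j ∈ J, (1 + d j * (H j : ℝ) ^ 2 / m j) * (H j : ℝ) ^ 3) := by
          rw [Finset.mul_sum, Finset.mul_sum, Finset.mul_sum]
          refine Finset.sum_congr rfl fun j _ => ?_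
          ring
      _ ≤ _ := by gcongr
  have hNε : 0 < (N : ℝ) ^ (ε / 4) := Real.rpow_pos_of_pos hN0 _
  have hR : (S.card : ℝ) ≤ 64 * C0 * L * ((N : ℝ) ^ 2 / V ^ 2 * (N : ℝ) ^ (ε / 4)) := by
    have h1 : (N : ℝ) ^ 2 ≤ V ^ 4 := by
      have : (N : ℝ) ≤ V ^ 2 := by linarith
      calc (N : ℝ) ^ 2 ≤ (V ^ 2) ^ 2 := by gcongr
        _ = V ^ 4 := by ring
    have h2 : (S.card : ℝ) * V ^ 2 * (N : ℝ) ^ 2 ≤
        64 * C0 * L * (N : ℝ) ^ (ε / 4) * (N : ℝ) ^ 2 * (N : ℝ) ^ 2 := by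
      calc (S.card : ℝ) * V ^ 2 * (N : ℝ) ^ 2 ≤ (S.card : ℝ) * V ^ 2 * V ^ 4 := by gcongr
        _ = 64 * ((S.card : ℝ) * (V / 2) ^ 6) := by ring
        _ ≤ 64 * (C0 * (N : ℝ) ^ (ε / 4) * (L * (N : ℝ) ^ 4)) := by gcongr
        _ = _ := by ring
    have h3 := le_of_mul_le_mul_right h2 (by positivity)
    have h4 : (S.card : ℝ) ≤ 64 * C0 * L * (N : ℝ) ^ (ε / 4) * (N : ℝ) ^ 2 / V ^ 2 := by
      rw [le_div_iff₀ (by positivity)]
      exact h3
    refine h4.trans (le_of_eq ?_)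
    ring
  -- end
  set Z : ℝ := (N : ℝ) ^ (1 / 4 : ℝ) with hZ
  have hZ1 : 1 ≤ Z := Real.one_le_rpow hN1 (by norm_num)
  have hZ4 : Z ^ 4 = N := by
    rw [hZ, ← Real.rpow_natCast, ← Real.rpow_mul hN0.le]
    norm_num
  rcases le_or_gt Z T with hc2 | hc2
  · have h1 : (N : ℝ) ^ (ε / 4) ≤ T ^ ε := by
      have h2 : (N : ℝ) ^ (ε / 4) = Z ^ ε := by
        rw [hZ, ← Real.rpow_mul hN0.le]
        congr 1
        ring
      rw [h2]
      exact Real.rpow_le_rpow (by linarith) hc2 hε.le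
    calc (S.card : ℝ) ≤ 64 * C0 * L * ((N : ℝ) ^ 2 / V ^ 2 * (N : ℝ) ^ (ε / 4)) := hR
      _ ≤ K * ((N : ℝ) ^ 2 / V ^ 2 * T ^ ε) := by gcongr
  · have hVZ : V ≤ 2 * (L * Z ^ 3) := by
      have h1 := hb2 t0
      have h2 := hD t0 ht0
      have h3 : (E.card : ℝ) ≤ Z ^ 3 := by
        have : (E.card : ℝ) ^ 2 ≤ (Z ^ 3) ^ 2 := by
          calc (E.card : ℝ) ^ 2 ≤ N := hE
            _ = Z ^ 4 * 1 := by rw [hZ4, mul_one]
            _ ≤ Z ^ 4 * Z ^ 2 := by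
                have : 1 ≤ Z ^ 2 := one_le_pow₀ hZ1
                gcongr
            _ = (Z ^ 3) ^ 2 := by ring
        exact le_of_pow_le_pow_left₀ (by norm_num) (by positivity) this
      have h4 : ∑ j ∈ J, ‖E1 (m j) (d j) (H j) (b j) t0‖ ≤ ∑ j ∈ J, (H j : ℝ) :=
        Finset.sum_le_sum fun j _ => E1_le _ _ _ _ (hb1 j) _
      have h5 : (∑ j ∈ J, (H j : ℝ)) ^ 3 ≤ (L * Z ^ 3) ^ 3 := by
        rcases J.eq_empty_or_nonempty with hJe | hJn
        · rw [hJe]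
          simp
          positivity
        have hJ1 : (1 : ℝ) ≤ J.card := by exact_mod_cast hJn.card_pos
        have h6 : (J.card : ℝ) ^ 2 * ∑ j ∈ J, (H j : ℝ) ^ 3 ≤ L * (N : ℝ) ^ 2 := by
          have h7 : (N : ℝ) ^ 2 * ((J.card : ℝ) ^ 2 * ∑ j ∈ J, (H j : ℝ) ^ 3) ≤
              (N : ℝ) ^ 2 * (L * (N : ℝ) ^ 2) := by
            calc (N : ℝ) ^ 2 * ((J.card : ℝ) ^ 2 * ∑ j ∈ J, (H j : ℝ) ^ 3)
                = (J.card : ℝ) ^ 2 * (N : ℝ) ^ 2 * ∑ j ∈ J, 1 * (H j : ℝ) ^ 3 := by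
                  simp only [one_mul]; ring
              _ ≤ (J.card : ℝ) ^ 5 * T' * ∑ j ∈ J, (1 + d j * (H j : ℝ) ^ 2 / m j) * (H j : ℝ) ^ 3 := by
                  have h8 : (J.card : ℝ) ^ 2 ≤ (J.card : ℝ) ^ 5 := pow_le_pow_right₀ hJ1 (by norm_num)
                  gcongr with j hj
                  have : 0 ≤ (d j : ℝ) * (H j : ℝ) ^ 2 / m j := by positivity
                  linarith
              _ ≤ L * (N : ℝ) ^ 4 := hcond
              _ = _ := by ring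
          exact le_of_mul_le_mul_left h7 (by positivity)
        calc (∑ j ∈ J, (H j : ℝ)) ^ 3 ≤ (J.card : ℝ) ^ 2 * ∑ j ∈ J, (H j : ℝ) ^ 3 :=
              inner_pow3 J H
          _ ≤ L * (N : ℝ) ^ 2 := h6
          _ = L ^ 1 * (Z ^ 8 * 1) := by rw [← hZ4]; ring
          _ ≤ L ^ 3 * (Z ^ 8 * Z) := by
              have : L ^ 1 ≤ L ^ 3 := pow_le_pow_right₀ hL (by norm_num)
              gcongr
          _ = (L * Z ^ 3) ^ 3 := by ring
      have h6 : ∑ j ∈ J, (H j : ℝ) ≤ L * Z ^ 3 :=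
        le_of_pow_le_pow_left₀ (by norm_num) (by positivity) h5
      have h7 : Z ^ 3 ≤ L * Z ^ 3 := by
        have : 0 ≤ Z ^ 3 := by positivity
        nlinarith
      linarith
    have h1 : V ^ 2 ≤ 4 * L ^ 2 * Z ^ 6 := by
      calc V ^ 2 ≤ (2 * (L * Z ^ 3)) ^ 2 := by gcongr
        _ = _ := by ring
    have h2 : Z ^ 2 / (4 * L ^ 2) ≤ (N : ℝ) ^ 2 / V ^ 2 := by
      rw [div_le_div_iff₀ (by positivity) (by positivity), ← hZ4]
      calc Z ^ 2 * V ^ 2 ≤ Z ^ 2 * (4 * L ^ 2 * Z ^ 6) := by gcongr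
        _ = _ := by ring
    have h3 : Z ≤ Z ^ 2 := le_self_pow₀ hZ1 (by norm_num)
    calc (S.card : ℝ) ≤ T + 1 := hcard
      _ ≤ 2 * Z ^ 2 := by linarith
      _ = 8 * L ^ 2 * (Z ^ 2 / (4 * L ^ 2) * 1) := by
          field_simp
          ring
      _ ≤ K * ((N : ℝ) ^ 2 / V ^ 2 * T ^ ε) := by gcongr

/-- one progression -/
theorem single (h : S_Final2) (ε L : ℝ) (hε : 0 < ε) (hL : 1 ≤ L) : ∃ C : ℝ, ∀ (N m d H : ℕ) (T V : ℝ) (a : ℕ → ℂ),
    1 ≤ N → N ≤ 2 * m → 1 ≤ d → (d : ℝ) * (H : ℝ) ^ 5 * max T ((N : ℝ) ^ 2) ≤ L * (N : ℝ) ^ 5 → 1 ≤ T →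
    0 < V → N * T ^ ε ≤ V ^ 2 → (∀ n, ‖a n‖ ≤ 1) →
    (∀ n ∈ Icc 1 N, a n ≠ 0 → ∃ h < H, n = m + d * h) →
    ∀ S : Finset ℝ, (∀ t ∈ S, 0 ≤ t ∧ t ≤ T) → (∀ t ∈ S, ∀ u ∈ S, t ≠ u → 1 ≤ |t - u|) →
      (∀ t ∈ S, V ≤ ‖D N a t‖) → (S.card : ℝ) ≤ C * ((N : ℝ) ^ 2 / V ^ 2 * T ^ ε) := by
  obtain ⟨C, hC⟩ := h ε (3 * L) hε (by linarith)
  refine ⟨max C 0, ?_⟩
  intro N m d H T V a hN hNm hd hcond hT hV hVN ha hs S hS hsep hD
  have hN1 : (1 : ℝ) ≤ N := by exact_mod_cast hN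
  have hd1 : (1 : ℝ) ≤ d := by exact_mod_cast hd
  have hTε : 1 ≤ T ^ ε := Real.one_le_rpow hT hε.le
  rcases S.eq_empty_or_nonempty with hSe | ⟨t0, ht0⟩
  · rw [hSe, card_empty, Nat.cast_zero]
    positivity
  -- the number of the terms which are at most `N`
  set H' : ℕ := ((range H).filter (fun h => m + d * h ≤ N)).card with hH'
  have hH'H : H' ≤ H := by
    rw [hH']
    exact (Finset.card_filter_le _ _).trans (by simp)
  have hkey : ∀ h < H, m + d * h ≤ N → h < H' := by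
    intro h hh hle
    have h1 : range (h + 1) ⊆ (range H).filter (fun h => m + d * h ≤ N) := by
      intro i hi
      rw [mem_range] at hi
      rw [mem_filter, mem_range]
      refine ⟨by omega, ?_⟩
      have : d * i ≤ d * h := Nat.mul_le_mul_left _ (by omega)
      omega
    have h2 := Finset.card_le_card h1
    rw [card_range] at h2
    omega
  have hkey2 : ∀ h < H', m + d * h ≤ N := by
    intro h hh
    by_contra hc
    have h1 : (range H).filter (fun h => m + d * h ≤ N) ⊆ range h := by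
      intro i hi
      rw [mem_filter, mem_range] at hi
      rw [mem_range]
      by_contra hc2
      have : d * h ≤ d * i := Nat.mul_le_mul_left _ (by omega)
      omega
    have h2 := Finset.card_le_card h1
    rw [card_range] at h2
    omega
  have hs' : ∀ n ∈ Icc 1 N, a n ≠ 0 → ∃ h < H', n = m + d * h := by
    intro n hn hne
    obtain ⟨h, hh, hnh⟩ := hs n hn hne
    rw [mem_Icc] at hn
    exact ⟨h, hkey h hh (by omega), hnh⟩
  rcases Nat.eq_zero_or_pos H' with hH0 | hH0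
  · -- no coefficients
    exfalso
    have h1 := hD t0 ht0
    have h2 : D N a t0 = 0 := by
      unfold D
      refine Finset.sum_eq_zero fun n hn => ?_
      by_cases h : a n = 0
      · rw [h, zero_mul]
      · obtain ⟨h', hh', _⟩ := hs' n hn h
        omega
    rw [h2, norm_zero] at h1
    linarith
  have hH1 : (1 : ℝ) ≤ H' := by exact_mod_cast hH0
  have hmN : m + d * (H' - 1) ≤ N := hkey2 (H' - 1) (by omega)
  have hdm : d * (H' - 1) ≤ m := by omega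
  have hm : 1 ≤ m := by omega
  have hm1 : (1 : ℝ) ≤ m := by exact_mod_cast hm
  have hNm' : (N : ℝ) ≤ 2 * m := by exact_mod_cast hNm
  have hJ : ∀ j ∈ ({0} : Finset ℕ), 1 ≤ (fun _ : ℕ => m) j ∧ 1 ≤ (fun _ : ℕ => d) j ∧ 1 ≤ (fun _ : ℕ => H') j ∧
      (fun _ : ℕ => d) j * ((fun _ : ℕ => H') j - 1) ≤ (fun _ : ℕ => m) j ∧
      (fun _ : ℕ => m) j + (fun _ : ℕ => d) j * ((fun _ : ℕ => H') j - 1) ≤ N :=
    fun _ _ => ⟨hm, hd, hH0, hdm, hmN⟩
  obtain ⟨b, hb1, hb2⟩ := D_split N (fun _ => m) (fun _ => d) (fun _ => H') {0} ∅ hJ a ha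
    (by
      intro n hn hne
      obtain ⟨h', hh', hn'⟩ := hs' n hn hne
      exact Or.inr ⟨0, by simp, h', hh', hn'⟩)
  have hVH : V ≤ H' := by
    have h1 := hb2 t0
    have h2 := hD t0 ht0
    have h3 := E1_le m d H' (b 0) (hb1 0) t0
    simp only [card_empty, Nat.cast_zero, zero_add, sum_singleton] at h1
    linarith
  -- `N ≤ d H'^2`
  have hNH : (N : ℝ) ≤ d * (H' : ℝ) ^ 2 := by
    calc (N : ℝ) ≤ N * T ^ ε := by nlinarith
      _ ≤ V ^ 2 := hVN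
      _ ≤ (H' : ℝ) ^ 2 := by gcongr
      _ ≤ d * (H' : ℝ) ^ 2 := by
          have : 0 ≤ (H' : ℝ) ^ 2 := by positivity
          nlinarith
  have hT'0 : 0 < max T ((N : ℝ) ^ 2) := lt_of_lt_of_le (by linarith) (le_max_left _ _)
  have hHH : (H' : ℝ) ≤ H := by exact_mod_cast hH'H
  have hcond' : ((({0} : Finset ℕ).card : ℕ) : ℝ) ^ 5 * max T ((N : ℝ) ^ 2) *
      ∑ j ∈ ({0} : Finset ℕ), (1 + (((fun _ : ℕ => d) j : ℕ) : ℝ) * (((fun _ : ℕ => H') j : ℕ) : ℝ) ^ 2 /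
        (((fun _ : ℕ => m) j : ℕ) : ℝ)) * (((fun _ : ℕ => H') j : ℕ) : ℝ) ^ 3 ≤ 3 * L * (N : ℝ) ^ 4 := by
    simp only [card_singleton, Nat.cast_one, one_pow, one_mul, sum_singleton]
    have h1 : (1 : ℝ) + d * (H' : ℝ) ^ 2 / m ≤ 3 * (d * (H' : ℝ) ^ 2) / N := by
      have h2 : d * (H' : ℝ) ^ 2 / m ≤ 2 * (d * (H' : ℝ) ^ 2) / N := by
        rw [div_le_div_iff₀ (by linarith) (by linarith)]
        have h6 : 0 ≤ d * (H' : ℝ) ^ 2 := by positivity
        nlinarith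
      have h3 : (1 : ℝ) ≤ (d * (H' : ℝ) ^ 2) / N := by
        rw [le_div_iff₀ (by linarith)]
        linarith
      have h4 : 3 * (d * (H' : ℝ) ^ 2) / N = (d * (H' : ℝ) ^ 2) / N + 2 * (d * (H' : ℝ) ^ 2) / N := by ring
      linarith
    calc max T ((N : ℝ) ^ 2) * ((1 + d * (H' : ℝ) ^ 2 / m) * (H' : ℝ) ^ 3)
        ≤ max T ((N : ℝ) ^ 2) * ((3 * (d * (H' : ℝ) ^ 2) / N) * (H' : ℝ) ^ 3) := by gcongr
      _ = 3 * (d * (H' : ℝ) ^ 5 * max T ((N : ℝ) ^ 2)) / N := by ring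
      _ ≤ 3 * (d * (H : ℝ) ^ 5 * max T ((N : ℝ) ^ 2)) / N := by gcongr
      _ ≤ 3 * (L * (N : ℝ) ^ 5) / N := by gcongr
      _ = 3 * L * (N : ℝ) ^ 4 := by
          field_simp
  have h1 := hC N {0} (fun _ => m) (fun _ => d) (fun _ => H') ∅ T V a hN hJ hcond' (by simp) hT hV hVN ha
    (by
      intro n hn hne
      obtain ⟨h', hh', hn'⟩ := hs' n hn hne
      exact Or.inr ⟨0, by simp, h', hh', hn'⟩) S hS hsep hD
  refine h1.trans ?_
  have : 0 ≤ (N : ℝ) ^ 2 / V ^ 2 * T ^ ε := by positivity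
  exact mul_le_mul_of_nonneg_right (le_max_left _ _) this

end Pool.Agent.K9h65.SM6
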