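import Mathlib
import Pool.Agent.K9h65.SM6.Stm

/-!
# Leaf FOU: finite Fourier sums on `(ℤ/Q)²` satisfy the structure `Sys`
-/

set_option autoImplicit false

open Finset
open scoped ComplexConjugate

namespace Pool.Agent.K9h65.SM6

namespace FOU

variable {Q : ℕ} [NeZero Q]

/-- the character `e((p₁ x + p₂ ψ x)/Q)` -/
noncomputable def e (ψ : ℤ → ℤ) (p : ZMod Q × ZMod Q) (x : ℤ) : ℂ :=
  ZMod.stdAddChar (p.1 * (x : ZMod Q) + p.2 * (ψ x : ZMod Q))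

noncomputable def F (ψ : ℤ → ℤ) (X : Finset ℤ) (p : ZMod Q × ZMod Q) : ℂ := ∑ x ∈ X, e ψ p x

lemma norm_e (ψ : ℤ → ℤ) (p : ZMod Q × ZMod Q) (x : ℤ) : ‖e ψ p x‖ = 1 := by
  unfold e
  exact AddChar.norm_apply _ _

lemma norm_F_le (ψ : ℤ → ℤ) (X : Finset ℤ) (p : ZMod Q × ZMod Q) : ‖F ψ X p‖ ≤ X.card := by
  unfold F
  calc ‖∑ x ∈ X, e ψ p x‖ ≤ ∑ x ∈ X, ‖e ψ p x‖ := norm_sum_le _ _
    _ = X.card := by simp [norm_e]

lemma orth (a b : ZMod Q) :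
    ∑ p : ZMod Q × ZMod Q, (ZMod.stdAddChar (p.1 * a + p.2 * b) : ℂ) =
      if a = 0 ∧ b = 0 then (Q : ℂ) ^ 2 else 0 := by
  rw [Fintype.sum_prod_type]
  simp only [AddChar.map_add_eq_mul]
  simp_rw [← Finset.mul_sum]
  rw [← Finset.sum_mul]
  rw [AddChar.sum_mulShift a (ZMod.isPrimitive_stdAddChar Q),
    AddChar.sum_mulShift b (ZMod.isPrimitive_stdAddChar Q)]
  by_cases ha : a = 0 <;> by_cases hb : b = 0 <;> simp [ha, hb, sq]

/-- the weighted sum -/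
noncomputable def M (Q : ℕ) [NeZero Q] (ψ : ℤ → ℤ) (X Y : Finset ℤ) : ℝ :=
  ((Q : ℝ) ^ 2)⁻¹ * ∑ p : ZMod Q × ZMod Q, ‖F ψ X p‖ ^ 2 * ‖F ψ Y p‖ ^ 4

lemma M_nonneg (ψ : ℤ → ℤ) (X Y : Finset ℤ) : 0 ≤ M Q ψ X Y := by
  unfold M
  positivity

lemma card_p : (Finset.univ : Finset (ZMod Q × ZMod Q)).card = Q ^ 2 := by
  rw [Finset.card_univ, Fintype.card_prod, ZMod.card, sq]

lemma Q_pos : (0 : ℝ) < Q := by
  have := NeZero.pos Q
  exact_mod_cast this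

/-- pointwise bounds give bounds for `M` -/
lemma M_le_of (ψ : ℤ → ℤ) (X Y : Finset ℤ) (β : ℝ)
    (h : ∀ p : ZMod Q × ZMod Q, ‖F ψ X p‖ ^ 2 * ‖F ψ Y p‖ ^ 4 ≤ β) : M Q ψ X Y ≤ β := by
  unfold M
  have h1 : ∑ p : ZMod Q × ZMod Q, ‖F ψ X p‖ ^ 2 * ‖F ψ Y p‖ ^ 4 ≤ (Q : ℝ) ^ 2 * β := by
    calc _ ≤ ∑ p : ZMod Q × ZMod Q, β := Finset.sum_le_sum fun p _ => h p
      _ = (Q : ℝ) ^ 2 * β := by
        rw [Finset.sum_const, card_p, nsmul_eq_mul]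
        push_cast
        ring
  have hQ : (0 : ℝ) < (Q : ℝ) ^ 2 := by have := Q_pos (Q := Q); positivity
  rw [inv_mul_le_iff₀ hQ]
  exact h1

/-- the mixed counts -/
noncomputable def c (Q : ℕ) [NeZero Q] (ψ : ℤ → ℤ) (Y : Finset ℤ) (x x' : ℤ) : ℂ :=
  ((Q : ℂ) ^ 2)⁻¹ * ∑ p : ZMod Q × ZMod Q, e ψ p x * conj (e ψ p x') * ((‖F ψ Y p‖ ^ 4 : ℝ) : ℂ)

lemma M_eq_c (ψ : ℤ → ℤ) (X Y : Finset ℤ) :
    ((M Q ψ X Y : ℝ) : ℂ) = ∑ x ∈ X, ∑ x' ∈ X, c Q ψ Y x x' := by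
  unfold M c
  simp_rw [← Finset.mul_sum]
  push_cast
  congr 1
  have h1 : ∀ p : ZMod Q × ZMod Q, ((‖F ψ X p‖ : ℂ)) ^ 2 * ((‖F ψ Y p‖ : ℂ)) ^ 4 =
      ∑ x ∈ X, ∑ x' ∈ X, e ψ p x * conj (e ψ p x') * (‖F ψ Y p‖ : ℂ) ^ 4 := by
    intro p
    rw [← Complex.mul_conj']
    unfold F
    rw [map_sum, Finset.sum_mul_sum, Finset.sum_mul]
    refine Finset.sum_congr rfl fun x _ => ?_
    rw [Finset.sum_mul]
  rw [Finset.sum_congr rfl fun p _ => h1 p, Finset.sum_comm]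
  refine Finset.sum_congr rfl fun x _ => ?_
  rw [Finset.sum_comm]

lemma four {ι : Type} (Y : Finset ι) (f g : ι → ℂ) :
    (∑ y ∈ Y, f y) * (∑ y ∈ Y, f y) * ((∑ y ∈ Y, g y) * (∑ y ∈ Y, g y)) =
      ∑ y₁ ∈ Y, ∑ y₂ ∈ Y, ∑ y₃ ∈ Y, ∑ y₄ ∈ Y, (f y₁ * f y₂) * (g y₃ * g y₄) := by
  rw [Finset.sum_mul_sum, Finset.sum_mul_sum, Finset.sum_mul]
  refine Finset.sum_congr rfl fun i _ => ?_
  rw [Finset.sum_mul]
  refine Finset.sum_congr rfl fun j _ => ?_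
  rw [Finset.mul_sum]
  refine Finset.sum_congr rfl fun k _ => ?_
  rw [Finset.mul_sum]

/-- vanishing of the mixed counts -/
lemma c_eq_zero (ψ : ℤ → ℤ) (Y : Finset ℤ) (x x' : ℤ)
    (h : ∀ y₁ ∈ Y, ∀ y₂ ∈ Y, ∀ y₃ ∈ Y, ∀ y₄ ∈ Y,
      ¬ (((x - x' + y₁ + y₂ - y₃ - y₄ : ℤ) : ZMod Q) = 0 ∧
        ((ψ x - ψ x' + ψ y₁ + ψ y₂ - ψ y₃ - ψ y₄ : ℤ) : ZMod Q) = 0)) : c Q ψ Y x x' = 0 := by
  unfold c
  have h1 : ∀ p : ZMod Q × ZMod Q, e ψ p x * conj (e ψ p x') * ((‖F ψ Y p‖ ^ 4 : ℝ) : ℂ) =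
      ∑ y₁ ∈ Y, ∑ y₂ ∈ Y, ∑ y₃ ∈ Y, ∑ y₄ ∈ Y,
        (ZMod.stdAddChar (p.1 * ((x - x' + y₁ + y₂ - y₃ - y₄ : ℤ) : ZMod Q) +
          p.2 * ((ψ x - ψ x' + ψ y₁ + ψ y₂ - ψ y₃ - ψ y₄ : ℤ) : ZMod Q)) : ℂ) := by
    intro p
    have e1 : ((‖F ψ Y p‖ ^ 4 : ℝ) : ℂ) = (F ψ Y p * F ψ Y p) * (conj (F ψ Y p) * conj (F ψ Y p)) := by
      have : (F ψ Y p * F ψ Y p) * (conj (F ψ Y p) * conj (F ψ Y p)) =
          (F ψ Y p * conj (F ψ Y p)) ^ 2 := by ring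
      rw [this, Complex.mul_conj']
      push_cast
      ring
    have e2 : ∀ y₁ y₂ y₃ y₄ : ℤ,
        (ZMod.stdAddChar (p.1 * ((x - x' + y₁ + y₂ - y₃ - y₄ : ℤ) : ZMod Q) +
          p.2 * ((ψ x - ψ x' + ψ y₁ + ψ y₂ - ψ y₃ - ψ y₄ : ℤ) : ZMod Q)) : ℂ) =
        e ψ p x * conj (e ψ p x') * ((e ψ p y₁ * e ψ p y₂) * (conj (e ψ p y₃) * conj (e ψ p y₄))) := by
      intro y₁ y₂ y₃ y₄
      unfold e
      rw [← AddChar.map_neg_eq_conj, ← AddChar.map_neg_eq_conj, ← AddChar.map_neg_eq_conj,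
        ← AddChar.map_add_eq_mul, ← AddChar.map_add_eq_mul, ← AddChar.map_add_eq_mul,
        ← AddChar.map_add_eq_mul, ← AddChar.map_add_eq_mul]
      congr 1
      push_cast
      ring
    rw [e1]
    simp only [e2]
    rw [show F ψ Y p = ∑ y ∈ Y, e ψ p y from rfl, map_sum, four]
    simp_rw [Finset.mul_sum]
  rw [Finset.sum_congr rfl fun p _ => h1 p]
  rw [Finset.sum_comm, Finset.sum_eq_zero, mul_zero]
  intro y₁ hy₁
  rw [Finset.sum_comm, Finset.sum_eq_zero]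
  intro y₂ hy₂
  rw [Finset.sum_comm, Finset.sum_eq_zero]
  intro y₃ hy₃
  rw [Finset.sum_comm, Finset.sum_eq_zero]
  intro y₄ hy₄
  rw [orth, if_neg (h y₁ hy₁ y₂ hy₂ y₃ hy₃ y₄ hy₄)]

/-- orthogonal unions -/
lemma M_blocks (ψ : ℤ → ℤ) (X Y : Finset ℤ) (b : ℤ → ℤ)
    (h : ∀ x ∈ X, ∀ x' ∈ X, b x ≠ b x' → c Q ψ Y x x' = 0) :
    M Q ψ X Y = ∑ i ∈ X.image b, M Q ψ (X.filter fun x => b x = i) Y := by
  apply Complex.ofReal_injective
  rw [Complex.ofReal_sum, M_eq_c]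
  rw [← Finset.sum_fiberwise_of_maps_to (g := b) (t := X.image b)
    (fun x hx => Finset.mem_image_of_mem b hx)]
  refine Finset.sum_congr rfl fun i _ => ?_
  rw [M_eq_c]
  refine Finset.sum_congr rfl fun x hx => ?_
  rw [Finset.mem_filter] at hx
  symm
  refine Finset.sum_subset (Finset.filter_subset _ _) fun x' hx' hx'' => ?_
  apply h x hx.1 x' hx'
  intro h2
  apply hx''
  rw [Finset.mem_filter]
  exact ⟨hx', by rw [← h2, hx.2]⟩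

lemma Di.mono {X X' : Finset ℤ} {l : ℝ} (h : Di X l) (h' : X' ⊆ X) : Di X' l :=
  fun x hx y hy => h x (h' hx) y (h' hy)

/-- the block of `x` -/
noncomputable def blk (a : ℤ) (lam : ℝ) (x : ℤ) : ℤ := ⌊((x : ℝ) - a) / lam⌋

lemma blk_close {a : ℤ} {lam : ℝ} (hl : 0 < lam) {x y : ℤ} (h : blk a lam x = blk a lam y) :
    (x : ℝ) - y ≤ lam := by
  unfold blk at h
  have h1 := Int.floor_le (((y : ℝ) - a) / lam)
  have h2 := Int.lt_floor_add_one (((x : ℝ) - a) / lam)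
  rw [h] at h2
  have h3 : ((x : ℝ) - a) / lam < ((y : ℝ) - a) / lam + 1 := by linarith
  rw [div_lt_iff₀ hl, add_mul, div_mul_cancel₀ _ hl.ne'] at h3
  linarith

lemma blk_far {a : ℤ} {lam : ℝ} (hl : 0 < lam) {x y : ℤ} (h : blk a lam y + 2 ≤ blk a lam x) :
    (y : ℝ) + lam ≤ x := by
  unfold blk at h
  have h1 := Int.floor_le (((x : ℝ) - a) / lam)
  have h2 := Int.lt_floor_add_one (((y : ℝ) - a) / lam)
  have h3 : ((⌊((y : ℝ) - a) / lam⌋ : ℤ) : ℝ) + 2 ≤ ((⌊((x : ℝ) - a) / lam⌋ : ℤ) : ℝ) := by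
    exact_mod_cast h
  have h4 : ((y : ℝ) - a) / lam + 1 ≤ ((x : ℝ) - a) / lam := by linarith
  rw [le_div_iff₀ hl, add_mul, div_mul_cancel₀ _ hl.ne'] at h4
  linarith

lemma blk_near {a : ℤ} {lam : ℝ} (hl : 0 < lam) {x y : ℤ} (h : |(x : ℝ) - y| ≤ lam) :
    blk a lam x ≤ blk a lam y + 1 ∧ blk a lam y ≤ blk a lam x + 1 := by
  rw [abs_le] at h
  have key : ∀ u v : ℤ, (u : ℝ) - v ≤ lam → blk a lam u ≤ blk a lam v + 1 := by
    intro u v huv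
    unfold blk
    rw [← Int.floor_add_one]
    apply Int.floor_le_floor
    rw [div_le_iff₀ hl, add_mul, div_mul_cancel₀ _ hl.ne']
    linarith
  exact ⟨key x y h.2, key y x (by linarith)⟩

lemma blk_card {X : Finset ℤ} (hX : X.Nonempty) {l lam : ℝ} (hl : 0 ≤ l) (hlam : 0 < lam) (hD : Di X l) :
    ((X.image (blk (X.min' hX) lam)).card : ℝ) ≤ l / lam + 1 := by
  have h1 : X.image (blk (X.min' hX) lam) ⊆ Icc 0 ⌊l / lam⌋ := by
    intro i hi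
    rw [Finset.mem_image] at hi
    obtain ⟨x, hx, rfl⟩ := hi
    rw [Finset.mem_Icc]
    unfold blk
    have h2 : ((X.min' hX : ℤ) : ℝ) ≤ x := by exact_mod_cast X.min'_le x hx
    constructor
    · apply Int.floor_nonneg.mpr
      apply div_nonneg _ hlam.le
      linarith
    · apply Int.floor_le_floor
      have h3 := hD x hx (X.min' hX) (X.min'_mem hX)
      gcongr
  have h2 := Finset.card_le_card h1
  rw [Int.card_Icc] at h2
  have h3 : 0 ≤ ⌊l / lam⌋ := Int.floor_nonneg.mpr (div_nonneg hl hlam.le)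
  have h4 : (((⌊l / lam⌋ + 1 - 0).toNat : ℕ) : ℝ) = (⌊l / lam⌋ : ℝ) + 1 := by
    have : (((⌊l / lam⌋ + 1 - 0).toNat : ℕ) : ℤ) = ⌊l / lam⌋ + 1 := by
      rw [Int.toNat_of_nonneg (by omega)]
      ring
    exact_mod_cast this
  have h5 : ((X.image (blk (X.min' hX) lam)).card : ℝ) ≤ (((⌊l / lam⌋ + 1 - 0).toNat : ℕ) : ℝ) := by
    exact_mod_cast h2
  rw [h4] at h5
  have := Int.floor_le (l / lam)
  linarith

lemma card_le_of_Di {X : Finset ℤ} {l : ℝ} (hl : 0 ≤ l) (hD : Di X l) : (X.card : ℝ) ≤ l + 1 := by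
  rcases X.eq_empty_or_nonempty with rfl | hX
  · simp
    linarith
  · have h := blk_card hX hl one_pos hD
    rw [div_one] at h
    have h2 : (X.image (blk (X.min' hX) 1)).card = X.card := by
      apply Finset.card_image_of_injOn
      intro x _ y _ hxy
      simp only [blk, div_one] at hxy
      have e1 : ∀ z : ℤ, ⌊(z : ℝ) - (X.min' hX : ℤ)⌋ = z - X.min' hX := by
        intro z
        rw [← Int.cast_sub, Int.floor_intCast]
      rw [e1, e1] at hxy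
      omega
    rwa [h2] at h

lemma F_blocks (ψ : ℤ → ℤ) (X : Finset ℤ) (b : ℤ → ℤ) (p : ZMod Q × ZMod Q) :
    F ψ X p = ∑ i ∈ X.image b, F ψ (X.filter fun x => b x = i) p := by
  unfold F
  rw [Finset.sum_fiberwise_of_maps_to (fun x hx => Finset.mem_image_of_mem b hx)]

lemma M_empty (ψ : ℤ → ℤ) (Y : Finset ℤ) : M Q ψ ∅ Y = 0 := by
  unfold M F
  simp

lemma M_empty' (ψ : ℤ → ℤ) (X : Finset ℤ) : M Q ψ X ∅ = 0 := by
  unfold M F
  simp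

lemma M_cs (ψ : ℤ → ℤ) (X Y : Finset ℤ) : M Q ψ X Y ^ 2 ≤ M Q ψ Y X * M Q ψ Y Y := by
  unfold M
  have h := Finset.sum_mul_sq_le_sq_mul_sq (Finset.univ : Finset (ZMod Q × ZMod Q))
    (fun p => ‖F ψ Y p‖ * ‖F ψ X p‖ ^ 2) (fun p => ‖F ψ Y p‖ ^ 3)
  have e1 : ∀ p : ZMod Q × ZMod Q, ‖F ψ Y p‖ * ‖F ψ X p‖ ^ 2 * ‖F ψ Y p‖ ^ 3 =
      ‖F ψ X p‖ ^ 2 * ‖F ψ Y p‖ ^ 4 := fun p => by ring
  have e2 : ∀ p : ZMod Q × ZMod Q, (‖F ψ Y p‖ * ‖F ψ X p‖ ^ 2) ^ 2 =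
      ‖F ψ Y p‖ ^ 2 * ‖F ψ X p‖ ^ 4 := fun p => by ring
  have e3 : ∀ p : ZMod Q × ZMod Q, (‖F ψ Y p‖ ^ 3) ^ 2 =
      ‖F ψ Y p‖ ^ 2 * ‖F ψ Y p‖ ^ 4 := fun p => by ring
  simp only [e1, e2, e3] at h
  have hQ : (0 : ℝ) ≤ (((Q : ℝ) ^ 2)⁻¹) ^ 2 := by positivity
  calc _ = (((Q : ℝ) ^ 2)⁻¹) ^ 2 * (∑ p : ZMod Q × ZMod Q, ‖F ψ X p‖ ^ 2 * ‖F ψ Y p‖ ^ 4) ^ 2 := by ring
    _ ≤ (((Q : ℝ) ^ 2)⁻¹) ^ 2 * _ := mul_le_mul_of_nonneg_left h hQ
    _ = _ := by ring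

lemma M_hold (ψ : ℤ → ℤ) (X Y : Finset ℤ) : M Q ψ X Y ^ 3 ≤ M Q ψ X X * M Q ψ Y Y ^ 2 := by
  have h1 := M_cs (Q := Q) ψ X Y
  have h2 := M_cs (Q := Q) ψ Y X
  have a0 := M_nonneg (Q := Q) ψ X Y
  have b0 := M_nonneg (Q := Q) ψ Y X
  have c0 := M_nonneg (Q := Q) ψ X X
  have d0 := M_nonneg (Q := Q) ψ Y Y
  set a := M Q ψ X Y
  set b := M Q ψ Y X
  set c := M Q ψ X X
  set d := M Q ψ Y Y
  rcases eq_or_lt_of_le a0 with ha | ha
  · rw [← ha, zero_pow (by norm_num)]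
    positivity
  · have h3 : a ^ 4 ≤ a * (c * d ^ 2) := by
      calc a ^ 4 = (a ^ 2) ^ 2 := by ring
        _ ≤ (b * d) ^ 2 := pow_le_pow_left₀ (by positivity) h1 2
        _ = b ^ 2 * d ^ 2 := by ring
        _ ≤ (a * c) * d ^ 2 := mul_le_mul_of_nonneg_right (by linarith) (by positivity)
        _ = a * (c * d ^ 2) := by ring
    have h4 : a * a ^ 3 ≤ a * (c * d ^ 2) := by
      calc a * a ^ 3 = a ^ 4 := by ring
        _ ≤ _ := h3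
    exact le_of_mul_le_mul_left h4 ha

lemma M_triv (ψ : ℤ → ℤ) (X Y : Finset ℤ) (l : ℝ) (hl : 1 ≤ l) (hX : Di X l) (hY : Di Y l) :
    M Q ψ X Y ≤ (2 * l) ^ 6 := by
  apply M_le_of
  intro p
  have h1 : ‖F ψ X p‖ ≤ 2 * l := (norm_F_le ψ X p).trans ((card_le_of_Di (by linarith) hX).trans (by linarith))
  have h2 : ‖F ψ Y p‖ ≤ 2 * l := (norm_F_le ψ Y p).trans ((card_le_of_Di (by linarith) hY).trans (by linarith))
  calc ‖F ψ X p‖ ^ 2 * ‖F ψ Y p‖ ^ 4 ≤ (2 * l) ^ 2 * (2 * l) ^ 4 := by gcongr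
    _ = (2 * l) ^ 6 := by ring

lemma M_split (ψ : ℤ → ℤ) (X Y : Finset ℤ) (d q β : ℝ) (hd : 0 < d) (hq : 1 ≤ q) (hY : Di Y d)
    (h : ∀ Y' ⊆ Y, Di Y' (d / q) → M Q ψ X Y' ≤ β) : M Q ψ X Y ≤ (2 * q) ^ 4 * β := by
  have hβ : 0 ≤ β := (M_nonneg ψ X ∅).trans (h ∅ (Finset.empty_subset _) (by intro x hx; simp at hx))
  rcases Y.eq_empty_or_nonempty with rfl | hYn
  · rw [M_empty']
    positivity
  have hdq : 0 < d / q := by positivity
  set b := blk (Y.min' hYn) (d / q) with hb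
  set I := Y.image b with hI
  have hcard : (I.card : ℝ) ≤ 2 * q := by
    have := blk_card hYn hd.le hdq hY
    rw [← hb, ← hI] at this
    have e1 : d / (d / q) = q := by field_simp
    rw [e1] at this
    linarith
  have h1 : ∀ p : ZMod Q × ZMod Q, ‖F ψ Y p‖ ^ 4 ≤
      (I.card : ℝ) ^ 3 * ∑ i ∈ I, ‖F ψ (Y.filter fun y => b y = i) p‖ ^ 4 := by
    intro p
    calc ‖F ψ Y p‖ ^ 4 = ‖∑ i ∈ I, F ψ (Y.filter fun y => b y = i) p‖ ^ 4 := by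
          rw [F_blocks ψ Y b p]
      _ ≤ (∑ i ∈ I, ‖F ψ (Y.filter fun y => b y = i) p‖) ^ (3 + 1) := by
          apply pow_le_pow_left₀ (norm_nonneg _)
          exact norm_sum_le _ _
      _ ≤ _ := pow_sum_le_card_mul_sum_pow (fun i _ => norm_nonneg _) 3
  have h2 : M Q ψ X Y ≤ (I.card : ℝ) ^ 3 * ∑ i ∈ I, M Q ψ X (Y.filter fun y => b y = i) := by
    unfold M
    rw [← Finset.mul_sum, ← mul_assoc, mul_comm ((I.card : ℝ) ^ 3), mul_assoc]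
    apply mul_le_mul_of_nonneg_left _ (by positivity)
    rw [Finset.sum_comm, Finset.mul_sum]
    apply Finset.sum_le_sum
    intro p _
    calc ‖F ψ X p‖ ^ 2 * ‖F ψ Y p‖ ^ 4 ≤ ‖F ψ X p‖ ^ 2 *
          ((I.card : ℝ) ^ 3 * ∑ i ∈ I, ‖F ψ (Y.filter fun y => b y = i) p‖ ^ 4) :=
          mul_le_mul_of_nonneg_left (h1 p) (by positivity)
      _ = _ := by
        rw [← Finset.mul_sum]
        ring
  have h3 : ∑ i ∈ I, M Q ψ X (Y.filter fun y => b y = i) ≤ I.card * β := by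
    calc _ ≤ ∑ i ∈ I, β := by
          apply Finset.sum_le_sum
          intro i _
          apply h _ (Finset.filter_subset _ _)
          intro x hx y hy
          rw [Finset.mem_filter] at hx hy
          exact blk_close hdq (hx.2.trans hy.2.symm)
      _ = I.card * β := by rw [Finset.sum_const, nsmul_eq_mul]
  calc M Q ψ X Y ≤ (I.card : ℝ) ^ 3 * (I.card * β) := h2.trans (mul_le_mul_of_nonneg_left h3 (by positivity))
    _ = (I.card : ℝ) ^ 4 * β := by ring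
    _ ≤ (2 * q) ^ 4 * β := by gcongr

/-- the broad-narrow inequality -/
lemma broad {ι : Type} [DecidableEq ι] (I : Finset ι) (near : ι → ι → Prop) [DecidableRel near]
    (f : ι → ℂ) (hcard : I.card ≤ 128)
    (hnear : ∀ i ∈ I, (I.filter fun j => near i j).card ≤ 3) :
    ‖∑ i ∈ I, f i‖ ^ 6 ≤ 4 ^ 6 * ∑ i ∈ I, ‖f i‖ ^ 6 +
      128 ^ 7 * ∑ i ∈ I, ∑ j ∈ I.filter (fun j => ¬ near i j), ‖f j‖ ^ 2 * ‖f i‖ ^ 4 := by
  rcases I.eq_empty_or_nonempty with rfl | hI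
  · simp
  obtain ⟨i, hi, hmax⟩ := Finset.exists_max_image I (fun i => ‖f i‖) hI
  set G := ‖∑ i ∈ I, f i‖ with hG
  have hG0 : 0 ≤ G := norm_nonneg _
  have hcR : (I.card : ℝ) ≤ 128 := by exact_mod_cast hcard
  have hs1 : 0 ≤ ∑ i ∈ I, ‖f i‖ ^ 6 := Finset.sum_nonneg fun _ _ => by positivity
  have hs2 : 0 ≤ ∑ i ∈ I, ∑ j ∈ I.filter (fun j => ¬ near i j), ‖f j‖ ^ 2 * ‖f i‖ ^ 4 :=
    Finset.sum_nonneg fun _ _ => Finset.sum_nonneg fun _ _ => by positivity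
  have hGi : G ≤ 128 * ‖f i‖ := by
    calc G ≤ ∑ j ∈ I, ‖f j‖ := norm_sum_le _ _
      _ ≤ ∑ j ∈ I, ‖f i‖ := Finset.sum_le_sum fun j hj => hmax j hj
      _ = I.card * ‖f i‖ := by rw [Finset.sum_const, nsmul_eq_mul]
      _ ≤ 128 * ‖f i‖ := by gcongr
  by_cases hc : G ≤ 4 * ‖f i‖
  · have h1 : G ^ 6 ≤ 4 ^ 6 * ‖f i‖ ^ 6 := by
      calc G ^ 6 ≤ (4 * ‖f i‖) ^ 6 := by gcongr
        _ = _ := by ring
    have h2 : ‖f i‖ ^ 6 ≤ ∑ i ∈ I, ‖f i‖ ^ 6 :=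
      Finset.single_le_sum (f := fun i => ‖f i‖ ^ 6) (fun _ _ => by positivity) hi
    nlinarith
  · push Not at hc
    -- some far `j` has `‖f j‖ ≥ G / 512`
    have h3 : G ≤ ∑ j ∈ I.filter (fun j => near i j), ‖f j‖ +
        ∑ j ∈ I.filter (fun j => ¬ near i j), ‖f j‖ := by
      rw [Finset.sum_filter_add_sum_filter_not]
      exact norm_sum_le _ _
    have h4 : ∑ j ∈ I.filter (fun j => near i j), ‖f j‖ ≤ 3 * ‖f i‖ := by
      calc _ ≤ ∑ j ∈ I.filter (fun j => near i j), ‖f i‖ :=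
            Finset.sum_le_sum fun j hj => hmax j (Finset.mem_filter.mp hj).1
        _ = ((I.filter (fun j => near i j)).card : ℝ) * ‖f i‖ := by rw [Finset.sum_const, nsmul_eq_mul]
        _ ≤ 3 * ‖f i‖ := by
          have : ((I.filter (fun j => near i j)).card : ℝ) ≤ 3 := by exact_mod_cast hnear i hi
          gcongr
    have h5 : G / 4 < ∑ j ∈ I.filter (fun j => ¬ near i j), ‖f j‖ := by linarith
    obtain ⟨j, hj, hj2⟩ : ∃ j ∈ I.filter (fun j => ¬ near i j), G / 512 ≤ ‖f j‖ := by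
      by_contra hcon
      push Not at hcon
      have h6 : ∑ j ∈ I.filter (fun j => ¬ near i j), ‖f j‖ ≤
          ∑ j ∈ I.filter (fun j => ¬ near i j), G / 512 := Finset.sum_le_sum fun j hj => (hcon j hj).le
      rw [Finset.sum_const, nsmul_eq_mul] at h6
      have h7 : ((I.filter (fun j => ¬ near i j)).card : ℝ) ≤ 128 := by
        exact_mod_cast (Finset.card_le_card (Finset.filter_subset _ _)).trans hcard
      have h8 : ((I.filter (fun j => ¬ near i j)).card : ℝ) * (G / 512) ≤ 128 * (G / 512) := by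
        gcongr
      linarith
    have h9 : G ^ 6 ≤ 128 ^ 7 * (‖f j‖ ^ 2 * ‖f i‖ ^ 4) := by
      calc G ^ 6 = G ^ 2 * G ^ 4 := by ring
        _ ≤ (512 * ‖f j‖) ^ 2 * (128 * ‖f i‖) ^ 4 := by
          gcongr
          linarith
        _ = 512 ^ 2 * 128 ^ 4 * (‖f j‖ ^ 2 * ‖f i‖ ^ 4) := by ring
        _ ≤ _ := by
          apply mul_le_mul_of_nonneg_right (by norm_num) (by positivity)
    have h10 : ‖f j‖ ^ 2 * ‖f i‖ ^ 4 ≤
        ∑ i ∈ I, ∑ j ∈ I.filter (fun j => ¬ near i j), ‖f j‖ ^ 2 * ‖f i‖ ^ 4 := by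
      calc _ ≤ ∑ j ∈ I.filter (fun j => ¬ near i j), ‖f j‖ ^ 2 * ‖f i‖ ^ 4 :=
            Finset.single_le_sum (f := fun j => ‖f j‖ ^ 2 * ‖f i‖ ^ 4) (fun _ _ => by positivity) hj
        _ ≤ _ := Finset.single_le_sum
            (f := fun i => ∑ j ∈ I.filter (fun j => ¬ near i j), ‖f j‖ ^ 2 * ‖f i‖ ^ 4)
            (fun _ _ => Finset.sum_nonneg fun _ _ => by positivity) hi
    nlinarith

lemma M_bn (ψ : ℤ → ℤ) (X : Finset ℤ) (l β₁ β₂ : ℝ) (hl : 0 < l) (hX : Di X l)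
    (h1 : ∀ X' ⊆ X, Di X' (l / 127) → M Q ψ X' X' ≤ β₁)
    (h2 : ∀ X' ⊆ X, ∀ X'' ⊆ X, Di X' (l / 127) → Di X'' (l / 127) → Se X' X'' (l / 127) →
      M Q ψ X' X'' ≤ β₂) :
    M Q ψ X X ≤ 4 ^ 6 * 128 * β₁ + 128 ^ 10 * β₂ := by
  have hE : ∀ l : ℝ, Di (∅ : Finset ℤ) l := fun l x hx => by simp at hx
  have hβ₁ : 0 ≤ β₁ := (M_nonneg ψ ∅ ∅).trans (h1 ∅ (Finset.empty_subset _) (hE _))
  have hβ₂ : 0 ≤ β₂ := (M_nonneg ψ ∅ ∅).trans (h2 ∅ (Finset.empty_subset _) ∅ (Finset.empty_subset _)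
    (hE _) (hE _) (Or.inl fun x hx => by simp at hx))
  rcases X.eq_empty_or_nonempty with rfl | hXn
  · rw [M_empty]
    positivity
  have hlam : 0 < l / 127 := by positivity
  set b := blk (X.min' hXn) (l / 127) with hb
  set I := X.image b with hI
  have hcR : (I.card : ℝ) ≤ 128 := by
    have := blk_card hXn hl.le hlam hX
    rw [← hb, ← hI] at this
    have e1 : l / (l / 127) = 127 := by field_simp
    rw [e1] at this
    linarith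
  have hcard : I.card ≤ 128 := by exact_mod_cast hcR
  have hDi : ∀ i, Di (X.filter fun x => b x = i) (l / 127) := by
    intro i x hx y hy
    rw [Finset.mem_filter] at hx hy
    exact blk_close hlam (hx.2.trans hy.2.symm)
  have hSe : ∀ i j, ¬ (|i - j| ≤ 1) →
      Se (X.filter fun x => b x = j) (X.filter fun x => b x = i) (l / 127) := by
    intro i j hij
    rw [abs_le, not_and_or] at hij
    rcases hij with hij | hij
    · left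
      intro x hx y hy
      rw [Finset.mem_filter] at hx hy
      apply blk_far (a := X.min' hXn) hlam
      rw [← hb, hx.2, hy.2]
      omega
    · right
      intro x hx y hy
      rw [Finset.mem_filter] at hx hy
      have := blk_far (a := X.min' hXn) (x := y) (y := x) hlam (by rw [← hb, hx.2, hy.2]; omega)
      linarith
  have hnear : ∀ i ∈ I, (I.filter fun j => |i - j| ≤ 1).card ≤ 3 := by
    intro i _
    have : (I.filter fun j => |i - j| ≤ 1) ⊆ Icc (i - 1) (i + 1) := by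
      intro j hj
      rw [Finset.mem_filter, abs_le] at hj
      rw [Finset.mem_Icc]
      omega
    have h3 := Finset.card_le_card this
    rw [Int.card_Icc] at h3
    omega
  have hp : ∀ p : ZMod Q × ZMod Q, ‖F ψ X p‖ ^ 2 * ‖F ψ X p‖ ^ 4 ≤
      4 ^ 6 * ∑ i ∈ I, ‖F ψ (X.filter fun x => b x = i) p‖ ^ 2 * ‖F ψ (X.filter fun x => b x = i) p‖ ^ 4 +
      128 ^ 7 * ∑ i ∈ I, ∑ j ∈ I.filter (fun j => ¬ (|i - j| ≤ 1)),
        ‖F ψ (X.filter fun x => b x = j) p‖ ^ 2 * ‖F ψ (X.filter fun x => b x = i) p‖ ^ 4 := by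
    intro p
    have h := broad I (fun i j => |i - j| ≤ 1) (fun i => F ψ (X.filter fun x => b x = i) p) hcard hnear
    rw [← F_blocks ψ X b p] at h
    have e1 : ‖F ψ X p‖ ^ 2 * ‖F ψ X p‖ ^ 4 = ‖F ψ X p‖ ^ 6 := by ring
    have e2 : ∀ i, ‖F ψ (X.filter fun x => b x = i) p‖ ^ 2 * ‖F ψ (X.filter fun x => b x = i) p‖ ^ 4 =
        ‖F ψ (X.filter fun x => b x = i) p‖ ^ 6 := fun i => by ring
    rw [e1]
    simp only [e2]
    exact h
  have hM : M Q ψ X X ≤ 4 ^ 6 * ∑ i ∈ I, M Q ψ (X.filter fun x => b x = i) (X.filter fun x => b x = i) +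
      128 ^ 7 * ∑ i ∈ I, ∑ j ∈ I.filter (fun j => ¬ (|i - j| ≤ 1)),
        M Q ψ (X.filter fun x => b x = j) (X.filter fun x => b x = i) := by
    unfold M
    simp_rw [← Finset.mul_sum]
    have e3 : (4 : ℝ) ^ 6 * (((Q : ℝ) ^ 2)⁻¹ * ∑ i ∈ I, ∑ p : ZMod Q × ZMod Q,
        ‖F ψ (X.filter fun x => b x = i) p‖ ^ 2 * ‖F ψ (X.filter fun x => b x = i) p‖ ^ 4) +
        128 ^ 7 * (((Q : ℝ) ^ 2)⁻¹ * ∑ i ∈ I, ∑ j ∈ I.filter (fun j => ¬ (|i - j| ≤ 1)),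
          ∑ p : ZMod Q × ZMod Q,
          ‖F ψ (X.filter fun x => b x = j) p‖ ^ 2 * ‖F ψ (X.filter fun x => b x = i) p‖ ^ 4) =
        ((Q : ℝ) ^ 2)⁻¹ * ∑ p : ZMod Q × ZMod Q, (4 ^ 6 * ∑ i ∈ I,
          ‖F ψ (X.filter fun x => b x = i) p‖ ^ 2 * ‖F ψ (X.filter fun x => b x = i) p‖ ^ 4 +
          128 ^ 7 * ∑ i ∈ I, ∑ j ∈ I.filter (fun j => ¬ (|i - j| ≤ 1)),
          ‖F ψ (X.filter fun x => b x = j) p‖ ^ 2 * ‖F ψ (X.filter fun x => b x = i) p‖ ^ 4) := by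
      rw [Finset.sum_add_distrib, ← Finset.mul_sum, ← Finset.mul_sum]
      rw [Finset.sum_comm (s := Finset.univ) (t := I)]
      have e4 : ∑ p : ZMod Q × ZMod Q, ∑ i ∈ I, ∑ j ∈ I.filter (fun j => ¬ (|i - j| ≤ 1)),
          ‖F ψ (X.filter fun x => b x = j) p‖ ^ 2 * ‖F ψ (X.filter fun x => b x = i) p‖ ^ 4 =
          ∑ i ∈ I, ∑ j ∈ I.filter (fun j => ¬ (|i - j| ≤ 1)), ∑ p : ZMod Q × ZMod Q,
          ‖F ψ (X.filter fun x => b x = j) p‖ ^ 2 * ‖F ψ (X.filter fun x => b x = i) p‖ ^ 4 := by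
        rw [Finset.sum_comm]
        refine Finset.sum_congr rfl fun i _ => ?_
        rw [Finset.sum_comm]
      rw [e4]
      ring
    rw [e3]
    exact mul_le_mul_of_nonneg_left (Finset.sum_le_sum fun p _ => hp p) (by positivity)
  have h3 : ∑ i ∈ I, M Q ψ (X.filter fun x => b x = i) (X.filter fun x => b x = i) ≤ 128 * β₁ := by
    calc _ ≤ ∑ i ∈ I, β₁ := Finset.sum_le_sum fun i _ => h1 _ (Finset.filter_subset _ _) (hDi i)
      _ = I.card * β₁ := by rw [Finset.sum_const, nsmul_eq_mul]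
      _ ≤ 128 * β₁ := by gcongr
  have h4 : ∑ i ∈ I, ∑ j ∈ I.filter (fun j => ¬ (|i - j| ≤ 1)),
        M Q ψ (X.filter fun x => b x = j) (X.filter fun x => b x = i) ≤ 128 * (128 * β₂) := by
    calc _ ≤ ∑ i ∈ I, 128 * β₂ := by
          apply Finset.sum_le_sum
          intro i _
          calc _ ≤ ∑ j ∈ I.filter (fun j => ¬ (|i - j| ≤ 1)), β₂ := by
                apply Finset.sum_le_sum
                intro j hj
                exact h2 _ (Finset.filter_subset _ _) _ (Finset.filter_subset _ _) (hDi j) (hDi i)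
                  (hSe i j (Finset.mem_filter.mp hj).2)
            _ = ((I.filter (fun j => ¬ (|i - j| ≤ 1))).card : ℝ) * β₂ := by
              rw [Finset.sum_const, nsmul_eq_mul]
            _ ≤ 128 * β₂ := by
              have : ((I.filter (fun j => ¬ (|i - j| ≤ 1))).card : ℝ) ≤ 128 := by
                exact_mod_cast (Finset.card_le_card (Finset.filter_subset _ _)).trans hcard
              gcongr
      _ = I.card * (128 * β₂) := by rw [Finset.sum_const, nsmul_eq_mul]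
      _ ≤ 128 * (128 * β₂) := by gcongr
  nlinarith

omit [NeZero Q] in
lemma int_zero {n : ℤ} (h : ((n : ℤ) : ZMod Q) = 0) (h2 : |n| < Q) : n = 0 := by
  have h3 := (ZMod.intCast_zmod_eq_zero_iff_dvd n Q).mp h
  exact Int.eq_zero_of_abs_lt_dvd h3 h2

/-- the solutions have close `x, x'` -/
lemma close {K : ℝ} {ψ : ℤ → ℤ} {g : ℤ → ℝ} {A B : ℤ} (hK : 1 ≤ K) (hG : Good K ψ g A B)
    (hQ : ∀ x ∈ Icc A B, 6 * |x| < Q ∧ 6 * |ψ x| < Q) {X Y : Finset ℤ} (hX : X ⊆ Icc A B)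
    (hY : Y ⊆ Icc A B) {d m : ℝ} (hd : 0 < d) (hm : 1 ≤ m) (hS : Se X Y d) (hYm : Di Y m)
    {x x' : ℤ} (hx : x ∈ X) (hx' : x' ∈ X) (hfar : 9 * K ^ 2 * m ^ 2 / d < |(x : ℝ) - x'|) :
    c Q ψ Y x x' = 0 := by
  apply c_eq_zero
  rintro y₁ hy₁ y₂ hy₂ y₃ hy₃ y₄ hy₄ ⟨h1, h2⟩
  obtain ⟨qx, qx2⟩ := hQ x (hX hx)
  obtain ⟨qx', qx2'⟩ := hQ x' (hX hx')
  obtain ⟨q1, q12⟩ := hQ y₁ (hY hy₁)
  obtain ⟨q2, q22⟩ := hQ y₂ (hY hy₂)
  obtain ⟨q3, q32⟩ := hQ y₃ (hY hy₃)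
  obtain ⟨q4, q42⟩ := hQ y₄ (hY hy₄)
  have e1 : x - x' + y₁ + y₂ - y₃ - y₄ = 0 := by
    apply int_zero h1
    have a1 := abs_le.mp (le_refl |x|)
    have a2 := abs_le.mp (le_refl |x'|)
    have a3 := abs_le.mp (le_refl |y₁|)
    have a4 := abs_le.mp (le_refl |y₂|)
    have a5 := abs_le.mp (le_refl |y₃|)
    have a6 := abs_le.mp (le_refl |y₄|)
    rw [abs_lt]
    constructor <;> omega
  have e2 : ψ x - ψ x' + ψ y₁ + ψ y₂ - ψ y₃ - ψ y₄ = 0 := by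
    apply int_zero h2
    have a1 := abs_le.mp (le_refl |ψ x|)
    have a2 := abs_le.mp (le_refl |ψ x'|)
    have a3 := abs_le.mp (le_refl |ψ y₁|)
    have a4 := abs_le.mp (le_refl |ψ y₂|)
    have a5 := abs_le.mp (le_refl |ψ y₃|)
    have a6 := abs_le.mp (le_refl |ψ y₄|)
    rw [abs_lt]
    constructor <;> omega
  have hA := fun z (hz : z ∈ Y) => (Finset.mem_Icc.mp (hY hz))
  have hAx := Finset.mem_Icc.mp (hX hx)
  have hAx' := Finset.mem_Icc.mp (hX hx')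
  -- the errors
  have herr : ∀ z ∈ Y, |(ψ z : ℝ) - ψ y₁ - g y₁ * ((z : ℝ) - y₁)| ≤ K * (m ^ 2 + 1) := by
    intro z hz
    have h3 := hG.a1 y₁ z (hA _ hy₁).1 (hA _ hy₁).2 (hA _ hz).1 (hA _ hz).2
    have h4 : ((z : ℝ) - y₁) ^ 2 ≤ m ^ 2 := by
      apply sq_le_sq'
      · have := hYm y₁ hy₁ z hz
        linarith
      · exact hYm z hz y₁ hy₁
    calc _ ≤ K * (((z : ℝ) - y₁) ^ 2 + 1) := h3
      _ ≤ K * (m ^ 2 + 1) := by gcongr
  have r2 := abs_le.mp (herr y₂ hy₂)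
  have r3 := abs_le.mp (herr y₃ hy₃)
  have r4 := abs_le.mp (herr y₄ hy₄)
  have r1 := abs_le.mp (herr y₁ hy₁)
  have e1' : (x : ℝ) - x' + y₁ + y₂ - y₃ - y₄ = 0 := by exact_mod_cast e1
  have e2' : (ψ x : ℝ) - ψ x' + ψ y₁ + ψ y₂ - ψ y₃ - ψ y₄ = 0 := by exact_mod_cast e2
  have e3 : (ψ x : ℝ) - ψ x' - g y₁ * ((x : ℝ) - x') =
      -(((ψ y₁ : ℝ) - ψ y₁ - g y₁ * ((y₁ : ℝ) - y₁)) + ((ψ y₂ : ℝ) - ψ y₁ - g y₁ * ((y₂ : ℝ) - y₁)) -
        ((ψ y₃ : ℝ) - ψ y₁ - g y₁ * ((y₃ : ℝ) - y₁)) - ((ψ y₄ : ℝ) - ψ y₁ - g y₁ * ((y₄ : ℝ) - y₁))) := by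
    linear_combination e2' - g y₁ * e1'
  have h5 : |(ψ x : ℝ) - ψ x' - g y₁ * ((x : ℝ) - x')| ≤ 4 * (K * (m ^ 2 + 1)) := by
    rw [e3, abs_le]
    constructor <;> linarith [r1.1, r1.2, r2.1, r2.2, r3.1, r3.2, r4.1, r4.2]
  have h6 := hG.a2 x x' y₁ d hAx.1 hAx.2 hAx'.1 hAx'.2 (hA _ hy₁).1 (hA _ hy₁).2 hd.le (by
    rcases hS with hS | hS
    · left
      exact ⟨hS x hx y₁ hy₁, hS x' hx' y₁ hy₁⟩
    · right
      exact ⟨hS x hx y₁ hy₁, hS x' hx' y₁ hy₁⟩)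
  have hm2 : 1 ≤ m ^ 2 := one_le_pow₀ hm
  have hK2 : K ≤ K ^ 2 := by nlinarith
  have h7 : d * |(x : ℝ) - x'| ≤ 9 * K ^ 2 * m ^ 2 := by
    calc d * |(x : ℝ) - x'| ≤ K * (4 * (K * (m ^ 2 + 1)) + 1) := h6.trans (by gcongr)
      _ = 4 * K ^ 2 * m ^ 2 + 4 * K ^ 2 + K := by ring
      _ ≤ 4 * K ^ 2 * m ^ 2 + 4 * K ^ 2 + K ^ 2 := by linarith
      _ = 4 * K ^ 2 * m ^ 2 + 5 * K ^ 2 * 1 := by ring
      _ ≤ 4 * K ^ 2 * m ^ 2 + 5 * K ^ 2 * m ^ 2 := by gcongr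
      _ = 9 * K ^ 2 * m ^ 2 := by ring
  rw [div_lt_iff₀ hd] at hfar
  linarith [mul_comm d |(x : ℝ) - x'|]

lemma M_cong {K : ℝ} {ψ : ℤ → ℤ} {g : ℤ → ℝ} {A B : ℤ} (hK : 1 ≤ K) (hG : Good K ψ g A B)
    (hQ : ∀ x ∈ Icc A B, 6 * |x| < Q ∧ 6 * |ψ x| < Q) (X : Finset ℤ) (hX : X ⊆ Icc A B)
    (Y : Finset ℤ) (hY : Y ⊆ Icc A B) (d l lam m β : ℝ) (hd : 0 < d) (hl : 0 ≤ l) (hlam : 0 < lam)
    (hm : 1 ≤ m) (hκ : 9 * K ^ 2 * m ^ 2 / d ≤ lam) (hS : Se X Y d) (hXl : Di X l) (hYm : Di Y m)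
    (h : ∀ X' ⊆ X, Di X' lam → M Q ψ X' Y ≤ β) : M Q ψ X Y ≤ 3 * (l / lam + 1) * β := by
  have hβ : 0 ≤ β := (M_nonneg ψ ∅ Y).trans (h ∅ (Finset.empty_subset _) (by intro x hx; simp at hx))
  rcases X.eq_empty_or_nonempty with rfl | hXn
  · rw [M_empty]
    positivity
  set b := blk (X.min' hXn) lam with hb
  set I := X.image b with hI
  have hcR : (I.card : ℝ) ≤ l / lam + 1 := blk_card hXn hl hlam hXl
  have hpart : ∀ (P : ℤ → Prop) [DecidablePred P], (∀ i j : ℤ, P i → P j → i ≠ j → ¬ (i ≤ j + 1 ∧ j ≤ i + 1)) →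
      M Q ψ (X.filter fun x => P (b x)) Y ≤ ((I.filter P).card : ℝ) * β := by
    intro P _ hP
    rw [M_blocks ψ (X.filter fun x => P (b x)) Y b]
    · calc _ ≤ ∑ i ∈ (X.filter fun x => P (b x)).image b, β := by
            apply Finset.sum_le_sum
            intro i _
            apply h
            · exact (Finset.filter_subset _ _).trans (Finset.filter_subset _ _)
            · intro x hx y hy
              rw [Finset.mem_filter] at hx hy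
              exact blk_close hlam (hx.2.trans hy.2.symm)
        _ = (((X.filter fun x => P (b x)).image b).card : ℝ) * β := by
          rw [Finset.sum_const, nsmul_eq_mul]
        _ ≤ ((I.filter P).card : ℝ) * β := by
          apply mul_le_mul_of_nonneg_right _ hβ
          have : (X.filter fun x => P (b x)).image b ⊆ I.filter P := by
            intro i hi
            rw [Finset.mem_image] at hi
            obtain ⟨x, hx, rfl⟩ := hi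
            rw [Finset.mem_filter] at hx ⊢
            exact ⟨Finset.mem_image_of_mem b hx.1, hx.2⟩
          exact_mod_cast Finset.card_le_card this
    · intro x hx x' hx' hne
      rw [Finset.mem_filter] at hx hx'
      apply close hK hG hQ hX hY hd hm hS hYm hx.1 hx'.1
      by_contra hcon
      push Not at hcon
      have h3 := blk_near (a := X.min' hXn) hlam (hcon.trans hκ)
      exact hP _ _ hx.2 hx'.2 hne h3
  have h0 := hpart (fun i => i % 2 = 0) (by intro i j hi hj hne; omega)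
  have h1 := hpart (fun i => ¬ i % 2 = 0) (by intro i j hi hj hne; omega)
  have hsum : M Q ψ X Y ≤ 2 * M Q ψ (X.filter fun x => b x % 2 = 0) Y +
      2 * M Q ψ (X.filter fun x => ¬ b x % 2 = 0) Y := by
    unfold M
    rw [← mul_assoc, ← mul_assoc, mul_comm (2 : ℝ), mul_assoc, mul_assoc, ← mul_add]
    apply mul_le_mul_of_nonneg_left _ (by positivity)
    rw [Finset.mul_sum, Finset.mul_sum, ← Finset.sum_add_distrib]
    apply Finset.sum_le_sum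
    intro p _
    have e1 : F ψ X p = F ψ (X.filter fun x => b x % 2 = 0) p + F ψ (X.filter fun x => ¬ b x % 2 = 0) p := by
      unfold F
      rw [Finset.sum_filter_add_sum_filter_not]
    have e2 : ‖F ψ X p‖ ^ 2 ≤ 2 * ‖F ψ (X.filter fun x => b x % 2 = 0) p‖ ^ 2 +
        2 * ‖F ψ (X.filter fun x => ¬ b x % 2 = 0) p‖ ^ 2 := by
      have e3 : ‖F ψ X p‖ ≤ ‖F ψ (X.filter fun x => b x % 2 = 0) p‖ +
          ‖F ψ (X.filter fun x => ¬ b x % 2 = 0) p‖ := by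
        rw [e1]
        exact norm_add_le _ _
      have e4 := pow_le_pow_left₀ (norm_nonneg _) e3 2
      nlinarith [sq_nonneg (‖F ψ (X.filter fun x => b x % 2 = 0) p‖ -
        ‖F ψ (X.filter fun x => ¬ b x % 2 = 0) p‖)]
    calc ‖F ψ X p‖ ^ 2 * ‖F ψ Y p‖ ^ 4 ≤ (2 * ‖F ψ (X.filter fun x => b x % 2 = 0) p‖ ^ 2 +
        2 * ‖F ψ (X.filter fun x => ¬ b x % 2 = 0) p‖ ^ 2) * ‖F ψ Y p‖ ^ 4 :=
          mul_le_mul_of_nonneg_right e2 (by positivity)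
      _ = _ := by ring
  have hc2 : ((I.filter fun i => i % 2 = 0).card : ℝ) + ((I.filter fun i => ¬ i % 2 = 0).card : ℝ) =
      I.card := by
    exact_mod_cast Finset.card_filter_add_card_filter_not (s := I) (p := fun i => i % 2 = 0)
  calc M Q ψ X Y ≤ 2 * (((I.filter fun i => i % 2 = 0).card : ℝ) * β) +
        2 * (((I.filter fun i => ¬ i % 2 = 0).card : ℝ) * β) := by linarith
    _ = 2 * I.card * β := by rw [← hc2]; ring
    _ ≤ 2 * (l / lam + 1) * β := by gcongr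
    _ ≤ 3 * (l / lam + 1) * β := by
      have : 0 ≤ l / lam := by positivity
      gcongr
      norm_num

/-- the count of solutions is at most the moment -/
lemma cnt6_le (X : Finset ℤ) (ψ : ℤ → ℤ) : (cnt6 X ψ : ℝ) ≤ M Q ψ X X := by
  classical
  set T := X ×ˢ X ×ˢ X with hT
  set a : (ℤ × ℤ × ℤ) × (ℤ × ℤ × ℤ) → ℤ := fun v =>
    v.1.1 + v.1.2.1 + v.1.2.2 - (v.2.1 + v.2.2.1 + v.2.2.2) with ha
  set b : (ℤ × ℤ × ℤ) × (ℤ × ℤ × ℤ) → ℤ := fun v =>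
    ψ v.1.1 + ψ v.1.2.1 + ψ v.1.2.2 - (ψ v.2.1 + ψ v.2.2.1 + ψ v.2.2.2) with hb
  have h1 : ∀ p : ZMod Q × ZMod Q, ((‖F ψ X p‖ ^ 2 * ‖F ψ X p‖ ^ 4 : ℝ) : ℂ) =
      ∑ v ∈ T ×ˢ T, (ZMod.stdAddChar (p.1 * ((a v : ℤ) : ZMod Q) + p.2 * ((b v : ℤ) : ZMod Q)) : ℂ) := by
    intro p
    have e1 : F ψ X p * (F ψ X p * F ψ X p) =
        ∑ u ∈ T, e ψ p u.1 * (e ψ p u.2.1 * e ψ p u.2.2) := by
      rw [hT, Finset.sum_product]
      unfold F
      rw [Finset.sum_mul]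
      refine Finset.sum_congr rfl fun x _ => ?_
      rw [Finset.sum_product, Finset.sum_mul_sum, Finset.mul_sum]
      refine Finset.sum_congr rfl fun y _ => ?_
      rw [Finset.mul_sum]
    have e2 : ((‖F ψ X p‖ ^ 2 * ‖F ψ X p‖ ^ 4 : ℝ) : ℂ) =
        (F ψ X p * (F ψ X p * F ψ X p)) * conj (F ψ X p * (F ψ X p * F ψ X p)) := by
      rw [Complex.mul_conj']
      rw [norm_mul, norm_mul]
      push_cast
      ring
    rw [e2, e1, map_sum, Finset.sum_mul_sum]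
    refine Eq.trans ?_ (Finset.sum_product T T _).symm
    refine Finset.sum_congr rfl fun u _ => ?_
    refine Finset.sum_congr rfl fun w _ => ?_
    rw [map_mul, map_mul]
    unfold e
    rw [← AddChar.map_neg_eq_conj, ← AddChar.map_neg_eq_conj, ← AddChar.map_neg_eq_conj,
      ← AddChar.map_add_eq_mul, ← AddChar.map_add_eq_mul, ← AddChar.map_add_eq_mul,
      ← AddChar.map_add_eq_mul, ← AddChar.map_add_eq_mul]
    congr 1
    simp only [ha, hb]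
    push_cast
    ring
  have h2 : ((M Q ψ X X : ℝ) : ℂ) =
      (((T ×ˢ T).filter fun v => ((a v : ℤ) : ZMod Q) = 0 ∧ ((b v : ℤ) : ZMod Q) = 0).card : ℂ) := by
    have hQ0 : (Q : ℂ) ≠ 0 := by exact_mod_cast NeZero.ne Q
    unfold M
    rw [Complex.ofReal_mul, Complex.ofReal_sum, Finset.sum_congr rfl fun p _ => h1 p, Finset.sum_comm]
    simp_rw [orth]
    rw [← Finset.sum_filter, Finset.sum_const, nsmul_eq_mul]
    push_cast
    field_simp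
  have h3 : M Q ψ X X =
      (((T ×ˢ T).filter fun v => ((a v : ℤ) : ZMod Q) = 0 ∧ ((b v : ℤ) : ZMod Q) = 0).card : ℝ) := by
    exact_mod_cast h2
  rw [h3]
  unfold cnt6
  have h4 : ((X ×ˢ X ×ˢ X) ×ˢ (X ×ˢ X ×ˢ X)).filter (fun v : (ℤ × ℤ × ℤ) × (ℤ × ℤ × ℤ) =>
      v.1.1 + v.1.2.1 + v.1.2.2 = v.2.1 + v.2.2.1 + v.2.2.2 ∧
      ψ v.1.1 + ψ v.1.2.1 + ψ v.1.2.2 = ψ v.2.1 + ψ v.2.2.1 + ψ v.2.2.2) ⊆
      (T ×ˢ T).filter fun v => ((a v : ℤ) : ZMod Q) = 0 ∧ ((b v : ℤ) : ZMod Q) = 0 := by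
    intro v hv
    rw [Finset.mem_filter] at hv ⊢
    refine ⟨hv.1, ?_, ?_⟩
    · have : a v = 0 := by simp only [ha]; linarith [hv.2.1]
      rw [this]
      simp
    · have : b v = 0 := by simp only [hb]; linarith [hv.2.2]
      rw [this]
      simp
  exact_mod_cast Finset.card_le_card h4

end FOU

theorem sFOU : S_FOU := by
  intro K ψ g A B hK hAB hG
  set R : ℕ := ∑ x ∈ Icc A B, (x.natAbs + (ψ x).natAbs) with hR
  have : NeZero (6 * R + 1) := ⟨by omega⟩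
  have hQ : ∀ x ∈ Icc A B, 6 * |x| < ((6 * R + 1 : ℕ) : ℤ) ∧ 6 * |ψ x| < ((6 * R + 1 : ℕ) : ℤ) := by
    intro x hx
    have h1 : x.natAbs + (ψ x).natAbs ≤ R :=
      Finset.single_le_sum (f := fun x : ℤ => x.natAbs + (ψ x).natAbs) (fun _ _ => by omega) hx
    have h2 : |x| = (x.natAbs : ℤ) := Int.abs_eq_natAbs x
    have h3 : |ψ x| = ((ψ x).natAbs : ℤ) := Int.abs_eq_natAbs (ψ x)
    rw [h2, h3]
    push_cast
    constructor <;> omega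
  refine ⟨FOU.M (6 * R + 1) ψ, ⟨?_, ?_, ?_, ?_, ?_, ?_, ?_⟩, FOU.cnt6_le _ ψ⟩
  · exact fun X Y => FOU.M_nonneg ψ X Y
  · exact fun X _ Y _ l hl hX hY => FOU.M_triv ψ X Y l hl hX hY
  · exact fun X _ Y _ => FOU.M_cs ψ X Y
  · exact fun X _ Y _ => FOU.M_hold ψ X Y
  · exact fun X hX Y hY d l lam m β hd hl hlam hm hκ hS hXl hYm h =>
      FOU.M_cong hK hG hQ X hX Y hY d l lam m β hd hl hlam hm hκ hS hXl hYm h
  · exact fun X _ Y _ d q β hd hq hY h => FOU.M_split ψ X Y d q β hd hq hY h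
  · exact fun X _ l β₁ β₂ hl hX h1 h2 => FOU.M_bn ψ X l β₁ β₂ hl hX h1 h2

end Pool.Agent.K9h65.SM6
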