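import Pool.Agent.K9h65.SM6.A
import Pool.Agent.K9h65.SM6.B
import Pool.Agent.K9h65.SM6.C
import Pool.Agent.K9h65.SM6.D2
import Pool.Agent.K9h65.SM6.FOU

/-!
# SM6: all the leaves together
-/

set_option autoImplicit false

namespace Pool.Agent.K9h65.SM6

theorem sAll : S_A := sA sFOU

theorem bAll : S_B := sB sAll

theorem final : S_Final2 := final2 bAll sC

end Pool.Agent.K9h65.SM6
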