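import Pool.Agent.K9h65.SM6.Stm2
import Pool.Agent.K9h65.SM6.B

/-! # Leaf B2: products of three elements of a subset of a short progression -/

set_option autoImplicit false

open Finset

namespace Pool.Agent.K9h65.SM6

open LB in
/-- Leaf B2. -/
theorem sB2 (hA : S_A2) : S_B2 := by
  classical
  intro ε hε
  obtain ⟨C, hC, hcnt⟩ := hA 8 ε hε
  refine ⟨126 * C, by positivity, ?_⟩
  intro m d H X T hm hd hH hXH hdH hT
  have hm0 : (0 : ℝ) < m := by exact_mod_cast hm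
  have hd0 : (0 : ℝ) < d := by exact_mod_cast hd
  have hH0 : (1 : ℝ) ≤ H := by exact_mod_cast hH
  obtain ⟨M, hMdef⟩ : ∃ M : ℝ, M = (m : ℝ) / d := ⟨_, rfl⟩
  have hM : 0 < M := by rw [hMdef]; positivity
  rw [← hMdef] at hT
  have hT0 : 0 < T := lt_of_lt_of_le (by positivity) hT
  -- the box
  obtain ⟨B, hB⟩ : ∃ B : ℤ, B = (H : ℤ) - 1 := ⟨_, rfl⟩
  have hB0 : 0 ≤ B := by omega
  have hBM : (B : ℝ) ≤ M := by
    rw [hMdef, le_div_iff₀ hd0, hB]
    have h1 : ((d * (H - 1) : ℕ) : ℝ) ≤ m := by exact_mod_cast hdH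
    rw [Nat.cast_mul, Nat.cast_sub hH] at h1
    push_cast at h1 ⊢
    linarith
  have hgood := good hM hBM
  obtain ⟨X', hX'⟩ : ∃ X' : Finset ℤ, X' = X.image (fun x : ℕ => (x : ℤ)) := ⟨_, rfl⟩
  have hX'B : X' ⊆ Icc 0 B := by
    intro x hx
    rw [hX', Finset.mem_image] at hx
    obtain ⟨y, hy, rfl⟩ := hx
    have h1 := Finset.mem_range.1 (hXH hy)
    rw [Finset.mem_Icc]
    omega
  have hX'c : X'.card = X.card := by
    rw [hX']
    exact Finset.card_image_of_injective _ Nat.cast_injective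
  have hc := hcnt (ps M) (fun x => gg M x) 0 B hB0 hgood X' hX'B
  rw [hX'c] at hc
  have hBr : (B : ℝ) - ((0 : ℤ) : ℝ) + 1 = H := by
    rw [hB]; push_cast; ring
  rw [hBr] at hc
  obtain ⟨Z, hZ⟩ : ∃ Z : Finset (ℤ × ℤ × ℤ), Z = X' ×ˢ X' ×ˢ X' := ⟨_, rfl⟩
  obtain ⟨f, hf⟩ : ∃ f : ℤ × ℤ × ℤ → ℤ × ℤ, f = fun w =>
    (w.1 + w.2.1 + w.2.2, ps M w.1 + ps M w.2.1 + ps M w.2.2) := ⟨_, rfl⟩
  have hcnt6 : ((Z ×ˢ Z).filter fun p : (ℤ × ℤ × ℤ) × (ℤ × ℤ × ℤ) => f p.1 = f p.2).card =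
      cnt6 X' (ps M) := by
    unfold cnt6
    rw [hZ, hf]
    congr 1
    refine Finset.filter_congr fun p _ => ?_
    simp only [Prod.mk.injEq]
  -- the map to the integers
  obtain ⟨tr, htr⟩ : ∃ tr : ℕ × ℕ × ℕ → ℤ × ℤ × ℤ, tr = fun v => ((v.1 : ℤ), (v.2.1 : ℤ), (v.2.2 : ℤ)) :=
    ⟨_, rfl⟩
  have htrZ : ∀ v ∈ X ×ˢ X ×ˢ X, tr v ∈ Z := by
    intro v hv
    rw [hZ, htr, hX']
    simp only [Finset.mem_product] at hv ⊢
    exact ⟨Finset.mem_image_of_mem _ hv.1, Finset.mem_image_of_mem _ hv.2.1,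
      Finset.mem_image_of_mem _ hv.2.2⟩
  have htrinj : Function.Injective tr := by
    intro v w h
    rw [htr] at h
    simp only [Prod.mk.injEq, Nat.cast_inj] at h
    exact Prod.ext h.1 (Prod.ext h.2.1 h.2.2)
  -- the set of differences
  obtain ⟨Kn, hKn⟩ : ∃ Kn : ℕ, Kn = ⌊7 * (d : ℝ) * H ^ 2 / m⌋₊ := ⟨_, rfl⟩
  obtain ⟨E, hE⟩ : ∃ E : Finset (ℤ × ℤ), E = (Icc (-(Kn : ℤ)) Kn ×ˢ Icc (-4 : ℤ) 4).image
    (fun c => (c.1, ⌊M * c.1⌋ + c.2)) := ⟨_, rfl⟩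
  have hEcard : (E.card : ℝ) ≤ 126 * (1 + d * (H : ℝ) ^ 2 / m) := by
    have h1 : E.card ≤ (2 * Kn + 1) * 9 := by
      rw [hE]
      refine Finset.card_image_le.trans (le_of_eq ?_)
      rw [Finset.card_product, Int.card_Icc, Int.card_Icc]
      congr 1
      omega
    have h2 : (Kn : ℝ) ≤ 7 * (d : ℝ) * H ^ 2 / m := by
      rw [hKn]
      exact Nat.floor_le (by positivity)
    have h3 : (E.card : ℝ) ≤ (2 * Kn + 1) * 9 := by exact_mod_cast h1
    have h4 : 7 * (d : ℝ) * H ^ 2 / m = 7 * (d * (H : ℝ) ^ 2 / m) := by ring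
    rw [h4] at h2
    have h5 : (0 : ℝ) ≤ d * (H : ℝ) ^ 2 / m := by positivity
    linarith
  -- fibres
  obtain ⟨P, hP⟩ : ∃ P, P = (((X ×ˢ X ×ˢ X) ×ˢ (X ×ˢ X ×ˢ X)).filter fun p : (ℕ × ℕ × ℕ) × (ℕ × ℕ × ℕ) =>
    |fr m d p.1 - fr m d p.2| ≤ 1 / T) := ⟨_, rfl⟩
  have hmaps : ∀ p ∈ P, (f (tr p.1) - f (tr p.2)) ∈ E := by
    rintro ⟨v, w⟩ hp
    rw [hP, Finset.mem_filter, Finset.mem_product] at hp
    obtain ⟨⟨hv, hw⟩, hfr⟩ := hp
    simp only at hv hw hfr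
    obtain ⟨v1, v2, v3⟩ := v
    obtain ⟨w1, w2, w3⟩ := w
    simp only [Finset.mem_product] at hv hw
    obtain ⟨hv1, hv2, hv3⟩ := hv
    obtain ⟨hw1, hw2, hw3⟩ := hw
    replace hv1 := Finset.mem_range.1 (hXH hv1)
    replace hv2 := Finset.mem_range.1 (hXH hv2)
    replace hv3 := Finset.mem_range.1 (hXH hv3)
    replace hw1 := Finset.mem_range.1 (hXH hw1)
    replace hw2 := Finset.mem_range.1 (hXH hw2)
    replace hw3 := Finset.mem_range.1 (hXH hw3)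
    -- `k` and `e`
    obtain ⟨k, hk⟩ : ∃ k : ℤ, k = ((v1 : ℤ) + v2 + v3) - (w1 + w2 + w3) := ⟨_, rfl⟩
    obtain ⟨e, he⟩ : ∃ e : ℤ, e = (ps M v1 + ps M v2 + ps M v3) -
      (ps M w1 + ps M w2 + ps M w3) := ⟨_, rfl⟩
    have hfe : f (tr (v1, v2, v3)) - f (tr (w1, w2, w3)) = (k, e) := by
      rw [hf, htr, hk, he]
      rfl
    have hbd : ∀ a : ℕ, a < H → 0 ≤ ph M a ∧ ph M a ≤ (H : ℝ) ^ 2 := by
      intro a ha
      have h1 := ph_bd hM (h := a) (Nat.cast_nonneg a)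
      refine ⟨h1.1, h1.2.trans ?_⟩
      have h2 : (a : ℝ) ≤ H := by exact_mod_cast ha.le
      exact pow_le_pow_left₀ (Nat.cast_nonneg a) h2 2
    have b1 := hbd v1 hv1
    have b2 := hbd v2 hv2
    have b3 := hbd v3 hv3
    have b4 := hbd w1 hw1
    have b5 := hbd w2 hw2
    have b6 := hbd w3 hw3
    obtain ⟨Φ, hΦ⟩ : ∃ Φ : ℝ, Φ = (ph M v1 + ph M v2 + ph M v3) -
      (ph M w1 + ph M w2 + ph M w3) := ⟨_, rfl⟩
    have hΦb : |Φ| ≤ 3 * (H : ℝ) ^ 2 := by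
      rw [abs_le, hΦ]
      constructor <;> linarith [b1.1, b1.2, b2.1, b2.2, b3.1, b3.2, b4.1, b4.2, b5.1, b5.2, b6.1, b6.2]
    have hkr : (k : ℝ) = ((v1 : ℝ) + v2 + v3) - (w1 + w2 + w3) := by
      rw [hk]; push_cast; ring
    have hfreq : fr m d (v1, v2, v3) - fr m d (w1, w2, w3) = (M * k - Φ) / M ^ 2 := by
      unfold fr
      simp only
      rw [fr_eq hm hd, fr_eq hm hd, fr_eq hm hd, fr_eq hm hd, fr_eq hm hd, fr_eq hm hd, ← hMdef, hkr,
        hΦ]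
      field_simp
      ring
    have hmain : |M * k - Φ| ≤ 1 := by
      rw [hfreq, abs_div, abs_of_pos (by positivity : (0 : ℝ) < M ^ 2), div_le_iff₀ (by positivity)]
        at hfr
      refine hfr.trans ?_
      rw [one_div, inv_mul_le_iff₀ hT0, mul_one]
      exact hT
    have hmain' := abs_le.mp hmain
    have hΦ' := abs_le.mp hΦb
    have hH2 : (1 : ℝ) ≤ (H : ℝ) ^ 2 := one_le_pow₀ hH0
    have hkb : |(k : ℝ)| ≤ 7 * (d : ℝ) * H ^ 2 / m := by
      have h1 : |M * (k : ℝ)| ≤ 7 * (H : ℝ) ^ 2 := by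
        rw [abs_le]
        constructor <;> linarith
      rw [abs_mul, abs_of_pos hM, hMdef] at h1
      rw [le_div_iff₀ hm0]
      have h2 : (m : ℝ) / d * |(k : ℝ)| * d = |(k : ℝ)| * m := by
        field_simp
      rw [← h2]
      calc (m : ℝ) / d * |(k : ℝ)| * d ≤ 7 * (H : ℝ) ^ 2 * d :=
            mul_le_mul_of_nonneg_right h1 hd0.le
        _ = _ := by ring
    have hkn : |k| ≤ (Kn : ℤ) := by
      have h1 : (|k|.toNat : ℝ) ≤ 7 * (d : ℝ) * H ^ 2 / m := by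
        have h2 : ((|k|.toNat : ℤ) : ℝ) = |(k : ℝ)| := by
          rw [Int.toNat_of_nonneg (abs_nonneg k), Int.cast_abs]
        have h3 : (|k|.toNat : ℝ) = ((|k|.toNat : ℤ) : ℝ) := by push_cast; rfl
        rw [h3, h2]
        exact hkb
      have h2 : |k|.toNat ≤ Kn := by
        rw [hKn]
        exact Nat.le_floor h1
      omega
    have heb : |(e : ℝ) - Φ| < 3 := by
      rw [he, hΦ]
      push_cast
      have := fun x => ps_le M x
      have := fun x => lt_ps M x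
      have c1 := ps_le M v1
      have c2 := ps_le M v2
      have c3 := ps_le M v3
      have c4 := ps_le M w1
      have c5 := ps_le M w2
      have c6 := ps_le M w3
      have d1 := lt_ps M v1
      have d2 := lt_ps M v2
      have d3 := lt_ps M v3
      have d4 := lt_ps M w1
      have d5 := lt_ps M w2
      have d6 := lt_ps M w3
      push_cast at c1 c2 c3 c4 c5 c6 d1 d2 d3 d4 d5 d6
      rw [abs_lt]
      constructor <;> linarith
    have heb' := abs_lt.mp heb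
    show f (tr (v1, v2, v3)) - f (tr (w1, w2, w3)) ∈ E
    rw [hfe, hE, Finset.mem_image]
    refine ⟨(k, e - ⌊M * k⌋), ?_, ?_⟩
    · rw [Finset.mem_product, Finset.mem_Icc, Finset.mem_Icc]
      have h1 := Int.floor_le (M * (k : ℝ))
      have h2 := Int.lt_floor_add_one (M * (k : ℝ))
      refine ⟨abs_le.mp hkn, ?_, ?_⟩
      · have h3 : ((-4 : ℤ) : ℝ) < ((e - ⌊M * (k : ℝ)⌋ : ℤ) : ℝ) := by
          push_cast
          linarith
        have h4 : (-4 : ℤ) < e - ⌊M * (k : ℝ)⌋ := by exact_mod_cast h3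
        exact h4.le
      · have h3 : ((e - ⌊M * (k : ℝ)⌋ : ℤ) : ℝ) < ((5 : ℤ) : ℝ) := by
          push_cast
          linarith
        have h4 : e - ⌊M * (k : ℝ)⌋ < 5 := by exact_mod_cast h3
        show e - ⌊M * (k : ℝ)⌋ ≤ 4
        omega
    · simp
  have hfib : ∀ c ∈ E, (P.filter fun p => f (tr p.1) - f (tr p.2) = c).card ≤
      cnt6 X' (ps M) := by
    intro c _
    rw [← hcnt6]
    refine le_trans ?_ (shift_le Z f c)
    refine Finset.card_le_card_of_injOn (fun p => (tr p.1, tr p.2)) ?_ ?_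
    · intro p hp
      rw [Finset.mem_coe, Finset.mem_filter, hP, Finset.mem_filter, Finset.mem_product] at hp
      rw [Finset.mem_coe, Finset.mem_filter, Finset.mem_product]
      refine ⟨⟨htrZ _ hp.1.1.1, htrZ _ hp.1.1.2⟩, ?_⟩
      show f (tr p.1) = f (tr p.2) + c
      rw [← hp.2]
      abel
    · intro p _ p' _ h
      simp only [Prod.mk.injEq] at h
      exact Prod.ext (htrinj h.1) (htrinj h.2)
  have hfinal := Finset.card_le_mul_card_image_of_maps_to hmaps _ hfib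
  have hfinal' : (P.card : ℝ) ≤ cnt6 X' (ps M) * E.card := by exact_mod_cast hfinal
  have hpairs : (pairs (X ×ˢ X ×ˢ X) (fr m d) (1 / T) : ℝ) = P.card := by
    rw [hP]
    rfl
  rw [hpairs]
  calc (P.card : ℝ) ≤ cnt6 X' (ps M) * E.card := hfinal'
    _ ≤ (C * (H : ℝ) ^ ε * (X.card : ℝ) ^ 3) * (126 * (1 + d * (H : ℝ) ^ 2 / m)) :=
        mul_le_mul hc hEcard (Nat.cast_nonneg _) (by positivity)
    _ = _ := by ring

end Pool.Agent.K9h65.SM6
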