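import Pool.Agent.K9h65.SM6.Stm

/-!
# Project SM6, second version: arbitrary subsets (`|X|³` in place of `H³`). Statements
-/

set_option autoImplicit false

open Finset

namespace Pool.Agent.K9h65.SM6

/-- the properties of `M X Y = Q⁻² ∑_p ‖F_X(p)‖² ‖F_Y(p)‖⁴` used in the induction, with the cardinalities -/
structure Sys2 (κ : ℝ) (U : Finset ℤ) (M : Finset ℤ → Finset ℤ → ℝ) : Prop where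
  nonneg : ∀ X Y, 0 ≤ M X Y
  triv : ∀ X ⊆ U, ∀ l : ℝ, 1 ≤ l → Di X l → M X X ≤ (2 * l) ^ 3 * (X.card : ℝ) ^ 3
  cs : ∀ X ⊆ U, ∀ Y ⊆ U, M X Y ^ 2 ≤ M Y X * M Y Y
  hold : ∀ X ⊆ U, ∀ Y ⊆ U, M X Y ^ 3 ≤ M X X * M Y Y ^ 2
  cong : ∀ X ⊆ U, ∀ Y ⊆ U, ∀ d lam m β : ℝ, 0 < d → 0 < lam → 1 ≤ m → 0 ≤ β → κ * m ^ 2 / d ≤ lam →
    Se X Y d → Di Y m → (∀ X' ⊆ X, Di X' lam → M X' Y ≤ β * X'.card) → M X Y ≤ 3 * β * X.card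
  split : ∀ X ⊆ U, ∀ Y ⊆ U, ∀ d q β : ℝ, 0 < d → 1 ≤ q → 0 ≤ β → Di Y d →
    (∀ Y' ⊆ Y, Di Y' (d / q) → M X Y' ≤ β * (Y'.card : ℝ) ^ 2) → M X Y ≤ (2 * q) ^ 3 * β * (Y.card : ℝ) ^ 2
  bn : ∀ X ⊆ U, ∀ (k : ℕ) (l β₁ β₂ : ℝ), 1 ≤ k → 0 < l → 0 ≤ β₁ → 0 ≤ β₂ → Di X l →
    (∀ X' ⊆ X, Di X' (l / k) → M X' X' ≤ β₁ * (X'.card : ℝ) ^ 3) →
    (∀ X' ⊆ X, ∀ X'' ⊆ X, Di X' (l / k) → Di X'' (l / k) → Se X' X'' (l / k) →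
      M X' X'' ≤ β₂ * X'.card * (X''.card : ℝ) ^ 2) →
    M X X ≤ (4 ^ 6 * β₁ + ((k : ℝ) + 1) ^ 8 * β₂) * (X.card : ℝ) ^ 3

/-- Leaf FOU2: the same `M` as in leaf FOU satisfies `Sys2` (small changes of `FOU.lean`: in `M_cong`, `M_split`, `M_bn` sum
`β |X_i|`, `β |Y_i|²`, `β₁ |X_i|³`, `β₂ |X_i| |X_j|²` over the blocks; `k + 1` blocks in place of `128`). -/
def S_FOU2 : Prop := ∀ (K : ℝ) (ψ : ℤ → ℤ) (g : ℤ → ℝ) (A B : ℤ), 1 ≤ K → A ≤ B → Good K ψ g A B →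
  ∃ M : Finset ℤ → Finset ℤ → ℝ, Sys2 (9 * K ^ 2) (Icc A B) M ∧ ∀ X ⊆ Icc A B, (cnt6 X ψ : ℝ) ≤ M X X

/-- Leaf REAL2 (helper65) -/
def S_REAL2 : Prop := ∀ κ ε : ℝ, 1 ≤ κ → 0 < ε → ∃ C : ℝ, 0 < C ∧
  ∀ (U : Finset ℤ) (M : Finset ℤ → Finset ℤ → ℝ), Sys2 κ U M → ∀ X ⊆ U, ∀ l : ℝ, 1 ≤ l → Di X l →
    M X X ≤ C * l ^ ε * (X.card : ℝ) ^ 3

/-- The sixth moment for arbitrary subsets -/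
def S_A2 : Prop := ∀ K ε : ℝ, 0 < ε → ∃ C : ℝ, 0 < C ∧ ∀ (ψ : ℤ → ℤ) (g : ℤ → ℝ) (A B : ℤ), A ≤ B →
  Good K ψ g A B → ∀ X ⊆ Icc A B, (cnt6 X ψ : ℝ) ≤ C * ((B : ℝ) - A + 1) ^ ε * (X.card : ℝ) ^ 3

/-- Leaf B2: `theorem sB2 : S_A2 → S_B2` (small changes of `B.lean`: triples of elements of `X ⊆ range H`) -/
def S_B2 : Prop := ∀ ε : ℝ, 0 < ε → ∃ C : ℝ, 0 < C ∧ ∀ (m d H : ℕ) (X : Finset ℕ) (T : ℝ), 1 ≤ m → 1 ≤ d →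
  1 ≤ H → X ⊆ range H → d * (H - 1) ≤ m → ((m : ℝ) / d) ^ 2 ≤ T →
  (pairs (X ×ˢ X ×ˢ X) (fr m d) (1 / T) : ℝ) ≤
    C * (1 + d * (H : ℝ) ^ 2 / m) * (H : ℝ) ^ ε * (X.card : ℝ) ^ 3

end Pool.Agent.K9h65.SM6
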