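import Mathlib
import Pool.Agent.K9h65.SM6.FOU
import Pool.Agent.K9h65.SM6.Stm2

/-!
# Leaf FOU2: finite Fourier sums on `(ℤ/Q)²` satisfy the structure `Sys2`
-/

set_option autoImplicit false

open Finset
open scoped ComplexConjugate

namespace Pool.Agent.K9h65.SM6

namespace FOU

variable {Q : ℕ} [NeZero Q]

omit [NeZero Q] in
/-- the cardinalities of the fibres -/
lemma sum_fib (X : Finset ℤ) (b : ℤ → ℤ) :
    ∑ i ∈ X.image b, ((X.filter fun x => b x = i).card : ℝ) = X.card := by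
  have h := Finset.card_eq_sum_card_image b X
  exact_mod_cast h.symm

omit [NeZero Q] in
lemma fib_le (X : Finset ℤ) (b : ℤ → ℤ) (i : ℤ) :
    ((X.filter fun x => b x = i).card : ℝ) ≤ X.card := by
  exact_mod_cast Finset.card_le_card (Finset.filter_subset _ _)

omit [NeZero Q] in
lemma sum_fib_pow (X : Finset ℤ) (b : ℤ → ℤ) (m : ℕ) :
    ∑ i ∈ X.image b, ((X.filter fun x => b x = i).card : ℝ) ^ (m + 1) ≤ (X.card : ℝ) ^ (m + 1) := by
  calc _ ≤ ∑ i ∈ X.image b, ((X.filter fun x => b x = i).card : ℝ) * (X.card : ℝ) ^ m := by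
        apply Finset.sum_le_sum
        intro i _
        rw [pow_succ, mul_comm]
        apply mul_le_mul_of_nonneg_left _ (by positivity)
        exact pow_le_pow_left₀ (by positivity) (fib_le X b i) m
    _ = (X.card : ℝ) ^ (m + 1) := by
        rw [← Finset.sum_mul, sum_fib, pow_succ, mul_comm]

lemma M_triv2 (ψ : ℤ → ℤ) (X : Finset ℤ) (l : ℝ) (hl : 1 ≤ l) (hX : Di X l) :
    M Q ψ X X ≤ (2 * l) ^ 3 * (X.card : ℝ) ^ 3 := by
  apply M_le_of
  intro p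
  have h0 : ‖F ψ X p‖ ≤ X.card := norm_F_le ψ X p
  have h1 : (X.card : ℝ) ≤ 2 * l := (card_le_of_Di (by linarith) hX).trans (by linarith)
  calc ‖F ψ X p‖ ^ 2 * ‖F ψ X p‖ ^ 4 ≤ (X.card : ℝ) ^ 2 * (X.card : ℝ) ^ 4 := by gcongr
    _ = (X.card : ℝ) ^ 3 * (X.card : ℝ) ^ 3 := by ring
    _ ≤ (2 * l) ^ 3 * (X.card : ℝ) ^ 3 := by gcongr

lemma M_split2 (ψ : ℤ → ℤ) (X Y : Finset ℤ) (d q β : ℝ) (hd : 0 < d) (hq : 1 ≤ q) (hβ : 0 ≤ β) (hY : Di Y d)
    (h : ∀ Y' ⊆ Y, Di Y' (d / q) → M Q ψ X Y' ≤ β * (Y'.card : ℝ) ^ 2) :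
    M Q ψ X Y ≤ (2 * q) ^ 3 * β * (Y.card : ℝ) ^ 2 := by
  rcases Y.eq_empty_or_nonempty with rfl | hYn
  · rw [M_empty']
    positivity
  have hdq : 0 < d / q := by positivity
  set b := blk (Y.min' hYn) (d / q) with hb
  set I := Y.image b with hI
  have hcard : (I.card : ℝ) ≤ 2 * q := by
    have := blk_card hYn hd.le hdq hY
    rw [← hb, ← hI] at this
    have e1 : d / (d / q) = q := by field_simp
    rw [e1] at this
    linarith
  have h1 : ∀ p : ZMod Q × ZMod Q, ‖F ψ Y p‖ ^ 4 ≤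
      (I.card : ℝ) ^ 3 * ∑ i ∈ I, ‖F ψ (Y.filter fun y => b y = i) p‖ ^ 4 := by
    intro p
    calc ‖F ψ Y p‖ ^ 4 = ‖∑ i ∈ I, F ψ (Y.filter fun y => b y = i) p‖ ^ 4 := by
          rw [F_blocks ψ Y b p]
      _ ≤ (∑ i ∈ I, ‖F ψ (Y.filter fun y => b y = i) p‖) ^ (3 + 1) := by
          apply pow_le_pow_left₀ (norm_nonneg _)
          exact norm_sum_le _ _
      _ ≤ _ := pow_sum_le_card_mul_sum_pow (fun i _ => norm_nonneg _) 3
  have h2 : M Q ψ X Y ≤ (I.card : ℝ) ^ 3 * ∑ i ∈ I, M Q ψ X (Y.filter fun y => b y = i) := by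
    unfold M
    rw [← Finset.mul_sum, ← mul_assoc, mul_comm ((I.card : ℝ) ^ 3), mul_assoc]
    apply mul_le_mul_of_nonneg_left _ (by positivity)
    rw [Finset.sum_comm, Finset.mul_sum]
    apply Finset.sum_le_sum
    intro p _
    calc ‖F ψ X p‖ ^ 2 * ‖F ψ Y p‖ ^ 4 ≤ ‖F ψ X p‖ ^ 2 *
          ((I.card : ℝ) ^ 3 * ∑ i ∈ I, ‖F ψ (Y.filter fun y => b y = i) p‖ ^ 4) :=
          mul_le_mul_of_nonneg_left (h1 p) (by positivity)
      _ = _ := by
        rw [← Finset.mul_sum]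
        ring
  have h3 : ∑ i ∈ I, M Q ψ X (Y.filter fun y => b y = i) ≤ β * (Y.card : ℝ) ^ 2 := by
    calc _ ≤ ∑ i ∈ I, β * ((Y.filter fun y => b y = i).card : ℝ) ^ 2 := by
          apply Finset.sum_le_sum
          intro i _
          apply h _ (Finset.filter_subset _ _)
          intro x hx y hy
          rw [Finset.mem_filter] at hx hy
          exact blk_close hdq (hx.2.trans hy.2.symm)
      _ = β * ∑ i ∈ I, ((Y.filter fun y => b y = i).card : ℝ) ^ 2 := by rw [Finset.mul_sum]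
      _ ≤ β * (Y.card : ℝ) ^ 2 := mul_le_mul_of_nonneg_left (sum_fib_pow Y b 1) hβ
  calc M Q ψ X Y ≤ (I.card : ℝ) ^ 3 * (β * (Y.card : ℝ) ^ 2) :=
        h2.trans (mul_le_mul_of_nonneg_left h3 (by positivity))
    _ = (I.card : ℝ) ^ 3 * β * (Y.card : ℝ) ^ 2 := by ring
    _ ≤ (2 * q) ^ 3 * β * (Y.card : ℝ) ^ 2 := by gcongr

omit [NeZero Q] in
/-- the broad-narrow inequality -/
lemma broad2 {ι : Type} [DecidableEq ι] (I : Finset ι) (near : ι → ι → Prop) [DecidableRel near]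
    (f : ι → ℂ) (N : ℝ) (hcR : (I.card : ℝ) ≤ N)
    (hnear : ∀ i ∈ I, (I.filter fun j => near i j).card ≤ 3) :
    ‖∑ i ∈ I, f i‖ ^ 6 ≤ 4 ^ 6 * ∑ i ∈ I, ‖f i‖ ^ 6 +
      N ^ 8 * ∑ i ∈ I, ∑ j ∈ I.filter (fun j => ¬ near i j), ‖f j‖ ^ 2 * ‖f i‖ ^ 4 := by
  have hN0 : 0 ≤ N := le_trans (Nat.cast_nonneg _) hcR
  rcases I.eq_empty_or_nonempty with rfl | hI
  · simp
  obtain ⟨i, hi, hmax⟩ := Finset.exists_max_image I (fun i => ‖f i‖) hI
  set G := ‖∑ i ∈ I, f i‖ with hG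
  have hG0 : 0 ≤ G := norm_nonneg _
  have hs1 : 0 ≤ ∑ i ∈ I, ‖f i‖ ^ 6 := Finset.sum_nonneg fun _ _ => by positivity
  have hs2 : 0 ≤ ∑ i ∈ I, ∑ j ∈ I.filter (fun j => ¬ near i j), ‖f j‖ ^ 2 * ‖f i‖ ^ 4 :=
    Finset.sum_nonneg fun _ _ => Finset.sum_nonneg fun _ _ => by positivity
  have hs3 : 0 ≤ N ^ 8 * ∑ i ∈ I, ∑ j ∈ I.filter (fun j => ¬ near i j), ‖f j‖ ^ 2 * ‖f i‖ ^ 4 :=
    mul_nonneg (by positivity) hs2
  have hGi : G ≤ N * ‖f i‖ := by
    calc G ≤ ∑ j ∈ I, ‖f j‖ := norm_sum_le _ _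
      _ ≤ ∑ j ∈ I, ‖f i‖ := Finset.sum_le_sum fun j hj => hmax j hj
      _ = I.card * ‖f i‖ := by rw [Finset.sum_const, nsmul_eq_mul]
      _ ≤ N * ‖f i‖ := by gcongr
  by_cases hc : G ≤ 4 * ‖f i‖
  · have h1 : G ^ 6 ≤ 4 ^ 6 * ‖f i‖ ^ 6 := by
      calc G ^ 6 ≤ (4 * ‖f i‖) ^ 6 := by gcongr
        _ = _ := by ring
    have h2 : ‖f i‖ ^ 6 ≤ ∑ i ∈ I, ‖f i‖ ^ 6 :=
      Finset.single_le_sum (f := fun i => ‖f i‖ ^ 6) (fun _ _ => by positivity) hi
    nlinarith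
  · push Not at hc
    have hN4 : 4 ≤ N := by
      by_contra hlt
      push Not at hlt
      have : N * ‖f i‖ ≤ 4 * ‖f i‖ := by gcongr
      linarith
    -- some far `j` has `‖f j‖ ≥ G / (4 N)`
    have h3 : G ≤ ∑ j ∈ I.filter (fun j => near i j), ‖f j‖ +
        ∑ j ∈ I.filter (fun j => ¬ near i j), ‖f j‖ := by
      rw [Finset.sum_filter_add_sum_filter_not]
      exact norm_sum_le _ _
    have h4 : ∑ j ∈ I.filter (fun j => near i j), ‖f j‖ ≤ 3 * ‖f i‖ := by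
      calc _ ≤ ∑ j ∈ I.filter (fun j => near i j), ‖f i‖ :=
            Finset.sum_le_sum fun j hj => hmax j (Finset.mem_filter.mp hj).1
        _ = ((I.filter (fun j => near i j)).card : ℝ) * ‖f i‖ := by rw [Finset.sum_const, nsmul_eq_mul]
        _ ≤ 3 * ‖f i‖ := by
          have : ((I.filter (fun j => near i j)).card : ℝ) ≤ 3 := by exact_mod_cast hnear i hi
          gcongr
    have h5 : G / 4 < ∑ j ∈ I.filter (fun j => ¬ near i j), ‖f j‖ := by linarith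
    have hNpos : 0 < N := by linarith
    obtain ⟨j, hj, hj2⟩ : ∃ j ∈ I.filter (fun j => ¬ near i j), G / (4 * N) ≤ ‖f j‖ := by
      by_contra hcon
      push Not at hcon
      have h6 : ∑ j ∈ I.filter (fun j => ¬ near i j), ‖f j‖ ≤
          ∑ j ∈ I.filter (fun j => ¬ near i j), G / (4 * N) := Finset.sum_le_sum fun j hj => (hcon j hj).le
      rw [Finset.sum_const, nsmul_eq_mul] at h6
      have h7 : ((I.filter (fun j => ¬ near i j)).card : ℝ) ≤ N := by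
        have : ((I.filter (fun j => ¬ near i j)).card : ℝ) ≤ I.card := by
          exact_mod_cast Finset.card_le_card (Finset.filter_subset _ _)
        linarith
      have h8 : ((I.filter (fun j => ¬ near i j)).card : ℝ) * (G / (4 * N)) ≤ N * (G / (4 * N)) := by
        gcongr
      have h9 : N * (G / (4 * N)) = G / 4 := by field_simp
      linarith
    have h8 : G ≤ 4 * N * ‖f j‖ := by
      rw [div_le_iff₀ (by positivity)] at hj2
      linarith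
    have hN2 : 16 * N ^ 6 ≤ N ^ 8 := by
      have : (16 : ℝ) ≤ N ^ 2 := by nlinarith
      calc 16 * N ^ 6 ≤ N ^ 2 * N ^ 6 := by gcongr
        _ = N ^ 8 := by ring
    have h9 : G ^ 6 ≤ N ^ 8 * (‖f j‖ ^ 2 * ‖f i‖ ^ 4) := by
      calc G ^ 6 = G ^ 2 * G ^ 4 := by ring
        _ ≤ (4 * N * ‖f j‖) ^ 2 * (N * ‖f i‖) ^ 4 := by gcongr
        _ = 16 * N ^ 6 * (‖f j‖ ^ 2 * ‖f i‖ ^ 4) := by ring
        _ ≤ _ := by
          apply mul_le_mul_of_nonneg_right hN2 (by positivity)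
    have h10 : ‖f j‖ ^ 2 * ‖f i‖ ^ 4 ≤
        ∑ i ∈ I, ∑ j ∈ I.filter (fun j => ¬ near i j), ‖f j‖ ^ 2 * ‖f i‖ ^ 4 := by
      calc _ ≤ ∑ j ∈ I.filter (fun j => ¬ near i j), ‖f j‖ ^ 2 * ‖f i‖ ^ 4 :=
            Finset.single_le_sum (f := fun j => ‖f j‖ ^ 2 * ‖f i‖ ^ 4) (fun _ _ => by positivity) hj
        _ ≤ _ := Finset.single_le_sum
            (f := fun i => ∑ j ∈ I.filter (fun j => ¬ near i j), ‖f j‖ ^ 2 * ‖f i‖ ^ 4)
            (fun _ _ => Finset.sum_nonneg fun _ _ => by positivity) hi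
    have h11 : N ^ 8 * (‖f j‖ ^ 2 * ‖f i‖ ^ 4) ≤
        N ^ 8 * ∑ i ∈ I, ∑ j ∈ I.filter (fun j => ¬ near i j), ‖f j‖ ^ 2 * ‖f i‖ ^ 4 :=
      mul_le_mul_of_nonneg_left h10 (by positivity)
    linarith [mul_nonneg (by norm_num : (0 : ℝ) ≤ 4 ^ 6) hs1]

lemma M_bn2 (ψ : ℤ → ℤ) (X : Finset ℤ) (k : ℕ) (l β₁ β₂ : ℝ) (hk : 1 ≤ k) (hl : 0 < l) (hβ₁ : 0 ≤ β₁)
    (hβ₂ : 0 ≤ β₂) (hX : Di X l)
    (h1 : ∀ X' ⊆ X, Di X' (l / k) → M Q ψ X' X' ≤ β₁ * (X'.card : ℝ) ^ 3)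
    (h2 : ∀ X' ⊆ X, ∀ X'' ⊆ X, Di X' (l / k) → Di X'' (l / k) → Se X' X'' (l / k) →
      M Q ψ X' X'' ≤ β₂ * X'.card * (X''.card : ℝ) ^ 2) :
    M Q ψ X X ≤ (4 ^ 6 * β₁ + ((k : ℝ) + 1) ^ 8 * β₂) * (X.card : ℝ) ^ 3 := by
  have hk0 : (0 : ℝ) < k := by exact_mod_cast hk
  rcases X.eq_empty_or_nonempty with rfl | hXn
  · rw [M_empty]
    positivity
  have hlam : 0 < l / k := by positivity
  set b := blk (X.min' hXn) (l / k) with hb
  set I := X.image b with hI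
  have hcR : (I.card : ℝ) ≤ k + 1 := by
    have := blk_card hXn hl.le hlam hX
    rw [← hb, ← hI] at this
    have e1 : l / (l / k) = k := by field_simp
    rw [e1] at this
    linarith
  have hDi : ∀ i, Di (X.filter fun x => b x = i) (l / k) := by
    intro i x hx y hy
    rw [Finset.mem_filter] at hx hy
    exact blk_close hlam (hx.2.trans hy.2.symm)
  have hSe : ∀ i j, ¬ (|i - j| ≤ 1) →
      Se (X.filter fun x => b x = j) (X.filter fun x => b x = i) (l / k) := by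
    intro i j hij
    rw [abs_le, not_and_or] at hij
    rcases hij with hij | hij
    · left
      intro x hx y hy
      rw [Finset.mem_filter] at hx hy
      apply blk_far (a := X.min' hXn) hlam
      rw [← hb, hx.2, hy.2]
      omega
    · right
      intro x hx y hy
      rw [Finset.mem_filter] at hx hy
      have := blk_far (a := X.min' hXn) (x := y) (y := x) hlam (by rw [← hb, hx.2, hy.2]; omega)
      linarith
  have hnear : ∀ i ∈ I, (I.filter fun j => |i - j| ≤ 1).card ≤ 3 := by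
    intro i _
    have : (I.filter fun j => |i - j| ≤ 1) ⊆ Icc (i - 1) (i + 1) := by
      intro j hj
      rw [Finset.mem_filter, abs_le] at hj
      rw [Finset.mem_Icc]
      omega
    have h3 := Finset.card_le_card this
    rw [Int.card_Icc] at h3
    omega
  have hp : ∀ p : ZMod Q × ZMod Q, ‖F ψ X p‖ ^ 2 * ‖F ψ X p‖ ^ 4 ≤
      4 ^ 6 * ∑ i ∈ I, ‖F ψ (X.filter fun x => b x = i) p‖ ^ 2 * ‖F ψ (X.filter fun x => b x = i) p‖ ^ 4 +
      ((k : ℝ) + 1) ^ 8 * ∑ i ∈ I, ∑ j ∈ I.filter (fun j => ¬ (|i - j| ≤ 1)),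
        ‖F ψ (X.filter fun x => b x = j) p‖ ^ 2 * ‖F ψ (X.filter fun x => b x = i) p‖ ^ 4 := by
    intro p
    have h := broad2 I (fun i j => |i - j| ≤ 1) (fun i => F ψ (X.filter fun x => b x = i) p)
      ((k : ℝ) + 1) hcR hnear
    rw [← F_blocks ψ X b p] at h
    have e1 : ‖F ψ X p‖ ^ 2 * ‖F ψ X p‖ ^ 4 = ‖F ψ X p‖ ^ 6 := by ring
    have e2 : ∀ i, ‖F ψ (X.filter fun x => b x = i) p‖ ^ 2 * ‖F ψ (X.filter fun x => b x = i) p‖ ^ 4 =
        ‖F ψ (X.filter fun x => b x = i) p‖ ^ 6 := fun i => by ring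
    rw [e1]
    simp only [e2]
    exact h
  have hM : M Q ψ X X ≤ 4 ^ 6 * ∑ i ∈ I, M Q ψ (X.filter fun x => b x = i) (X.filter fun x => b x = i) +
      ((k : ℝ) + 1) ^ 8 * ∑ i ∈ I, ∑ j ∈ I.filter (fun j => ¬ (|i - j| ≤ 1)),
        M Q ψ (X.filter fun x => b x = j) (X.filter fun x => b x = i) := by
    unfold M
    simp_rw [← Finset.mul_sum]
    have e3 : (4 : ℝ) ^ 6 * (((Q : ℝ) ^ 2)⁻¹ * ∑ i ∈ I, ∑ p : ZMod Q × ZMod Q,
        ‖F ψ (X.filter fun x => b x = i) p‖ ^ 2 * ‖F ψ (X.filter fun x => b x = i) p‖ ^ 4) +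
        ((k : ℝ) + 1) ^ 8 * (((Q : ℝ) ^ 2)⁻¹ * ∑ i ∈ I, ∑ j ∈ I.filter (fun j => ¬ (|i - j| ≤ 1)),
          ∑ p : ZMod Q × ZMod Q,
          ‖F ψ (X.filter fun x => b x = j) p‖ ^ 2 * ‖F ψ (X.filter fun x => b x = i) p‖ ^ 4) =
        ((Q : ℝ) ^ 2)⁻¹ * ∑ p : ZMod Q × ZMod Q, (4 ^ 6 * ∑ i ∈ I,
          ‖F ψ (X.filter fun x => b x = i) p‖ ^ 2 * ‖F ψ (X.filter fun x => b x = i) p‖ ^ 4 +
          ((k : ℝ) + 1) ^ 8 * ∑ i ∈ I, ∑ j ∈ I.filter (fun j => ¬ (|i - j| ≤ 1)),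
          ‖F ψ (X.filter fun x => b x = j) p‖ ^ 2 * ‖F ψ (X.filter fun x => b x = i) p‖ ^ 4) := by
      rw [Finset.sum_add_distrib, ← Finset.mul_sum, ← Finset.mul_sum]
      rw [Finset.sum_comm (s := Finset.univ) (t := I)]
      have e4 : ∑ p : ZMod Q × ZMod Q, ∑ i ∈ I, ∑ j ∈ I.filter (fun j => ¬ (|i - j| ≤ 1)),
          ‖F ψ (X.filter fun x => b x = j) p‖ ^ 2 * ‖F ψ (X.filter fun x => b x = i) p‖ ^ 4 =
          ∑ i ∈ I, ∑ j ∈ I.filter (fun j => ¬ (|i - j| ≤ 1)), ∑ p : ZMod Q × ZMod Q,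
          ‖F ψ (X.filter fun x => b x = j) p‖ ^ 2 * ‖F ψ (X.filter fun x => b x = i) p‖ ^ 4 := by
        rw [Finset.sum_comm]
        refine Finset.sum_congr rfl fun i _ => ?_
        rw [Finset.sum_comm]
      rw [e4]
      ring
    rw [e3]
    exact mul_le_mul_of_nonneg_left (Finset.sum_le_sum fun p _ => hp p) (by positivity)
  have h3 : ∑ i ∈ I, M Q ψ (X.filter fun x => b x = i) (X.filter fun x => b x = i) ≤
      β₁ * (X.card : ℝ) ^ 3 := by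
    calc _ ≤ ∑ i ∈ I, β₁ * ((X.filter fun x => b x = i).card : ℝ) ^ 3 :=
          Finset.sum_le_sum fun i _ => h1 _ (Finset.filter_subset _ _) (hDi i)
      _ = β₁ * ∑ i ∈ I, ((X.filter fun x => b x = i).card : ℝ) ^ 3 := by rw [Finset.mul_sum]
      _ ≤ β₁ * (X.card : ℝ) ^ 3 := mul_le_mul_of_nonneg_left (sum_fib_pow X b 2) hβ₁
  have h4 : ∑ i ∈ I, ∑ j ∈ I.filter (fun j => ¬ (|i - j| ≤ 1)),
        M Q ψ (X.filter fun x => b x = j) (X.filter fun x => b x = i) ≤ β₂ * (X.card : ℝ) ^ 3 := by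
    calc _ ≤ ∑ i ∈ I, β₂ * X.card * ((X.filter fun x => b x = i).card : ℝ) ^ 2 := by
          apply Finset.sum_le_sum
          intro i _
          calc _ ≤ ∑ j ∈ I.filter (fun j => ¬ (|i - j| ≤ 1)),
                β₂ * ((X.filter fun x => b x = j).card : ℝ) * ((X.filter fun x => b x = i).card : ℝ) ^ 2 := by
                apply Finset.sum_le_sum
                intro j hj
                exact h2 _ (Finset.filter_subset _ _) _ (Finset.filter_subset _ _) (hDi j) (hDi i)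
                  (hSe i j (Finset.mem_filter.mp hj).2)
            _ ≤ ∑ j ∈ I,
                β₂ * ((X.filter fun x => b x = j).card : ℝ) * ((X.filter fun x => b x = i).card : ℝ) ^ 2 :=
              Finset.sum_le_sum_of_subset_of_nonneg (Finset.filter_subset _ _)
                (fun _ _ _ => by positivity)
            _ = β₂ * X.card * ((X.filter fun x => b x = i).card : ℝ) ^ 2 := by
              rw [← Finset.sum_mul, ← Finset.mul_sum, sum_fib]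
      _ = β₂ * X.card * ∑ i ∈ I, ((X.filter fun x => b x = i).card : ℝ) ^ 2 := by rw [Finset.mul_sum]
      _ ≤ β₂ * X.card * (X.card : ℝ) ^ 2 :=
        mul_le_mul_of_nonneg_left (sum_fib_pow X b 1) (by positivity)
      _ = β₂ * (X.card : ℝ) ^ 3 := by ring
  have h5 : (4 : ℝ) ^ 6 * ∑ i ∈ I, M Q ψ (X.filter fun x => b x = i) (X.filter fun x => b x = i) ≤
      4 ^ 6 * (β₁ * (X.card : ℝ) ^ 3) := mul_le_mul_of_nonneg_left h3 (by positivity)
  have h6 : ((k : ℝ) + 1) ^ 8 * ∑ i ∈ I, ∑ j ∈ I.filter (fun j => ¬ (|i - j| ≤ 1)),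
        M Q ψ (X.filter fun x => b x = j) (X.filter fun x => b x = i) ≤
      ((k : ℝ) + 1) ^ 8 * (β₂ * (X.card : ℝ) ^ 3) := mul_le_mul_of_nonneg_left h4 (by positivity)
  calc M Q ψ X X ≤ 4 ^ 6 * (β₁ * (X.card : ℝ) ^ 3) + ((k : ℝ) + 1) ^ 8 * (β₂ * (X.card : ℝ) ^ 3) := by
        linarith
    _ = _ := by ring

lemma M_cong2 {K : ℝ} {ψ : ℤ → ℤ} {g : ℤ → ℝ} {A B : ℤ} (hK : 1 ≤ K) (hG : Good K ψ g A B)
    (hQ : ∀ x ∈ Icc A B, 6 * |x| < Q ∧ 6 * |ψ x| < Q) (X : Finset ℤ) (hX : X ⊆ Icc A B)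
    (Y : Finset ℤ) (hY : Y ⊆ Icc A B) (d lam m β : ℝ) (hd : 0 < d) (hlam : 0 < lam)
    (hm : 1 ≤ m) (hβ : 0 ≤ β) (hκ : 9 * K ^ 2 * m ^ 2 / d ≤ lam) (hS : Se X Y d) (hYm : Di Y m)
    (h : ∀ X' ⊆ X, Di X' lam → M Q ψ X' Y ≤ β * X'.card) : M Q ψ X Y ≤ 3 * β * X.card := by
  rcases X.eq_empty_or_nonempty with rfl | hXn
  · rw [M_empty]
    positivity
  set b := blk (X.min' hXn) lam with hb
  have hpart : ∀ (P : ℤ → Prop) [DecidablePred P], (∀ i j : ℤ, P i → P j → i ≠ j → ¬ (i ≤ j + 1 ∧ j ≤ i + 1)) →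
      M Q ψ (X.filter fun x => P (b x)) Y ≤ β * ((X.filter fun x => P (b x)).card : ℝ) := by
    intro P _ hP
    rw [M_blocks ψ (X.filter fun x => P (b x)) Y b]
    · calc _ ≤ ∑ i ∈ (X.filter fun x => P (b x)).image b,
            β * (((X.filter fun x => P (b x)).filter fun x => b x = i).card : ℝ) := by
            apply Finset.sum_le_sum
            intro i _
            apply h
            · exact (Finset.filter_subset _ _).trans (Finset.filter_subset _ _)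
            · intro x hx y hy
              rw [Finset.mem_filter] at hx hy
              exact blk_close hlam (hx.2.trans hy.2.symm)
        _ = β * ((X.filter fun x => P (b x)).card : ℝ) := by
          rw [← Finset.mul_sum, sum_fib]
    · intro x hx x' hx' hne
      rw [Finset.mem_filter] at hx hx'
      apply close hK hG hQ hX hY hd hm hS hYm hx.1 hx'.1
      by_contra hcon
      push Not at hcon
      have h3 := blk_near (a := X.min' hXn) hlam (hcon.trans hκ)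
      exact hP _ _ hx.2 hx'.2 hne h3
  have h0 := hpart (fun i => i % 2 = 0) (by intro i j hi hj hne; omega)
  have h1 := hpart (fun i => ¬ i % 2 = 0) (by intro i j hi hj hne; omega)
  have hsum : M Q ψ X Y ≤ 2 * M Q ψ (X.filter fun x => b x % 2 = 0) Y +
      2 * M Q ψ (X.filter fun x => ¬ b x % 2 = 0) Y := by
    unfold M
    rw [← mul_assoc, ← mul_assoc, mul_comm (2 : ℝ), mul_assoc, mul_assoc, ← mul_add]
    apply mul_le_mul_of_nonneg_left _ (by positivity)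
    rw [Finset.mul_sum, Finset.mul_sum, ← Finset.sum_add_distrib]
    apply Finset.sum_le_sum
    intro p _
    have e1 : F ψ X p = F ψ (X.filter fun x => b x % 2 = 0) p + F ψ (X.filter fun x => ¬ b x % 2 = 0) p := by
      unfold F
      rw [Finset.sum_filter_add_sum_filter_not]
    have e2 : ‖F ψ X p‖ ^ 2 ≤ 2 * ‖F ψ (X.filter fun x => b x % 2 = 0) p‖ ^ 2 +
        2 * ‖F ψ (X.filter fun x => ¬ b x % 2 = 0) p‖ ^ 2 := by
      have e3 : ‖F ψ X p‖ ≤ ‖F ψ (X.filter fun x => b x % 2 = 0) p‖ +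
          ‖F ψ (X.filter fun x => ¬ b x % 2 = 0) p‖ := by
        rw [e1]
        exact norm_add_le _ _
      have e4 := pow_le_pow_left₀ (norm_nonneg _) e3 2
      nlinarith [sq_nonneg (‖F ψ (X.filter fun x => b x % 2 = 0) p‖ -
        ‖F ψ (X.filter fun x => ¬ b x % 2 = 0) p‖)]
    calc ‖F ψ X p‖ ^ 2 * ‖F ψ Y p‖ ^ 4 ≤ (2 * ‖F ψ (X.filter fun x => b x % 2 = 0) p‖ ^ 2 +
        2 * ‖F ψ (X.filter fun x => ¬ b x % 2 = 0) p‖ ^ 2) * ‖F ψ Y p‖ ^ 4 :=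
          mul_le_mul_of_nonneg_right e2 (by positivity)
      _ = _ := by ring
  have hc2 : ((X.filter fun x => b x % 2 = 0).card : ℝ) + ((X.filter fun x => ¬ b x % 2 = 0).card : ℝ) =
      X.card := by
    exact_mod_cast Finset.card_filter_add_card_filter_not (s := X) (p := fun x => b x % 2 = 0)
  calc M Q ψ X Y ≤ 2 * (β * ((X.filter fun x => b x % 2 = 0).card : ℝ)) +
        2 * (β * ((X.filter fun x => ¬ b x % 2 = 0).card : ℝ)) := by linarith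
    _ = 2 * β * X.card := by rw [← hc2]; ring
    _ ≤ 3 * β * X.card := by
      gcongr
      norm_num

end FOU

theorem sFOU2 : S_FOU2 := by
  intro K ψ g A B hK hAB hG
  set R : ℕ := ∑ x ∈ Icc A B, (x.natAbs + (ψ x).natAbs) with hR
  have : NeZero (6 * R + 1) := ⟨by omega⟩
  have hQ : ∀ x ∈ Icc A B, 6 * |x| < ((6 * R + 1 : ℕ) : ℤ) ∧ 6 * |ψ x| < ((6 * R + 1 : ℕ) : ℤ) := by
    intro x hx
    have h1 : x.natAbs + (ψ x).natAbs ≤ R :=
      Finset.single_le_sum (f := fun x : ℤ => x.natAbs + (ψ x).natAbs) (fun _ _ => by omega) hx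
    have h2 : |x| = (x.natAbs : ℤ) := Int.abs_eq_natAbs x
    have h3 : |ψ x| = ((ψ x).natAbs : ℤ) := Int.abs_eq_natAbs (ψ x)
    rw [h2, h3]
    push_cast
    constructor <;> omega
  refine ⟨FOU.M (6 * R + 1) ψ, ⟨?_, ?_, ?_, ?_, ?_, ?_, ?_⟩, fun X _ => FOU.cnt6_le X ψ⟩
  · exact fun X Y => FOU.M_nonneg ψ X Y
  · exact fun X _ l hl hX => FOU.M_triv2 ψ X l hl hX
  · exact fun X _ Y _ => FOU.M_cs ψ X Y
  · exact fun X _ Y _ => FOU.M_hold ψ X Y
  · exact fun X hX Y hY d lam m β hd hlam hm hβ hκ hS hYm h =>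
      FOU.M_cong2 hK hG hQ X hX Y hY d lam m β hd hlam hm hβ hκ hS hYm h
  · exact fun X _ Y _ d q β hd hq hβ hY h => FOU.M_split2 ψ X Y d q β hd hq hβ hY h
  · exact fun X _ k l β₁ β₂ hk hl hβ₁ hβ₂ hX h1 h2 => FOU.M_bn2 ψ X k l β₁ β₂ hk hl hβ₁ hβ₂ hX h1 h2

end Pool.Agent.K9h65.SM6
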