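import Pool.Agent.K9h65.SM6.A2
import Pool.Agent.K9h65.SM6.B2
import Pool.Agent.K9h65.SM6.C
import Pool.Agent.K9h65.SM6.D3
import Pool.Agent.K9h65.SM6.FOU2

/-!
# SM6: all the leaves of the second version together
-/

set_option autoImplicit false

namespace Pool.Agent.K9h65.SM6

theorem sAll2 : S_A2 := sA2 sFOU2

theorem bAll2 : S_B2 := sB2 sAll2

theorem final3 : D3.S_Final3 := D3.final3 bAll2 sC

end Pool.Agent.K9h65.SM6
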