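import Mathlib
import Pool.Agent.K9h65.SM6.Stm

/-!
# Project SM6, leaf D (helper64): the final deduction
-/

set_option autoImplicit false

open Finset

namespace Pool.Agent.K9h65.SM6

lemma sD_D (N m d H : ℕ) (a : ℕ → ℂ) (t : ℝ) (hm : 1 ≤ m) (hd : 1 ≤ d)
    (hN : m + d * (H - 1) ≤ N) (hs : ∀ n ∈ Icc 1 N, a n ≠ 0 → ∃ h < H, n = m + d * h) :
    D N a t = ∑ h ∈ range H, a (m + d * h) *
      Complex.exp (-(Complex.I * (t : ℂ) * (Real.log ((m:ℝ) + d * h) : ℂ))) := by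
  unfold D
  have himg : (range H).image (fun h => m + d * h) ⊆ Icc 1 N := by
    intro n hn
    simp only [mem_image, mem_range] at hn
    obtain ⟨h, hh, rfl⟩ := hn
    rw [mem_Icc]
    refine ⟨by omega, ?_⟩
    calc m + d * h ≤ m + d * (H - 1) := by gcongr; omega
      _ ≤ N := hN
  rw [← Finset.sum_subset himg]
  · rw [Finset.sum_image]
    · refine Finset.sum_congr rfl fun h _ => ?_
      push_cast; rfl
    · intro x _ y _ hxy
      simp only at hxy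
      exact Nat.eq_of_mul_eq_mul_left hd (by omega : d * x = d * y)
  · intro n hn hn'
    by_contra hne
    have ha : a n ≠ 0 := by
      intro h0; apply hne; rw [h0, zero_mul]
    obtain ⟨h, hh, rfl⟩ := hs n hn ha
    exact hn' (mem_image.mpr ⟨h, mem_range.mpr hh, rfl⟩)

lemma sD_norm_exp (t : ℝ) (x : ℝ) : ‖Complex.exp (-(Complex.I * (t : ℂ) * (x : ℂ)))‖ = 1 := by
  rw [Complex.norm_exp]
  simp

lemma sD_cube (m d H : ℕ) (a : ℕ → ℂ) (t : ℝ) :
    (∑ h ∈ range H, a (m + d * h) *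
      Complex.exp (-(Complex.I * (t : ℂ) * (Real.log ((m:ℝ) + d * h) : ℂ)))) ^ 3 =
    ∑ v ∈ tri H, (a (m + d * v.1) * a (m + d * v.2.1) * a (m + d * v.2.2)) *
      Complex.exp (-(Complex.I * (t : ℂ) * (fr m d v : ℂ))) := by
  unfold tri
  rw [pow_succ, pow_two, mul_assoc, Finset.sum_mul_sum, Finset.sum_mul_sum, Finset.sum_product]
  refine Finset.sum_congr rfl fun h1 _ => ?_
  rw [Finset.sum_product]
  simp only [Finset.mul_sum]
  refine Finset.sum_congr rfl fun h2 _ => Finset.sum_congr rfl fun h3 _ => ?_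
  have e : Complex.exp (-(Complex.I * (t : ℂ) * (fr m d (h1, h2, h3) : ℂ))) =
      Complex.exp (-(Complex.I * (t : ℂ) * (Real.log ((m:ℝ) + d * h1) : ℂ))) *
      Complex.exp (-(Complex.I * (t : ℂ) * (Real.log ((m:ℝ) + d * h2) : ℂ))) *
      Complex.exp (-(Complex.I * (t : ℂ) * (Real.log ((m:ℝ) + d * h3) : ℂ))) := by
    unfold fr
    rw [← Complex.exp_add, ← Complex.exp_add]
    congr 1
    push_cast
    ring
  rw [e]
  ring

lemma sD_sep (T : ℝ) (hT : 1 ≤ T) (S : Finset ℝ) (hS : ∀ t ∈ S, 0 ≤ t ∧ t ≤ T)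
    (hS1 : ∀ t ∈ S, ∀ u ∈ S, t ≠ u → 1 ≤ |t - u|) : (S.card : ℝ) ≤ 2 * T := by
  have h1 : S.card ≤ (range (⌊T⌋₊ + 1)).card := by
    refine Finset.card_le_card_of_injOn (fun t => ⌊t⌋₊) ?_ ?_
    · intro t ht
      have h := hS t (Finset.mem_coe.mp ht)
      simp only [coe_range, Set.mem_Iio]
      exact Nat.lt_succ_of_le (Nat.floor_mono h.2)
    · intro t ht u hu htu
      by_contra hne
      have h := hS1 t (Finset.mem_coe.mp ht) u (Finset.mem_coe.mp hu) hne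
      have h0 := hS t (Finset.mem_coe.mp ht)
      have h0' := hS u (Finset.mem_coe.mp hu)
      simp only at htu
      have a1 := Nat.floor_le h0.1
      have a2 := Nat.lt_floor_add_one t
      have a3 := Nat.floor_le h0'.1
      have a4 := Nat.lt_floor_add_one u
      rw [htu] at a1 a2
      have : |t - u| < 1 := by rw [abs_lt]; constructor <;> linarith
      linarith
  rw [Finset.card_range] at h1
  have h2 : (S.card : ℝ) ≤ (⌊T⌋₊ : ℝ) + 1 := by exact_mod_cast h1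
  have h3 := Nat.floor_le (by linarith : 0 ≤ T)
  linarith

lemma sD_log (m d H N : ℕ) (hm : 1 ≤ m) (hmN : m + d * (H - 1) ≤ N) (hN2 : N ≤ 2 * m) (h : ℕ) (hh : h < H) :
    Real.log m ≤ Real.log ((m:ℝ) + d * h) ∧ Real.log ((m:ℝ) + d * h) ≤ Real.log m + 1 := by
  have hm0 : (0:ℝ) < m := by exact_mod_cast hm
  have h1 : m + d * h ≤ 2 * m := by
    calc m + d * h ≤ m + d * (H - 1) := by gcongr; omega
      _ ≤ 2 * m := by omega
  have h1' : (m:ℝ) + d * h ≤ 2 * m := by exact_mod_cast h1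
  have h2 : (m:ℝ) ≤ (m:ℝ) + d * h := by
    have : (0:ℝ) ≤ d * h := by positivity
    linarith
  refine ⟨Real.log_le_log hm0 h2, ?_⟩
  refine (Real.log_le_log (by linarith) h1').trans ?_
  rw [Real.log_mul (by norm_num) hm0.ne']
  have := Real.log_two_lt_d9
  linarith

theorem sD (hB : S_B) (hC : S_C) : S_Final := by
  intro ε hε
  obtain ⟨C1, hC1, hC⟩ := hC
  obtain ⟨C2, hC2, hB⟩ := hB (ε / 4) (by positivity)
  refine ⟨3 * C1 * C2 + 2, ?_⟩
  intro N m d H T V a hN hN2 hd hH hmN hdH hT hV hVN ha hsup S hS hS1 hSV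
  have hm : 1 ≤ m := by omega
  have hTe : (1:ℝ) ≤ T ^ ε := Real.one_le_rpow hT hε.le
  have hN0 : (0:ℝ) < N := by exact_mod_cast hN
  have hm0 : (0:ℝ) < m := by exact_mod_cast hm
  have hd1 : (1:ℝ) ≤ d := by exact_mod_cast hd
  have hH1 : (1:ℝ) ≤ H := by exact_mod_cast hH
  have hN1 : (1:ℝ) ≤ N := by exact_mod_cast hN
  have hX0 : 0 ≤ (N : ℝ) ^ 2 / V ^ 2 * T ^ ε := by positivity
  rcases S.eq_empty_or_nonempty with hSe | ⟨t0, ht0⟩
  · subst hSe
    simp only [Finset.card_empty, Nat.cast_zero]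
    positivity
  -- the sum over the short progression
  have hDt := fun t => sD_D N m d H a t hm hd hmN hsup
  have hVH : V ≤ H := by
    refine (hSV t0 ht0).trans ?_
    rw [hDt]
    refine (norm_sum_le _ _).trans ?_
    refine (Finset.sum_le_sum (fun h _ => (?_ : _ ≤ (1:ℝ)))).trans (by simp)
    rw [norm_mul, sD_norm_exp, mul_one]
    exact ha _
  have hNV : (N:ℝ) ≤ V ^ 2 := by
    calc (N:ℝ) = N * 1 := (mul_one _).symm
      _ ≤ N * T ^ ε := mul_le_mul_of_nonneg_left hTe hN0.le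
      _ ≤ V ^ 2 := hVN
  have hVH2 : V ^ 2 ≤ (H:ℝ) ^ 2 := pow_le_pow_left₀ hV.le hVH 2
  have hHN : H ≤ N := by
    have : H - 1 ≤ d * (H - 1) := Nat.le_mul_of_pos_left _ hd
    omega
  have hHN' : (H:ℝ) ≤ N := by exact_mod_cast hHN
  have hV2 : 0 < V ^ 2 := by positivity
  by_cases h4 : (N:ℝ) ≤ T ^ 4
  · -- large `T`
    set T' : ℝ := max T ((N:ℝ) ^ 2) with hT'
    have hT'1 : 1 ≤ T' := le_max_of_le_left hT
    have hT'0 : 0 < T' := by linarith
    have hc := hC (ℕ × ℕ × ℕ) (tri H) (fr m d)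
      (fun v => a (m + d * v.1) * a (m + d * v.2.1) * a (m + d * v.2.2)) T' S
      (by
        intro v _
        rw [norm_mul, norm_mul]
        exact mul_le_one₀ (mul_le_one₀ (ha _) (norm_nonneg _) (ha _)) (norm_nonneg _) (ha _))
      (by
        intro v hv w hw
        simp only [tri, mem_product, mem_range] at hv hw
        unfold fr
        have a1 := sD_log m d H N hm hmN hN2 v.1 hv.1
        have a2 := sD_log m d H N hm hmN hN2 v.2.1 hv.2.1
        have a3 := sD_log m d H N hm hmN hN2 v.2.2 hv.2.2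
        have b1 := sD_log m d H N hm hmN hN2 w.1 hw.1
        have b2 := sD_log m d H N hm hmN hN2 w.2.1 hw.2.1
        have b3 := sD_log m d H N hm hmN hN2 w.2.2 hw.2.2
        rw [abs_le]
        constructor <;> linarith [a1.1, a1.2, a2.1, a2.2, a3.1, a3.2, b1.1, b1.2, b2.1, b2.2, b3.1, b3.2])
      hT'1 (fun t ht => ⟨(hS t ht).1, (hS t ht).2.trans (le_max_left _ _)⟩) hS1
    have hRV : (S.card : ℝ) * V ^ 6 ≤ C1 * T' * pairs (tri H) (fr m d) (1 / T') := by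
      refine le_trans ?_ hc
      rw [← nsmul_eq_mul, ← Finset.sum_const]
      refine Finset.sum_le_sum fun t ht => ?_
      rw [← sD_cube, ← hDt, norm_pow, ← pow_mul]
      exact pow_le_pow_left₀ hV.le (hSV t ht) 6
    have hbb := hB m d H T' hm hd hH (by omega) (by
      have : (m:ℝ) / d ≤ N := by
        refine (div_le_self hm0.le hd1).trans ?_
        have : m ≤ N := by omega
        exact_mod_cast this
      exact (pow_le_pow_left₀ (by positivity) this 2).trans (le_max_right _ _))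
    have hH0 : (0:ℝ) < H := by linarith
    have hrp : (H:ℝ) ^ (3 + ε / 4) = (H:ℝ) ^ 3 * (H:ℝ) ^ (ε / 4) := by
      rw [Real.rpow_add hH0]
      congr 1
      exact_mod_cast Real.rpow_natCast (H:ℝ) 3
    rw [hrp] at hbb
    set E : ℝ := (H:ℝ) ^ (ε / 4) with hE
    have hE0 : 0 ≤ E := by positivity
    have hET : E ≤ T ^ ε := by
      calc E ≤ (N:ℝ) ^ (ε / 4) := Real.rpow_le_rpow hH0.le hHN' (by positivity)
        _ ≤ (T ^ 4) ^ (ε / 4) := Real.rpow_le_rpow hN0.le h4 (by positivity)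
        _ = T ^ ε := by
          rw [← Real.rpow_natCast T 4, ← Real.rpow_mul (by linarith)]
          congr 1
          push_cast
          ring
    -- `1 + d H² / m ≤ 3 d H² / N`
    have h5 : 1 + d * (H:ℝ) ^ 2 / m ≤ 3 * (d * (H:ℝ) ^ 2 / N) := by
      have i1 : (1:ℝ) ≤ d * (H:ℝ) ^ 2 / N := by
        rw [le_div_iff₀ hN0, one_mul]
        calc (N:ℝ) ≤ 1 * (H:ℝ) ^ 2 := by linarith
          _ ≤ d * (H:ℝ) ^ 2 := mul_le_mul_of_nonneg_right hd1 (by positivity)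
      have i2 : d * (H:ℝ) ^ 2 / m ≤ 2 * (d * (H:ℝ) ^ 2 / N) := by
        rw [← mul_div_assoc, div_le_div_iff₀ hm0 hN0]
        have : (N:ℝ) ≤ 2 * m := by exact_mod_cast hN2
        have hz : 0 ≤ d * (H:ℝ) ^ 2 := by positivity
        nlinarith
      linarith
    have h6 : (S.card : ℝ) * V ^ 6 ≤ 3 * C1 * C2 * (N:ℝ) ^ 4 * E := by
      calc (S.card : ℝ) * V ^ 6 ≤ C1 * T' * pairs (tri H) (fr m d) (1 / T') := hRV
        _ ≤ C1 * T' * (C2 * (1 + d * (H:ℝ) ^ 2 / m) * ((H:ℝ) ^ 3 * E)) :=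
            mul_le_mul_of_nonneg_left hbb (by positivity)
        _ ≤ C1 * T' * (C2 * (3 * (d * (H:ℝ) ^ 2 / N)) * ((H:ℝ) ^ 3 * E)) := by
            refine mul_le_mul_of_nonneg_left ?_ (by positivity)
            refine mul_le_mul_of_nonneg_right ?_ (by positivity)
            exact mul_le_mul_of_nonneg_left h5 hC2.le
        _ = 3 * C1 * C2 * (((d:ℝ) * (H:ℝ) ^ 5 * T') / N) * E := by ring
        _ ≤ 3 * C1 * C2 * ((N:ℝ) ^ 5 / N) * E := by
            refine mul_le_mul_of_nonneg_right ?_ hE0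
            refine mul_le_mul_of_nonneg_left ?_ (by positivity)
            exact div_le_div_of_nonneg_right hdH hN0.le
        _ = 3 * C1 * C2 * (N:ℝ) ^ 4 * E := by
            field_simp
    have h7 : (S.card : ℝ) * V ^ 2 * (N:ℝ) ^ 2 ≤ (S.card : ℝ) * V ^ 6 := by
      have : (N:ℝ) ^ 2 ≤ V ^ 4 := by
        calc (N:ℝ) ^ 2 ≤ (V ^ 2) ^ 2 := pow_le_pow_left₀ hN0.le hNV 2
          _ = V ^ 4 := by ring
      calc (S.card : ℝ) * V ^ 2 * (N:ℝ) ^ 2 ≤ (S.card : ℝ) * V ^ 2 * V ^ 4 :=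
            mul_le_mul_of_nonneg_left this (by positivity)
        _ = _ := by ring
    have h8 : (S.card : ℝ) * V ^ 2 ≤ 3 * C1 * C2 * (N:ℝ) ^ 2 * E := by
      have hN2' : (0:ℝ) < (N:ℝ) ^ 2 := by positivity
      refine le_of_mul_le_mul_right ?_ hN2'
      calc (S.card : ℝ) * V ^ 2 * (N:ℝ) ^ 2 ≤ 3 * C1 * C2 * (N:ℝ) ^ 4 * E := h7.trans h6
        _ = 3 * C1 * C2 * (N:ℝ) ^ 2 * E * (N:ℝ) ^ 2 := by ring
    have h9 : (S.card : ℝ) ≤ 3 * C1 * C2 * ((N:ℝ) ^ 2 / V ^ 2 * E) := by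
      have e : 3 * C1 * C2 * ((N:ℝ) ^ 2 / V ^ 2 * E) = (3 * C1 * C2 * (N:ℝ) ^ 2 * E) / V ^ 2 := by ring
      rw [e, le_div_iff₀ hV2]
      exact h8
    have h10 : (N:ℝ) ^ 2 / V ^ 2 * E ≤ (N:ℝ) ^ 2 / V ^ 2 * T ^ ε :=
      mul_le_mul_of_nonneg_left hET (by positivity)
    calc (S.card : ℝ) ≤ 3 * C1 * C2 * ((N:ℝ) ^ 2 / V ^ 2 * E) := h9
      _ ≤ 3 * C1 * C2 * ((N:ℝ) ^ 2 / V ^ 2 * T ^ ε) := mul_le_mul_of_nonneg_left h10 (by positivity)
      _ ≤ (3 * C1 * C2 + 2) * ((N:ℝ) ^ 2 / V ^ 2 * T ^ ε) := by nlinarith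
  · -- small `T`
    push Not at h4
    have h5 := sD_sep T hT S hS hS1
    have h6 : (H:ℝ) ^ 5 ≤ (N:ℝ) ^ 3 := by
      have h7 : (H:ℝ) ^ 5 * (N:ℝ) ^ 2 ≤ (N:ℝ) ^ 3 * (N:ℝ) ^ 2 := by
        calc (H:ℝ) ^ 5 * (N:ℝ) ^ 2 ≤ (d:ℝ) * (H:ℝ) ^ 5 * max T ((N : ℝ) ^ 2) := by
              refine mul_le_mul ?_ (le_max_right _ _) (by positivity) (by positivity)
              exact le_mul_of_one_le_left (by positivity) hd1
          _ ≤ (N:ℝ) ^ 5 := hdH
          _ = _ := by ring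
      exact le_of_mul_le_mul_right h7 (by positivity)
    have h8 : T * (H:ℝ) ^ 2 ≤ (N:ℝ) ^ 2 := by
      have h9 : (T * (H:ℝ) ^ 2) ^ 5 ≤ ((N:ℝ) ^ 2) ^ 5 := by
        calc (T * (H:ℝ) ^ 2) ^ 5 = T ^ 5 * ((H:ℝ) ^ 5) ^ 2 := by ring
          _ ≤ T ^ 8 * ((N:ℝ) ^ 3) ^ 2 := by
              refine mul_le_mul (pow_le_pow_right₀ hT (by norm_num)) (pow_le_pow_left₀ (by positivity) h6 2)
                (by positivity) (by positivity)
          _ = (T ^ 4) ^ 2 * (N:ℝ) ^ 6 := by ring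
          _ ≤ (N:ℝ) ^ 2 * (N:ℝ) ^ 6 := by
              refine mul_le_mul_of_nonneg_right (pow_le_pow_left₀ (by positivity) h4.le 2) (by positivity)
          _ = (N:ℝ) ^ 8 := by ring
          _ ≤ (N:ℝ) ^ 10 := pow_le_pow_right₀ hN1 (by norm_num)
          _ = ((N:ℝ) ^ 2) ^ 5 := by ring
      exact le_of_pow_le_pow_left₀ (by norm_num) (by positivity) h9
    have h10 : T ≤ (N:ℝ) ^ 2 / V ^ 2 := by
      rw [le_div_iff₀ hV2]
      exact (mul_le_mul_of_nonneg_left hVH2 (by linarith)).trans h8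
    have h11 : (N:ℝ) ^ 2 / V ^ 2 ≤ (N:ℝ) ^ 2 / V ^ 2 * T ^ ε :=
      le_mul_of_one_le_right (by positivity) hTe
    have h12 : 0 ≤ 3 * C1 * C2 * ((N:ℝ) ^ 2 / V ^ 2 * T ^ ε) := by positivity
    calc (S.card : ℝ) ≤ 2 * T := h5
      _ ≤ 2 * ((N:ℝ) ^ 2 / V ^ 2 * T ^ ε) := by linarith
      _ ≤ (3 * C1 * C2 + 2) * ((N:ℝ) ^ 2 / V ^ 2 * T ^ ε) := by linarith

end Pool.Agent.K9h65.SM6
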