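import Pool.Agent.K9h65.SM6.Stm

/-!
# SM6, leaf REAL: the induction on scales
-/

set_option autoImplicit false

open Finset

namespace Pool.Agent.K9h65.SM6

/-- the hypothesis on the sixth moments -/
def Hyp (U : Finset ℤ) (M : Finset ℤ → Finset ℤ → ℝ) (η A : ℝ) : Prop :=
  ∀ X ⊆ U, ∀ l : ℝ, 1 ≤ l → Di X l → M X X ≤ A * l ^ (3 + η)

/-- Claim `C_n` -/
def Cn (κ η : ℝ) (n : ℕ) (Γ : ℝ) : Prop := ∀ (U : Finset ℤ) (M : Finset ℤ → Finset ℤ → ℝ), Sys κ U M →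
  ∀ A : ℝ, 1 ≤ A → Hyp U M η A → ∀ q d l : ℝ, κ ≤ q → q ^ (2 ^ n) ≤ d → 1 ≤ l → l ≤ d →
    ∀ X ⊆ U, ∀ Y ⊆ U, Se X Y d → Di Y (d / q) → Di X l →
    M X Y ≤ Γ * A * (l + κ * d / q ^ 2) * (d / q) ^ 2 * d ^ η * q ^ (-(n * η / 2))

lemma Se.sub {X Y X' : Finset ℤ} {d : ℝ} (h : Se X Y d) (hX : X' ⊆ X) : Se Y X' d := by
  rcases h with h | h
  · right
    intro y hy x hx
    linarith [h x (hX hx) y hy]
  · left
    intro y hy x hx
    linarith [h x (hX hx) y hy]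

lemma Di.mono {X : Finset ℤ} {l l' : ℝ} (h : Di X l) (hl : l ≤ l') : Di X l' :=
  fun x hx y hy => (h x hx y hy).trans hl

theorem C0 {κ η : ℝ} (hκ : 1 ≤ κ) (hη : 0 ≤ η) : Cn κ η 0 6 := by
  intro U M hS A hA hH q d l hq hqd hl1 hld X hX Y hY hSe hDY hDX
  have hq1 : 1 ≤ q := hκ.trans hq
  have hq0 : 0 < q := by linarith
  have hqd' : q ≤ d := by simpa using hqd
  have hd0 : 0 < d := by linarith
  have hdq1 : 1 ≤ d / q := by rw [le_div_iff₀ hq0]; linarith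
  have hκd : κ * d / q ^ 2 ≤ d := by
    rw [div_le_iff₀ (by positivity)]
    have : κ ≤ q ^ 2 := by nlinarith
    nlinarith
  set lam : ℝ := max (κ * d / q ^ 2) 1 with hlam
  have hlam1 : 1 ≤ lam := le_max_right _ _
  have hlamd : lam ≤ d := max_le hκd (by linarith)
  have hdqd : d / q ≤ d := div_le_self hd0.le hq1
  have hdη : 0 < d ^ η := Real.rpow_pos_of_pos hd0 _
  have hpiece : ∀ X' ⊆ X, Di X' lam → M X' Y ≤ A * lam * (d / q) ^ 2 * d ^ η := by
    intro X' hX' hDX'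
    have h1 := hS.hold X' (hX'.trans hX) Y hY
    have h2 := hH X' (hX'.trans hX) lam hlam1 hDX'
    have h3 := hH Y hY (d / q) hdq1 hDY
    have h4 : lam ^ (3 + η) ≤ lam ^ 3 * d ^ η := by
      rw [Real.rpow_add (by linarith), show (3 : ℝ) = ((3 : ℕ) : ℝ) by norm_num, Real.rpow_natCast]
      exact mul_le_mul_of_nonneg_left (Real.rpow_le_rpow (by linarith) hlamd hη) (by positivity)
    have h5 : (d / q) ^ (3 + η) ≤ (d / q) ^ 3 * d ^ η := by
      rw [Real.rpow_add (by linarith), show (3 : ℝ) = ((3 : ℕ) : ℝ) by norm_num, Real.rpow_natCast]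
      exact mul_le_mul_of_nonneg_left (Real.rpow_le_rpow (by linarith) hdqd hη) (by positivity)
    have h6 : M X' Y ^ 3 ≤ (A * lam * (d / q) ^ 2 * d ^ η) ^ 3 := by
      calc M X' Y ^ 3 ≤ M X' X' * M Y Y ^ 2 := h1
        _ ≤ (A * (lam ^ 3 * d ^ η)) * (A * ((d / q) ^ 3 * d ^ η)) ^ 2 := by
            have hM1 := hS.nonneg X' X'
            have hM2 := hS.nonneg Y Y
            have h7 : M X' X' ≤ A * (lam ^ 3 * d ^ η) := h2.trans (by gcongr)
            have h8 : M Y Y ≤ A * ((d / q) ^ 3 * d ^ η) := h3.trans (by gcongr)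
            gcongr
        _ = _ := by ring
    exact le_of_pow_le_pow_left₀ (by norm_num) (by positivity) h6
  have h := hS.cong X hX Y hY d l lam (d / q) (A * lam * (d / q) ^ 2 * d ^ η) hd0 (by linarith) (by linarith)
    hdq1 (by
      have : κ * (d / q) ^ 2 / d = κ * d / q ^ 2 := by field_simp
      rw [this]; exact le_max_left _ _) hSe hDX hDY hpiece
  refine h.trans ?_
  have h1 : 3 * (l / lam + 1) * (A * lam * (d / q) ^ 2 * d ^ η) =
      3 * (l + lam) * (A * (d / q) ^ 2 * d ^ η) := by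
    have : lam ≠ 0 := by linarith
    field_simp
  have h2 : lam ≤ κ * d / q ^ 2 + l := by
    have h0 : 0 ≤ κ * d / q ^ 2 := by positivity
    exact max_le (by linarith) (by linarith)
  have h3 : 0 ≤ κ * d / q ^ 2 := by positivity
  rw [h1]
  calc 3 * (l + lam) * (A * (d / q) ^ 2 * d ^ η) ≤ 6 * (l + κ * d / q ^ 2) * (A * (d / q) ^ 2 * d ^ η) := by
        apply mul_le_mul_of_nonneg_right _ (by positivity)
        linarith
    _ = _ := by
        simp
        ring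

theorem Cstep {κ η : ℝ} (hκ : 1 ≤ κ) {n : ℕ} {Γ : ℝ} (hΓ : 0 ≤ Γ) (hC : Cn κ η n Γ) :
    Cn κ η (n + 1) (3 * √(2 * Γ * κ ^ (n * η / 2))) := by
  intro U M hS A hA hH q d l hq hqd hl1 hld X hX Y hY hSe hDY hDX
  have hq1 : 1 ≤ q := hκ.trans hq
  have hq0 : 0 < q := by linarith
  have hκ0 : 0 < κ := by linarith
  have hq2d : q ^ 2 ≤ d := by
    refine le_trans ?_ hqd
    apply pow_le_pow_right₀ hq1
    calc 2 = 2 ^ 1 := by norm_num
      _ ≤ 2 ^ (n + 1) := Nat.pow_le_pow_right (by norm_num) (by omega)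
  have hqq : q ≤ q ^ 2 := by nlinarith
  have hd0 : 0 < d := by nlinarith
  have hdq1 : 1 ≤ d / q := by rw [le_div_iff₀ hq0]; linarith
  have hdqd : d / q ≤ d := div_le_self hd0.le hq1
  set lam : ℝ := κ * d / q ^ 2 with hlam
  have hlamκ : κ ≤ lam := by
    rw [hlam, le_div_iff₀ (by positivity)]
    exact mul_le_mul_of_nonneg_left hq2d hκ0.le
  have hlam0 : 0 < lam := by linarith
  have hdη : 0 < d ^ η := Real.rpow_pos_of_pos hd0 _
  set q' : ℝ := q ^ 2 / κ with hq'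
  have hq'κ : κ ≤ q' := by
    rw [hq', le_div_iff₀ hκ0]
    nlinarith
  have hq'0 : 0 < q' := by linarith
  have hdq' : d / q' = lam := by
    rw [hq', hlam]; field_simp
  have hq'd : q' ^ (2 ^ n) ≤ d := by
    calc q' ^ (2 ^ n) ≤ (q ^ 2) ^ (2 ^ n) := by
          apply pow_le_pow_left₀ hq'0.le
          rw [hq']
          exact div_le_self (by positivity) hκ
      _ = q ^ (2 ^ (n + 1)) := by rw [← pow_mul]; congr 1; ring
      _ ≤ d := hqd
  set B : ℝ := √(2 * Γ * κ ^ (n * η / 2)) with hB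
  have hκp : 0 < κ ^ (n * η / 2) := Real.rpow_pos_of_pos hκ0 _
  have hB2 : B ^ 2 = 2 * Γ * κ ^ (n * η / 2) := by
    rw [hB, Real.sq_sqrt (by positivity)]
  have hB0 : 0 ≤ B := Real.sqrt_nonneg _
  have hqη : 0 < q ^ (-((n + 1 : ℕ) * η / 2)) := Real.rpow_pos_of_pos hq0 _
  have hpiece : ∀ X' ⊆ X, Di X' lam →
      M X' Y ≤ B * A * (d / q) ^ 2 * lam * d ^ η * q ^ (-((n + 1 : ℕ) * η / 2)) := by
    intro X' hX' hDX'
    have h1 := hS.cs X' (hX'.trans hX) Y hY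
    have h2 := hC U M hS A hA hH q' d (d / q) hq'κ hq'd hdq1 hdqd Y hY X' (hX'.trans hX) (hSe.sub hX')
      (by rw [hdq']; exact hDX') hDY
    have h3 := hH Y hY (d / q) hdq1 hDY
    have h4 : κ * d / q' ^ 2 ≤ d / q := by
      have : κ * d / q' ^ 2 = κ ^ 3 * d / q ^ 4 := by rw [hq']; field_simp
      rw [this, div_le_div_iff₀ (by positivity) hq0]
      have h5 : κ ^ 3 ≤ q ^ 3 := pow_le_pow_left₀ hκ0.le hq 3
      calc κ ^ 3 * d * q ≤ q ^ 3 * d * q := by gcongr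
        _ = d * q ^ 4 := by ring
    have h5 : q' ^ (-(n * η / 2)) = κ ^ (n * η / 2) * q ^ (-(n * η)) := by
      rw [hq', Real.div_rpow (by positivity) hκ0.le, Real.rpow_neg hκ0.le, div_inv_eq_mul,
        ← Real.rpow_natCast q 2, ← Real.rpow_mul hq0.le, mul_comm]
      congr 2
      push_cast
      ring
    have h6 : M Y X' ≤ 2 * Γ * κ ^ (n * η / 2) * A * (d / q) * lam ^ 2 * d ^ η * q ^ (-(n * η)) := by
      have hq2 : 0 < q ^ (-(n * η)) := Real.rpow_pos_of_pos hq0 _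
      rw [hdq', h5] at h2
      calc M Y X' ≤ _ := h2
        _ ≤ Γ * A * (d / q + d / q) * lam ^ 2 * d ^ η * (κ ^ (n * η / 2) * q ^ (-(n * η))) := by
            gcongr
        _ = _ := by ring
    have h7 : (d / q) ^ (3 + η) = (d / q) ^ 3 * (d ^ η * q ^ (-η)) := by
      rw [Real.rpow_add (by linarith), show (3 : ℝ) = ((3 : ℕ) : ℝ) by norm_num, Real.rpow_natCast,
        Real.div_rpow hd0.le hq0.le, Real.rpow_neg hq0.le]
      rfl
    have hq2 : 0 < q ^ (-(n * η)) := Real.rpow_pos_of_pos hq0 _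
    have hq3 : 0 < q ^ (-η) := Real.rpow_pos_of_pos hq0 _
    have h8 : M X' Y ^ 2 ≤ (B * A * (d / q) ^ 2 * lam * d ^ η * q ^ (-((n + 1 : ℕ) * η / 2))) ^ 2 := by
      calc M X' Y ^ 2 ≤ M Y X' * M Y Y := h1
        _ ≤ (2 * Γ * κ ^ (n * η / 2) * A * (d / q) * lam ^ 2 * d ^ η * q ^ (-(n * η))) *
            (A * ((d / q) ^ 3 * (d ^ η * q ^ (-η)))) := by
            rw [← h7]
            have := hS.nonneg Y Y
            have := hS.nonneg Y X'
            gcongr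
        _ = B ^ 2 * A ^ 2 * (d / q) ^ 4 * lam ^ 2 * (d ^ η) ^ 2 * (q ^ (-(n * η)) * q ^ (-η)) := by
            rw [hB2]; ring
        _ = B ^ 2 * A ^ 2 * (d / q) ^ 4 * lam ^ 2 * (d ^ η) ^ 2 * (q ^ (-((n + 1 : ℕ) * η / 2))) ^ 2 := by
            congr 1
            rw [← Real.rpow_add hq0, ← Real.rpow_natCast (q ^ _) 2, ← Real.rpow_mul hq0.le]
            congr 1
            push_cast
            ring
        _ = _ := by ring
    exact le_of_pow_le_pow_left₀ (by norm_num) (by positivity) h8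
  have h := hS.cong X hX Y hY d l lam (d / q) _ hd0 (by linarith) hlam0 hdq1
    (le_of_eq (by rw [hlam]; field_simp)) hSe hDX hDY hpiece
  refine h.trans (le_of_eq ?_)
  have : lam ≠ 0 := hlam0.ne'
  field_simp

theorem Call {κ η : ℝ} (hκ : 1 ≤ κ) (hη : 0 ≤ η) (n : ℕ) : ∃ Γ : ℝ, 0 ≤ Γ ∧ Cn κ η n Γ := by
  induction n with
  | zero => exact ⟨6, by norm_num, C0 hκ hη⟩
  | succ n ih =>
    obtain ⟨Γ, hΓ, h⟩ := ih
    exact ⟨_, by positivity, Cstep hκ hΓ h⟩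

/-- step (2) -/
theorem two {κ η : ℝ} (hκ : 1 ≤ κ) (hη : 0 ≤ η) (n : ℕ) (hn : 8 ≤ n * η) :
    ∃ C : ℝ, 1 ≤ C ∧ ∀ (U : Finset ℤ) (M : Finset ℤ → Finset ℤ → ℝ), Sys κ U M →
      ∀ A : ℝ, 1 ≤ A → Hyp U M η A → ∀ d : ℝ, 1 ≤ d → ∀ X ⊆ U, ∀ Y ⊆ U, Se X Y d → Di X d → Di Y d →
        M X Y ≤ C * A * d ^ (3 + η - 2 / 2 ^ n) := by
  obtain ⟨Γ, hΓ, hC⟩ := Call hκ hη n
  have hκ0 : 0 < κ := by linarith
  refine ⟨32 * Γ + (2 * κ ^ (2 ^ n)) ^ 6, ?_, ?_⟩
  · have h1 : 1 ≤ κ ^ (2 ^ n) := one_le_pow₀ hκ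
    have h2 : 1 ≤ (2 * κ ^ (2 ^ n)) ^ 6 := one_le_pow₀ (by linarith)
    linarith
  intro U M hS A hA hH d hd X hX Y hY hSe hDX hDY
  have hd0 : 0 < d := by linarith
  have h2n : (1 : ℝ) ≤ 2 ^ n := one_le_pow₀ (by norm_num)
  have h2n' : (2 : ℝ) / 2 ^ n ≤ 2 := div_le_self (by norm_num) h2n
  have hdp : 0 < d ^ (3 + η - 2 / 2 ^ n) := Real.rpow_pos_of_pos hd0 _
  rcases le_or_gt (κ ^ (2 ^ n)) d with hc | hc
  · set q : ℝ := d ^ (1 / (2 : ℝ) ^ n) with hq
    have hqd : q ^ (2 ^ n) = d := by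
      rw [hq, ← Real.rpow_natCast, ← Real.rpow_mul hd0.le]
      push_cast
      rw [one_div, inv_mul_cancel₀ (by positivity), Real.rpow_one]
    have hκq : κ ≤ q := by
      have h1 : κ ^ (2 ^ n) ≤ q ^ (2 ^ n) := by rw [hqd]; exact hc
      exact le_of_pow_le_pow_left₀ (by positivity) (by positivity) h1
    have hq1 : 1 ≤ q := hκ.trans hκq
    have hq0 : 0 < q := by linarith
    have hdη : 0 < d ^ η := Real.rpow_pos_of_pos hd0 _
    have hpiece : ∀ Y' ⊆ Y, Di Y' (d / q) → M X Y' ≤ Γ * A * (2 * d) * (d / q) ^ 2 * d ^ η * (q ^ 4)⁻¹ := by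
      intro Y' hY' hDY'
      have h1 := hC U M hS A hA hH q d d hκq hqd.le hd le_rfl X hX Y' (hY'.trans hY)
        (by
          rcases hSe with h | h
          · exact Or.inl fun x hx y hy => h x hx y (hY' hy)
          · exact Or.inr fun x hx y hy => h x hx y (hY' hy)) hDY' hDX
      have h2 : q ^ (-(n * η / 2)) ≤ (q ^ 4)⁻¹ := by
        rw [← Real.rpow_natCast, ← Real.rpow_neg hq0.le]
        apply Real.rpow_le_rpow_of_exponent_le hq1
        push_cast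
        linarith
      have h3 : κ * d / q ^ 2 ≤ d := by
        rw [div_le_iff₀ (by positivity)]
        have : κ ≤ q ^ 2 := by nlinarith
        nlinarith
      have h4 : 0 < q ^ (-(n * η / 2)) := Real.rpow_pos_of_pos hq0 _
      calc M X Y' ≤ _ := h1
        _ ≤ Γ * A * (d + d) * (d / q) ^ 2 * d ^ η * (q ^ 4)⁻¹ := by gcongr
        _ = _ := by ring
    have h := hS.split X hX Y hY d q _ hd0 hq1 hDY hpiece
    have h5 : d ^ (3 + η - 2 / 2 ^ n) = d ^ 3 * d ^ η * (q ^ 2)⁻¹ := by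
      rw [Real.rpow_sub hd0, Real.rpow_add hd0, show (3 : ℝ) = ((3 : ℕ) : ℝ) by norm_num, Real.rpow_natCast,
        div_eq_mul_inv]
      congr 2
      rw [hq, ← Real.rpow_natCast (d ^ (1 / (2 : ℝ) ^ n)) 2, ← Real.rpow_mul hd0.le]
      congr 1
      push_cast
      ring
    calc M X Y ≤ _ := h
      _ = 32 * Γ * A * (d ^ 3 * d ^ η * (q ^ 2)⁻¹) := by
          field_simp
          ring
      _ = 32 * Γ * A * d ^ (3 + η - 2 / 2 ^ n) := by rw [h5]
      _ ≤ _ := by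
          have : 0 ≤ (2 * κ ^ (2 ^ n)) ^ 6 := by positivity
          gcongr
          linarith
  · have h1 := hS.triv X hX Y hY d hd hDX hDY
    have h2 : 1 ≤ d ^ (3 + η - 2 / 2 ^ n) := Real.one_le_rpow hd (by linarith)
    calc M X Y ≤ (2 * d) ^ 6 := h1
      _ ≤ (2 * κ ^ (2 ^ n)) ^ 6 := by gcongr
      _ ≤ 32 * Γ + (2 * κ ^ (2 ^ n)) ^ 6 := by linarith
      _ = (32 * Γ + (2 * κ ^ (2 ^ n)) ^ 6) * 1 * 1 := by ring
      _ ≤ _ := by gcongr

/-- step (3) -/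
theorem three {κ η : ℝ} (hκ : 1 ≤ κ) (hη : 0 ≤ η) (n : ℕ) (hn : 8 ≤ n * η) (η' : ℝ) (hη' : 0 ≤ η')
    (hle : η - 2 / 2 ^ n ≤ η') :
    ∃ C : ℝ, 1 ≤ C ∧ ∀ (U : Finset ℤ) (M : Finset ℤ → Finset ℤ → ℝ), Sys κ U M →
      ∀ A : ℝ, 1 ≤ A → Hyp U M η A → Hyp U M η' (C * A) := by
  obtain ⟨C, hC1, hC⟩ := two hκ hη n hn
  refine ⟨254 ^ 6 + 128 ^ 10 * C, by nlinarith, ?_⟩
  intro U M hS A hA hH
  set A1 : ℝ := (254 ^ 6 + 128 ^ 10 * C) * A with hA1
  have hA1' : 128 ^ 10 * C * A ≤ A1 := by rw [hA1]; nlinarith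
  have hA1'' : 254 ^ 6 ≤ A1 := by
    rw [hA1]
    have : 0 ≤ 128 ^ 10 * C * A := by positivity
    nlinarith
  have hA10 : 0 < A1 := by linarith
  have key : ∀ k : ℕ, ∀ X ⊆ U, ∀ l : ℝ, 1 ≤ l → l < 127 ^ k → Di X l → M X X ≤ A1 * l ^ (3 + η') := by
    intro k
    induction k with
    | zero =>
      intro X hX l hl1 hl2 hD
      simp at hl2
      linarith
    | succ k ih =>
      intro X hX l hl1 hl2 hD
      have hl0 : 0 < l := by linarith
      have hlp : 0 < l ^ (3 + η') := Real.rpow_pos_of_pos hl0 _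
      rcases lt_or_ge l 127 with hc | hc
      · have h1 := hS.triv X hX X hX l hl1 hD hD
        have h2 : 1 ≤ l ^ (3 + η') := Real.one_le_rpow hl1 (by linarith)
        calc M X X ≤ (2 * l) ^ 6 := h1
          _ ≤ (2 * 127) ^ 6 := by gcongr
          _ = 254 ^ 6 := by norm_num
          _ ≤ A1 := hA1''
          _ ≤ A1 * l ^ (3 + η') := by nlinarith
      · have hd1 : 1 ≤ l / 127 := by rw [le_div_iff₀ (by norm_num)]; linarith
        have hd2 : l / 127 < 127 ^ k := by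
          rw [div_lt_iff₀ (by norm_num)]
          rw [pow_succ] at hl2
          exact hl2
        have hd0 : 0 < l / 127 := by linarith
        have h := hS.bn X hX l (A1 * (l / 127) ^ (3 + η')) (C * A * (l / 127) ^ (3 + η - 2 / 2 ^ n)) hl0 hD
          (fun X' hX' hD' => ih X' (hX'.trans hX) (l / 127) hd1 hd2 hD')
          (fun X' hX' X'' hX'' hD' hD'' hSe => hC U M hS A hA hH (l / 127) hd1 X' (hX'.trans hX) X''
            (hX''.trans hX) hSe hD' hD'')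
        have h1 : (l / 127) ^ (3 + η - 2 / 2 ^ n) ≤ (l / 127) ^ (3 + η') :=
          Real.rpow_le_rpow_of_exponent_le hd1 (by linarith)
        have h2 : (l / 127) ^ (3 + η') ≤ l ^ (3 + η') / 127 ^ 3 := by
          rw [Real.div_rpow hl0.le (by norm_num)]
          apply div_le_div_of_nonneg_left hlp.le (by norm_num)
          calc (127 : ℝ) ^ 3 = 127 ^ ((3 : ℕ) : ℝ) := by rw [Real.rpow_natCast]
            _ ≤ 127 ^ (3 + η') := Real.rpow_le_rpow_of_exponent_le (by norm_num) (by push_cast; linarith)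
        calc M X X ≤ _ := h
          _ ≤ 4 ^ 6 * 128 * (A1 * (l ^ (3 + η') / 127 ^ 3)) +
              128 ^ 10 * (C * A * (l ^ (3 + η') / 127 ^ 3)) := by
              gcongr
              exact h1.trans h2
          _ = (4 ^ 6 * 128 * A1 + 128 ^ 10 * C * A) / 127 ^ 3 * l ^ (3 + η') := by ring
          _ ≤ A1 * l ^ (3 + η') := by
              apply mul_le_mul_of_nonneg_right _ hlp.le
              rw [div_le_iff₀ (by norm_num)]
              linarith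
  intro X hX l hl1 hD
  obtain ⟨k, hk⟩ := pow_unbounded_of_one_lt l (show (1 : ℝ) < 127 by norm_num)
  exact key k X hX l hl1 hk hD

theorem four {κ ε : ℝ} (hκ : 1 ≤ κ) (hε : 0 < ε) (n : ℕ) (hn : 8 ≤ n * ε) (s : ℕ) :
    ∃ A : ℝ, 1 ≤ A ∧ ∀ (U : Finset ℤ) (M : Finset ℤ → Finset ℤ → ℝ), Sys κ U M →
      Hyp U M (max (3 - s * (2 / 2 ^ n)) ε) A := by
  induction s with
  | zero =>
    refine ⟨64, by norm_num, ?_⟩
    intro U M hS X hX l hl1 hD
    have h1 := hS.triv X hX X hX l hl1 hD hD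
    have h2 : l ^ 6 ≤ l ^ (3 + max (3 - ((0 : ℕ) : ℝ) * (2 / 2 ^ n)) ε) := by
      rw [← Real.rpow_natCast]
      apply Real.rpow_le_rpow_of_exponent_le hl1
      have := le_max_left (3 - ((0 : ℕ) : ℝ) * (2 / 2 ^ n)) ε
      push_cast at this ⊢
      linarith
    calc M X X ≤ (2 * l) ^ 6 := h1
      _ = 64 * l ^ 6 := by ring
      _ ≤ _ := by gcongr
  | succ s ih =>
    obtain ⟨A, hA, h⟩ := ih
    set η : ℝ := max (3 - s * (2 / 2 ^ n)) ε with hη
    have hηε : ε ≤ η := le_max_right _ _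
    have hδ : (0 : ℝ) < 2 / 2 ^ n := by positivity
    obtain ⟨C, hC1, hC⟩ := three hκ (by linarith : 0 ≤ η) n
      (hn.trans (mul_le_mul_of_nonneg_left hηε (Nat.cast_nonneg _)))
      (max (3 - (s + 1 : ℕ) * (2 / 2 ^ n)) ε) (le_trans hε.le (le_max_right _ _))
      (by
        rw [hη, sub_le_iff_le_add]
        apply max_le
        · have := le_max_left (3 - ((s + 1 : ℕ) : ℝ) * (2 / 2 ^ n)) ε
          push_cast at this ⊢
          linarith
        · have := le_max_right (3 - ((s + 1 : ℕ) : ℝ) * (2 / 2 ^ n)) ε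
          linarith)
    exact ⟨C * A, by nlinarith, fun U M hS => hC U M hS A hA (h U M hS)⟩

theorem sREAL : S_REAL := by
  intro κ ε hκ hε
  obtain ⟨n, hn⟩ := exists_nat_ge (8 / ε)
  have hn' : 8 ≤ n * ε := by rwa [div_le_iff₀ hε] at hn
  obtain ⟨s, hs⟩ := exists_nat_ge (3 / (2 / (2 : ℝ) ^ n))
  obtain ⟨A, hA, h⟩ := four hκ hε n hn' s
  refine ⟨A, by linarith, ?_⟩
  intro U M hS X hX l hl1 hD
  have h1 : max (3 - (s : ℝ) * (2 / 2 ^ n)) ε = ε := by
    apply max_eq_right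
    rw [div_le_iff₀ (by positivity)] at hs
    linarith
  have h2 := h U M hS X hX l hl1 hD
  rwa [h1] at h2

end Pool.Agent.K9h65.SM6
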