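import Pool.Agent.K9h65.SM6.Stm2

/-!
# SM6, leaf REAL2: the induction on scales, with cardinalities
-/

set_option autoImplicit false

open Finset

namespace Pool.Agent.K9h65.SM6

namespace R2

/-- the hypothesis on the sixth moments -/
def Hyp (U : Finset ℤ) (M : Finset ℤ → Finset ℤ → ℝ) (η A : ℝ) : Prop :=
  ∀ X ⊆ U, ∀ l : ℝ, 1 ≤ l → Di X l → M X X ≤ A * l ^ η * (X.card : ℝ) ^ 3

/-- Claim `C_n` -/
def Cn (κ η : ℝ) (n : ℕ) (Γ : ℝ) : Prop := ∀ (U : Finset ℤ) (M : Finset ℤ → Finset ℤ → ℝ), Sys2 κ U M →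
  ∀ A : ℝ, 1 ≤ A → Hyp U M η A → ∀ q d : ℝ, κ ≤ q → q ^ (2 ^ n) ≤ d →
    ∀ X ⊆ U, ∀ Y ⊆ U, Se X Y d → Di Y (d / q) → Di X d →
    M X Y ≤ Γ * A * X.card * (Y.card : ℝ) ^ 2 * d ^ η * q ^ (-(n * η / 2))

lemma Se.sub {X Y X' : Finset ℤ} {d : ℝ} (h : Se X Y d) (hX : X' ⊆ X) : Se Y X' d := by
  rcases h with h | h
  · right
    intro y hy x hx
    linarith [h x (hX hx) y hy]
  · left
    intro y hy x hx
    linarith [h x (hX hx) y hy]

lemma Di.mono {X : Finset ℤ} {l l' : ℝ} (h : Di X l) (hl : l ≤ l') : Di X l' :=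
  fun x hx y hy => (h x hx y hy).trans hl

theorem C0 {κ η : ℝ} (hκ : 1 ≤ κ) (hη : 0 ≤ η) : Cn κ η 0 1 := by
  intro U M hS A hA hH q d hq hqd X hX Y hY hSe hDY hDX
  have hq1 : 1 ≤ q := hκ.trans hq
  have hq0 : 0 < q := by linarith
  have hqd' : q ≤ d := by simpa using hqd
  have hd0 : 0 < d := by linarith
  have hd1 : 1 ≤ d := by linarith
  have hdq1 : 1 ≤ d / q := by rw [le_div_iff₀ hq0]; linarith
  have hdqd : d / q ≤ d := div_le_self hd0.le hq1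
  have hdη : 0 < d ^ η := Real.rpow_pos_of_pos hd0 _
  have h1 := hS.hold X hX Y hY
  have h2 := hH X hX d hd1 hDX
  have h3 := hH Y hY (d / q) hdq1 hDY
  have h5 : (d / q) ^ η ≤ d ^ η := Real.rpow_le_rpow (by linarith) hdqd hη
  have h6 : M X Y ^ 3 ≤ (A * X.card * (Y.card : ℝ) ^ 2 * d ^ η) ^ 3 := by
    calc M X Y ^ 3 ≤ M X X * M Y Y ^ 2 := h1
      _ ≤ (A * d ^ η * (X.card : ℝ) ^ 3) * (A * d ^ η * (Y.card : ℝ) ^ 3) ^ 2 := by
          have hM1 := hS.nonneg X X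
          have hM2 := hS.nonneg Y Y
          have h8 : M Y Y ≤ A * d ^ η * (Y.card : ℝ) ^ 3 := h3.trans (by gcongr)
          gcongr
      _ = _ := by ring
  have h7 := le_of_pow_le_pow_left₀ (by norm_num) (by positivity) h6
  refine h7.trans (le_of_eq ?_)
  simp

theorem Cstep {κ η : ℝ} (hκ : 1 ≤ κ) {n : ℕ} {Γ : ℝ} (hΓ : 0 ≤ Γ) (hC : Cn κ η n Γ) :
    Cn κ η (n + 1) (3 * √(Γ * κ ^ (n * η / 2))) := by
  intro U M hS A hA hH q d hq hqd X hX Y hY hSe hDY hDX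
  have hq1 : 1 ≤ q := hκ.trans hq
  have hq0 : 0 < q := by linarith
  have hκ0 : 0 < κ := by linarith
  have hq2d : q ^ 2 ≤ d := by
    refine le_trans ?_ hqd
    apply pow_le_pow_right₀ hq1
    calc 2 = 2 ^ 1 := by norm_num
      _ ≤ 2 ^ (n + 1) := Nat.pow_le_pow_right (by norm_num) (by omega)
  have hqq : q ≤ q ^ 2 := by nlinarith
  have hd0 : 0 < d := by nlinarith
  have hdq1 : 1 ≤ d / q := by rw [le_div_iff₀ hq0]; linarith
  have hdqd : d / q ≤ d := div_le_self hd0.le hq1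
  set lam : ℝ := κ * d / q ^ 2 with hlam
  have hlam0 : 0 < lam := by positivity
  have hdη : 0 < d ^ η := Real.rpow_pos_of_pos hd0 _
  set q' : ℝ := q ^ 2 / κ with hq'
  have hq'κ : κ ≤ q' := by
    rw [hq', le_div_iff₀ hκ0]
    nlinarith
  have hq'0 : 0 < q' := by linarith
  have hdq' : d / q' = lam := by
    rw [hq', hlam]; field_simp
  have hq'd : q' ^ (2 ^ n) ≤ d := by
    calc q' ^ (2 ^ n) ≤ (q ^ 2) ^ (2 ^ n) := by
          apply pow_le_pow_left₀ hq'0.le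
          rw [hq']
          exact div_le_self (by positivity) hκ
      _ = q ^ (2 ^ (n + 1)) := by rw [← pow_mul]; congr 1; ring
      _ ≤ d := hqd
  set B : ℝ := √(Γ * κ ^ (n * η / 2)) with hB
  have hκp : 0 < κ ^ (n * η / 2) := Real.rpow_pos_of_pos hκ0 _
  have hB2 : B ^ 2 = Γ * κ ^ (n * η / 2) := by
    rw [hB, Real.sq_sqrt (by positivity)]
  have hB0 : 0 ≤ B := Real.sqrt_nonneg _
  have hqη : 0 < q ^ (-((n + 1 : ℕ) * η / 2)) := Real.rpow_pos_of_pos hq0 _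
  have hpiece : ∀ X' ⊆ X, Di X' lam →
      M X' Y ≤ (B * A * (Y.card : ℝ) ^ 2 * d ^ η * q ^ (-((n + 1 : ℕ) * η / 2))) * X'.card := by
    intro X' hX' hDX'
    have h1 := hS.cs X' (hX'.trans hX) Y hY
    have h2 := hC U M hS A hA hH q' d hq'κ hq'd Y hY X' (hX'.trans hX) (Se.sub hSe hX')
      (by rw [hdq']; exact hDX') (Di.mono hDY hdqd)
    have h3 := hH Y hY (d / q) hdq1 hDY
    have h5 : q' ^ (-(n * η / 2)) = κ ^ (n * η / 2) * q ^ (-(n * η)) := by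
      rw [hq', Real.div_rpow (by positivity) hκ0.le, Real.rpow_neg hκ0.le, div_inv_eq_mul,
        ← Real.rpow_natCast q 2, ← Real.rpow_mul hq0.le, mul_comm]
      congr 2
      push_cast
      ring
    rw [h5] at h2
    have h7 : (d / q) ^ η = d ^ η * q ^ (-η) := by
      rw [Real.div_rpow hd0.le hq0.le, Real.rpow_neg hq0.le]
      rfl
    rw [h7] at h3
    have hq2 : 0 < q ^ (-(n * η)) := Real.rpow_pos_of_pos hq0 _
    have hq3 : 0 < q ^ (-η) := Real.rpow_pos_of_pos hq0 _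
    have h8 : M X' Y ^ 2 ≤
        ((B * A * (Y.card : ℝ) ^ 2 * d ^ η * q ^ (-((n + 1 : ℕ) * η / 2))) * X'.card) ^ 2 := by
      calc M X' Y ^ 2 ≤ M Y X' * M Y Y := h1
        _ ≤ (Γ * A * Y.card * (X'.card : ℝ) ^ 2 * d ^ η * (κ ^ (n * η / 2) * q ^ (-(n * η)))) *
            (A * (d ^ η * q ^ (-η)) * (Y.card : ℝ) ^ 3) := by
            have := hS.nonneg Y Y
            have := hS.nonneg Y X'
            gcongr
        _ = B ^ 2 * A ^ 2 * (Y.card : ℝ) ^ 4 * (X'.card : ℝ) ^ 2 * (d ^ η) ^ 2 *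
              (q ^ (-(n * η)) * q ^ (-η)) := by
            rw [hB2]; ring
        _ = B ^ 2 * A ^ 2 * (Y.card : ℝ) ^ 4 * (X'.card : ℝ) ^ 2 * (d ^ η) ^ 2 *
              (q ^ (-((n + 1 : ℕ) * η / 2))) ^ 2 := by
            congr 1
            rw [← Real.rpow_add hq0, ← Real.rpow_natCast (q ^ _) 2, ← Real.rpow_mul hq0.le]
            congr 1
            push_cast
            ring
        _ = _ := by ring
    exact le_of_pow_le_pow_left₀ (by norm_num) (by positivity) h8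
  have h := hS.cong X hX Y hY d lam (d / q) _ hd0 hlam0 hdq1 (by positivity)
    (le_of_eq (by rw [hlam]; field_simp)) hSe hDY hpiece
  refine h.trans (le_of_eq ?_)
  ring

theorem Call {κ η : ℝ} (hκ : 1 ≤ κ) (hη : 0 ≤ η) (n : ℕ) : ∃ Γ : ℝ, 0 ≤ Γ ∧ Cn κ η n Γ := by
  induction n with
  | zero => exact ⟨1, by norm_num, C0 hκ hη⟩
  | succ n ih =>
    obtain ⟨Γ, hΓ, h⟩ := ih
    exact ⟨_, by positivity, Cstep hκ hΓ h⟩

/-- step (2) -/
theorem two {κ η : ℝ} (hκ : 1 ≤ κ) (hη : 0 ≤ η) (n : ℕ) (hn : 10 ≤ n * η) (η' : ℝ) (hη' : 0 ≤ η')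
    (hle : η - 2 / 2 ^ n ≤ η') :
    ∃ C : ℝ, 1 ≤ C ∧ ∀ (U : Finset ℤ) (M : Finset ℤ → Finset ℤ → ℝ), Sys2 κ U M →
      ∀ A : ℝ, 1 ≤ A → Hyp U M η A → ∀ d : ℝ, 1 ≤ d → ∀ X ⊆ U, ∀ Y ⊆ U, Se X Y d → Di X d → Di Y d →
        M X Y ≤ C * A * d ^ η' * X.card * (Y.card : ℝ) ^ 2 := by
  obtain ⟨Γ, hΓ, hC⟩ := Call hκ hη n
  have hκ0 : 0 < κ := by linarith
  refine ⟨8 * Γ + (2 * κ ^ (2 ^ n)) ^ 3, ?_, ?_⟩
  · have h1 : 1 ≤ κ ^ (2 ^ n) := one_le_pow₀ hκ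
    have h2 : 1 ≤ (2 * κ ^ (2 ^ n)) ^ 3 := one_le_pow₀ (by linarith)
    linarith
  intro U M hS A hA hH d hd X hX Y hY hSe hDX hDY
  have hd0 : 0 < d := by linarith
  have hdp : 0 < d ^ η' := Real.rpow_pos_of_pos hd0 _
  rcases le_or_gt (κ ^ (2 ^ n)) d with hc | hc
  · set q : ℝ := d ^ (1 / (2 : ℝ) ^ n) with hq
    have hqd : q ^ (2 ^ n) = d := by
      rw [hq, ← Real.rpow_natCast, ← Real.rpow_mul hd0.le]
      push_cast
      rw [one_div, inv_mul_cancel₀ (by positivity), Real.rpow_one]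
    have hκq : κ ≤ q := by
      have h1 : κ ^ (2 ^ n) ≤ q ^ (2 ^ n) := by rw [hqd]; exact hc
      exact le_of_pow_le_pow_left₀ (by positivity) (by positivity) h1
    have hq1 : 1 ≤ q := hκ.trans hκq
    have hq0 : 0 < q := by linarith
    have hdη : 0 < d ^ η := Real.rpow_pos_of_pos hd0 _
    have hpiece : ∀ Y' ⊆ Y, Di Y' (d / q) →
        M X Y' ≤ (Γ * A * X.card * d ^ η * (q ^ 5)⁻¹) * (Y'.card : ℝ) ^ 2 := by
      intro Y' hY' hDY'
      have h1 := hC U M hS A hA hH q d hκq hqd.le X hX Y' (hY'.trans hY)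
        (by
          rcases hSe with h | h
          · exact Or.inl fun x hx y hy => h x hx y (hY' hy)
          · exact Or.inr fun x hx y hy => h x hx y (hY' hy)) hDY' hDX
      have h2 : q ^ (-(n * η / 2)) ≤ (q ^ 5)⁻¹ := by
        rw [← Real.rpow_natCast, ← Real.rpow_neg hq0.le]
        apply Real.rpow_le_rpow_of_exponent_le hq1
        push_cast
        linarith
      calc M X Y' ≤ _ := h1
        _ ≤ Γ * A * X.card * (Y'.card : ℝ) ^ 2 * d ^ η * (q ^ 5)⁻¹ := by gcongr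
        _ = _ := by ring
    have h := hS.split X hX Y hY d q _ hd0 hq1 (by positivity) hDY hpiece
    have h5 : d ^ η * (q ^ 2)⁻¹ ≤ d ^ η' := by
      have h6 : d ^ η * (q ^ 2)⁻¹ = d ^ (η - 2 / 2 ^ n) := by
        rw [Real.rpow_sub hd0, div_eq_mul_inv]
        congr 2
        rw [hq, ← Real.rpow_natCast (d ^ (1 / (2 : ℝ) ^ n)) 2, ← Real.rpow_mul hd0.le]
        congr 1
        push_cast
        ring
      rw [h6]
      exact Real.rpow_le_rpow_of_exponent_le hd hle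
    calc M X Y ≤ _ := h
      _ = 8 * Γ * A * (d ^ η * (q ^ 2)⁻¹) * X.card * (Y.card : ℝ) ^ 2 := by
          field_simp
          ring
      _ ≤ 8 * Γ * A * d ^ η' * X.card * (Y.card : ℝ) ^ 2 := by gcongr
      _ ≤ _ := by
          have : 0 ≤ (2 * κ ^ (2 ^ n)) ^ 3 := by positivity
          gcongr
          linarith
  · have h1 := hS.triv X hX d hd hDX
    have h1' := hS.triv Y hY d hd hDY
    have h2 : 1 ≤ d ^ η' := Real.one_le_rpow hd hη'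
    have h3 : M X Y ^ 3 ≤ ((2 * d) ^ 3 * X.card * (Y.card : ℝ) ^ 2) ^ 3 := by
      calc M X Y ^ 3 ≤ M X X * M Y Y ^ 2 := hS.hold X hX Y hY
        _ ≤ ((2 * d) ^ 3 * (X.card : ℝ) ^ 3) * ((2 * d) ^ 3 * (Y.card : ℝ) ^ 3) ^ 2 := by
            have := hS.nonneg X X
            have := hS.nonneg Y Y
            gcongr
        _ = _ := by ring
    have h4 := le_of_pow_le_pow_left₀ (by norm_num) (by positivity) h3
    calc M X Y ≤ (2 * d) ^ 3 * X.card * (Y.card : ℝ) ^ 2 := h4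
      _ ≤ (2 * κ ^ (2 ^ n)) ^ 3 * X.card * (Y.card : ℝ) ^ 2 := by gcongr
      _ = (2 * κ ^ (2 ^ n)) ^ 3 * 1 * 1 * X.card * (Y.card : ℝ) ^ 2 := by ring
      _ ≤ (8 * Γ + (2 * κ ^ (2 ^ n)) ^ 3) * A * d ^ η' * X.card * (Y.card : ℝ) ^ 2 := by
          gcongr
          linarith

/-- step (3) -/
theorem three {κ η ε : ℝ} (hκ : 1 ≤ κ) (hη : 0 ≤ η) (hε : 0 < ε) (n : ℕ) (hn : 10 ≤ n * η) (η' : ℝ)
    (hη' : ε ≤ η') (hle : η - 2 / 2 ^ n ≤ η') :
    ∃ C : ℝ, 1 ≤ C ∧ ∀ (U : Finset ℤ) (M : Finset ℤ → Finset ℤ → ℝ), Sys2 κ U M →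
      ∀ A : ℝ, 1 ≤ A → Hyp U M η A → Hyp U M η' (C * A) := by
  obtain ⟨C, hC1, hC⟩ := two hκ hη n hn η' (by linarith) hle
  obtain ⟨k0, hk0⟩ := exists_nat_ge (((2 : ℝ) * 4 ^ 6) ^ (1 / ε))
  set k : ℕ := k0 + 2 with hk
  have hk2 : (2 : ℝ) ≤ k := by
    rw [hk]; push_cast; linarith [(Nat.cast_nonneg k0 : (0 : ℝ) ≤ k0)]
  have hk1 : (1 : ℝ) < k := by linarith
  have hk0' : (0 : ℝ) < k := by linarith
  have hkε : (2 : ℝ) * 4 ^ 6 ≤ (k : ℝ) ^ η' := by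
    have h1 : ((2 : ℝ) * 4 ^ 6) ^ (1 / ε) ≤ k := by
      rw [hk]; push_cast; linarith
    calc (2 : ℝ) * 4 ^ 6 = (((2 : ℝ) * 4 ^ 6) ^ (1 / ε)) ^ ε := by
          rw [← Real.rpow_mul (by positivity), one_div, inv_mul_cancel₀ hε.ne', Real.rpow_one]
      _ ≤ (k : ℝ) ^ ε := Real.rpow_le_rpow (by positivity) h1 hε.le
      _ ≤ (k : ℝ) ^ η' := Real.rpow_le_rpow_of_exponent_le hk1.le hη'
  refine ⟨(2 * k) ^ 3 + 2 * ((k : ℝ) + 1) ^ 8 * C, ?_, ?_⟩
  · have h1 : 1 ≤ (2 * (k : ℝ)) ^ 3 := one_le_pow₀ (by linarith)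
    have h2 : 0 ≤ 2 * ((k : ℝ) + 1) ^ 8 * C := by positivity
    linarith
  intro U M hS A hA hH
  set A1 : ℝ := ((2 * k) ^ 3 + 2 * ((k : ℝ) + 1) ^ 8 * C) * A with hA1
  have hA1' : 2 * (((k : ℝ) + 1) ^ 8 * (C * A)) ≤ A1 := by
    rw [hA1]
    have : 0 ≤ (2 * (k : ℝ)) ^ 3 * A := by positivity
    nlinarith
  have hA1'' : (2 * (k : ℝ)) ^ 3 ≤ A1 := by
    rw [hA1]
    have h1 : 0 ≤ 2 * ((k : ℝ) + 1) ^ 8 * C * A := by positivity
    have h2 : (2 * (k : ℝ)) ^ 3 * 1 ≤ (2 * (k : ℝ)) ^ 3 * A := by gcongr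
    linarith
  have hA10 : 0 < A1 := lt_of_lt_of_le (by positivity) hA1''
  have key : ∀ j : ℕ, ∀ X ⊆ U, ∀ l : ℝ, 1 ≤ l → l < (k : ℝ) ^ j → Di X l →
      M X X ≤ A1 * l ^ η' * (X.card : ℝ) ^ 3 := by
    intro j
    induction j with
    | zero =>
      intro X hX l hl1 hl2 hD
      simp at hl2
      linarith
    | succ j ih =>
      intro X hX l hl1 hl2 hD
      have hl0 : 0 < l := by linarith
      have hlp : 0 < l ^ η' := Real.rpow_pos_of_pos hl0 _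
      rcases lt_or_ge l k with hc | hc
      · have h1 := hS.triv X hX l hl1 hD
        have h2 : 1 ≤ l ^ η' := Real.one_le_rpow hl1 (by linarith)
        calc M X X ≤ (2 * l) ^ 3 * (X.card : ℝ) ^ 3 := h1
          _ ≤ (2 * k) ^ 3 * (X.card : ℝ) ^ 3 := by gcongr
          _ ≤ A1 * (X.card : ℝ) ^ 3 := by gcongr
          _ = A1 * 1 * (X.card : ℝ) ^ 3 := by ring
          _ ≤ A1 * l ^ η' * (X.card : ℝ) ^ 3 := by gcongr
      · have hd1 : 1 ≤ l / k := by rw [le_div_iff₀ hk0']; linarith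
        have hd2 : l / k < (k : ℝ) ^ j := by
          rw [div_lt_iff₀ hk0']
          rw [pow_succ] at hl2
          exact hl2
        have hd0 : 0 < l / k := by linarith
        have hdp : 0 < (l / k) ^ η' := Real.rpow_pos_of_pos hd0 _
        have h := hS.bn X hX k l (A1 * (l / k) ^ η') (C * A * (l / k) ^ η') (by omega) hl0
          (by positivity) (by positivity) hD
          (fun X' hX' hD' => ih X' (hX'.trans hX) (l / k) hd1 hd2 hD')
          (fun X' hX' X'' hX'' hD' hD'' hSe => hC U M hS A hA hH (l / k) hd1 X' (hX'.trans hX) X''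
            (hX''.trans hX) hSe hD' hD'')
        have h2 : (l / k) ^ η' = l ^ η' / (k : ℝ) ^ η' := Real.div_rpow hl0.le hk0'.le _
        have hkp : 0 < (k : ℝ) ^ η' := Real.rpow_pos_of_pos hk0' _
        calc M X X ≤ _ := h
          _ = (4 ^ 6 * A1 + ((k : ℝ) + 1) ^ 8 * (C * A)) * (l ^ η' / (k : ℝ) ^ η') * (X.card : ℝ) ^ 3 := by
              rw [h2]; ring
          _ ≤ (4 ^ 6 * A1 + 4 ^ 6 * A1) * (l ^ η' / (k : ℝ) ^ η') * (X.card : ℝ) ^ 3 := by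
              have h3 : 4 ^ 6 * A1 + ((k : ℝ) + 1) ^ 8 * (C * A) ≤ 4 ^ 6 * A1 + 4 ^ 6 * A1 := by
                have h4 : 0 ≤ ((k : ℝ) + 1) ^ 8 * (C * A) := by positivity
                linarith
              have h5 : 0 ≤ l ^ η' / (k : ℝ) ^ η' := by positivity
              exact mul_le_mul_of_nonneg_right (mul_le_mul_of_nonneg_right h3 h5) (by positivity)
          _ = (2 * 4 ^ 6) * A1 * (l ^ η' / (k : ℝ) ^ η') * (X.card : ℝ) ^ 3 := by ring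
          _ ≤ (k : ℝ) ^ η' * A1 * (l ^ η' / (k : ℝ) ^ η') * (X.card : ℝ) ^ 3 := by gcongr
          _ = A1 * l ^ η' * (X.card : ℝ) ^ 3 := by
              field_simp
  intro X hX l hl1 hD
  obtain ⟨j, hj⟩ := pow_unbounded_of_one_lt l hk1
  exact key j X hX l hl1 hj hD

theorem four {κ ε : ℝ} (hκ : 1 ≤ κ) (hε : 0 < ε) (n : ℕ) (hn : 10 ≤ n * ε) (s : ℕ) :
    ∃ A : ℝ, 1 ≤ A ∧ ∀ (U : Finset ℤ) (M : Finset ℤ → Finset ℤ → ℝ), Sys2 κ U M →
      Hyp U M (max (3 - s * (2 / 2 ^ n)) ε) A := by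
  induction s with
  | zero =>
    refine ⟨8, by norm_num, ?_⟩
    intro U M hS X hX l hl1 hD
    have h1 := hS.triv X hX l hl1 hD
    have h2 : l ^ 3 ≤ l ^ (max (3 - ((0 : ℕ) : ℝ) * (2 / 2 ^ n)) ε) := by
      rw [← Real.rpow_natCast]
      apply Real.rpow_le_rpow_of_exponent_le hl1
      have := le_max_left (3 - ((0 : ℕ) : ℝ) * (2 / 2 ^ n)) ε
      push_cast at this ⊢
      linarith
    calc M X X ≤ (2 * l) ^ 3 * (X.card : ℝ) ^ 3 := h1
      _ = 8 * l ^ 3 * (X.card : ℝ) ^ 3 := by ring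
      _ ≤ _ := by gcongr
  | succ s ih =>
    obtain ⟨A, hA, h⟩ := ih
    set η : ℝ := max (3 - s * (2 / 2 ^ n)) ε with hη
    have hηε : ε ≤ η := le_max_right _ _
    have hδ : (0 : ℝ) < 2 / 2 ^ n := by positivity
    obtain ⟨C, hC1, hC⟩ := three hκ (by linarith : 0 ≤ η) hε n
      (hn.trans (mul_le_mul_of_nonneg_left hηε (Nat.cast_nonneg _)))
      (max (3 - (s + 1 : ℕ) * (2 / 2 ^ n)) ε) (le_max_right _ _)
      (by
        rw [hη, sub_le_iff_le_add]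
        apply max_le
        · have := le_max_left (3 - ((s + 1 : ℕ) : ℝ) * (2 / 2 ^ n)) ε
          push_cast at this ⊢
          linarith
        · have := le_max_right (3 - ((s + 1 : ℕ) : ℝ) * (2 / 2 ^ n)) ε
          linarith)
    exact ⟨C * A, by nlinarith, fun U M hS => hC U M hS A hA (h U M hS)⟩

end R2

theorem sREAL2 : S_REAL2 := by
  intro κ ε hκ hε
  obtain ⟨n, hn⟩ := exists_nat_ge (10 / ε)
  have hn' : 10 ≤ n * ε := by rwa [div_le_iff₀ hε] at hn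
  obtain ⟨s, hs⟩ := exists_nat_ge (3 / (2 / (2 : ℝ) ^ n))
  obtain ⟨A, hA, h⟩ := R2.four hκ hε n hn' s
  refine ⟨A, by linarith, ?_⟩
  intro U M hS X hX l hl1 hD
  have h1 : max (3 - (s : ℝ) * (2 / 2 ^ n)) ε = ε := by
    apply max_eq_right
    rw [div_le_iff₀ (by positivity)] at hs
    linarith
  have h2 := h U M hS X hX l hl1 hD
  rwa [h1] at h2

end Pool.Agent.K9h65.SM6
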